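import Mathlib

/-!
Elementary tools: interpolation bounds, well spaced subsets, the map `s ↦ (s/p)^(1/N)`.
-/

open Polynomial Finset

namespace Pool.Agent.MP_ac14a7_nt

/-- A polynomial of degree at most `n` which is small at `n + 1` well spaced points is small at
nearby points. -/
theorem lagrange_bound (n : ℕ) (q : ℝ[X]) (hq : q.natDegree ≤ n) (y : Fin (n + 1) → ℝ)
    (η ρ ε z : ℝ) (hη : 0 < η) (hy : ∀ i j, i ≠ j → η ≤ |y i - y j|)
    (hρ : ∀ i, |z - y i| ≤ ρ) (hε : ∀ i, |q.eval (y i)| ≤ ε) :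
    |q.eval z| ≤ (n + 1) * ε * (ρ / η) ^ n := by
  have hinj : Set.InjOn y (univ : Finset (Fin (n + 1))) := by
    intro i _ j _ hij
    by_contra hne
    have := hy i j hne
    rw [hij, sub_self, abs_zero] at this
    linarith
  have hdeg : q.degree < #(univ : Finset (Fin (n + 1))) := by
    rw [card_univ, Fintype.card_fin]
    exact lt_of_le_of_lt degree_le_natDegree (by exact_mod_cast Nat.lt_succ_of_le hq)
  have hρ0 : 0 ≤ ρ := le_trans (abs_nonneg _) (hρ 0)
  have hε0 : 0 ≤ ε := le_trans (abs_nonneg _) (hε 0)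
  have key := Lagrange.eq_interpolate hinj hdeg
  rw [key, Lagrange.interpolate_apply, eval_finsetSum]
  calc |∑ i, eval z (C (eval (y i) q) * Lagrange.basis univ y i)|
      ≤ ∑ i, |eval z (C (eval (y i) q) * Lagrange.basis univ y i)| := abs_sum_le_sum_abs _ _
    _ ≤ ∑ _i : Fin (n + 1), ε * (ρ / η) ^ n := by
        apply sum_le_sum
        intro i _
        rw [eval_mul, eval_C, abs_mul]
        apply mul_le_mul (hε i) _ (abs_nonneg _) hε0
        rw [Lagrange.basis, eval_prod, abs_prod]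
        calc ∏ j ∈ univ.erase i, |eval z (Lagrange.basisDivisor (y i) (y j))|
            ≤ ∏ _j ∈ univ.erase i, (ρ / η) := by
              apply prod_le_prod
              · intro j _; exact abs_nonneg _
              · intro j hj
                have hij : i ≠ j := (ne_of_mem_erase hj).symm
                rw [Lagrange.basisDivisor, eval_mul, eval_C, eval_sub, eval_X, eval_C, abs_mul,
                  abs_inv, mul_comm, ← div_eq_mul_inv]
                exact div_le_div₀ hρ0 (hρ j) hη (hy i j hij)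
          _ = (ρ / η) ^ n := by
              rw [prod_const, card_erase_of_mem (mem_univ i), card_univ, Fintype.card_fin,
                Nat.add_sub_cancel]
    _ = (n + 1) * ε * (ρ / η) ^ n := by
        rw [sum_const, card_univ, Fintype.card_fin, nsmul_eq_mul]
        push_cast
        ring

/-- Well spaced subsets of a finite set of natural numbers. -/
theorem exists_spaced (S : Finset ℕ) (n g : ℕ) (h : n * g + 1 ≤ #S) :
    ∃ e : Fin (n + 1) → ℕ, (∀ i, e i ∈ S) ∧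
      ∀ i j, i ≠ j → (g : ℝ) ≤ |(e i : ℝ) - (e j : ℝ)| := by
  classical
  let f := S.orderEmbOfFin rfl
  have hmono : ∀ (a b : Fin #S), a ≤ b → (f a : ℕ) + ((b : ℕ) - (a : ℕ)) ≤ f b := by
    intro a b hab
    obtain ⟨a, ha⟩ := a
    obtain ⟨b, hb⟩ := b
    simp only [Fin.mk_le_mk] at hab
    induction b with
    | zero =>
      have : a = 0 := by omega
      subst this
      simp
    | succ b ih =>
      rcases Nat.lt_or_ge a (b + 1) with h1 | h1
      · have hb' : b < #S := by omega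
        have := ih hb' (by omega)
        have h2 : f ⟨b, hb'⟩ < f ⟨b + 1, hb⟩ := f.strictMono (by simp)
        simp only at this ⊢
        omega
      · have : a = b + 1 := by omega
        subst this
        simp
  have hlt : ∀ i : Fin (n + 1), (i : ℕ) * g < #S := by
    intro i
    have : (i : ℕ) * g ≤ n * g := Nat.mul_le_mul_right _ (by omega)
    omega
  refine ⟨fun i => f ⟨(i : ℕ) * g, hlt i⟩, fun i => S.orderEmbOfFin_mem rfl _, ?_⟩
  have key : ∀ i j : Fin (n + 1), i < j →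
      (g : ℝ) ≤ |(f ⟨(i : ℕ) * g, hlt i⟩ : ℝ) - (f ⟨(j : ℕ) * g, hlt j⟩ : ℝ)| := by
    intro i j hij
    have h1 : (i : ℕ) + 1 ≤ j := hij
    have h2 : ((i : ℕ) + 1) * g ≤ (j : ℕ) * g := Nat.mul_le_mul_right _ h1
    have h3 := hmono ⟨(i : ℕ) * g, hlt i⟩ ⟨(j : ℕ) * g, hlt j⟩ (by
      simp only [Fin.mk_le_mk]
      exact Nat.mul_le_mul_right _ (by omega))
    simp only at h3
    have h4 : f ⟨(i : ℕ) * g, hlt i⟩ + g ≤ f ⟨(j : ℕ) * g, hlt j⟩ := by
      have : g ≤ (j : ℕ) * g - (i : ℕ) * g := by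
        have : ((i : ℕ) + 1) * g = (i : ℕ) * g + g := by ring
        omega
      omega
    have h5 : ((f ⟨(i : ℕ) * g, hlt i⟩ : ℕ) : ℝ) + (g : ℝ) ≤ ((f ⟨(j : ℕ) * g, hlt j⟩ : ℕ) : ℝ) := by
      exact_mod_cast h4
    rw [abs_sub_comm]
    exact le_trans (by linarith) (le_abs_self _)
  intro i j hij
  rcases lt_or_gt_of_ne hij with h1 | h1
  · exact key i j h1
  · rw [abs_sub_comm]
    exact key j i h1

/-- `|s - s'| ≤ p N |x - x'|` when `p x^N = s`, `p x'^N = s'`. -/
theorem abs_sub_le_of_pow (N : ℕ) (p x x' s s' : ℝ) (hp : 0 ≤ p) (hx0 : 0 ≤ x) (hx : x ≤ 1)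
    (hx'0 : 0 ≤ x') (hx' : x' ≤ 1) (h : p * x ^ N = s) (h' : p * x' ^ N = s') :
    |s - s'| ≤ p * N * |x - x'| := by
  have h1 : x ^ N - x' ^ N = (x - x') * ∑ i ∈ range N, x ^ i * x' ^ (N - 1 - i) := by
    rw [mul_comm]; exact (Commute.all x x').geom_sum₂_mul N |>.symm
  have h2 : |∑ i ∈ range N, x ^ i * x' ^ (N - 1 - i)| ≤ N := by
    calc |∑ i ∈ range N, x ^ i * x' ^ (N - 1 - i)|
        ≤ ∑ i ∈ range N, |x ^ i * x' ^ (N - 1 - i)| := abs_sum_le_sum_abs _ _
      _ ≤ ∑ _i ∈ range N, (1 : ℝ) := by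
          apply sum_le_sum
          intro i _
          rw [abs_of_nonneg (by positivity)]
          exact mul_le_one₀ (pow_le_one₀ hx0 hx) (by positivity) (pow_le_one₀ hx'0 hx')
      _ = N := by simp
  rw [← h, ← h', ← mul_sub, h1, abs_mul, abs_mul, abs_of_nonneg hp]
  calc p * (|x - x'| * |∑ i ∈ range N, x ^ i * x' ^ (N - 1 - i)|)
      ≤ p * (|x - x'| * N) := by gcongr
    _ = p * N * |x - x'| := by ring

/-- `|x - x'| ≤ 2^N |s - s'| / p` when `p x^N = s`, `p x'^N = s'` and `1/2 ≤ x, x' ≤ 1`. -/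
theorem abs_sub_le_of_root (N : ℕ) (hN : 1 ≤ N) (p x x' s s' : ℝ) (hp : 0 < p) (hx0 : 1 / 2 ≤ x)
    (hx'0 : 1 / 2 ≤ x') (h : p * x ^ N = s) (h' : p * x' ^ N = s') :
    |x - x'| ≤ 2 ^ N * |s - s'| / p := by
  have h1 : x ^ N - x' ^ N = (x - x') * ∑ i ∈ range N, x ^ i * x' ^ (N - 1 - i) := by
    rw [mul_comm]; exact (Commute.all x x').geom_sum₂_mul N |>.symm
  have h2 : (1 / 2 : ℝ) ^ N ≤ ∑ i ∈ range N, x ^ i * x' ^ (N - 1 - i) := by
    have h3 : x' ^ (N - 1) ≤ ∑ i ∈ range N, x ^ i * x' ^ (N - 1 - i) := by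
      have := single_le_sum (s := range N) (f := fun i => x ^ i * x' ^ (N - 1 - i))
        (fun i _ => by positivity) (mem_range.mpr (show 0 < N by omega))
      simpa using this
    have h4 : (1 / 2 : ℝ) ^ (N - 1) ≤ x' ^ (N - 1) := pow_le_pow_left₀ (by norm_num) hx'0 _
    have h5 : (1 / 2 : ℝ) ^ N ≤ (1 / 2 : ℝ) ^ (N - 1) :=
      pow_le_pow_of_le_one (by norm_num) (by norm_num) (by omega)
    linarith
  have h6 : |s - s'| = p * (|x - x'| * ∑ i ∈ range N, x ^ i * x' ^ (N - 1 - i)) := by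
    rw [← h, ← h', ← mul_sub, h1, abs_mul, abs_mul, abs_of_pos hp,
      abs_of_nonneg (le_trans (by positivity) h2)]
  rw [le_div_iff₀ hp, h6]
  have h7 : |x - x'| * 1 ≤ |x - x'| * (2 ^ N * ∑ i ∈ range N, x ^ i * x' ^ (N - 1 - i)) := by
    apply mul_le_mul_of_nonneg_left _ (abs_nonneg _)
    calc (1 : ℝ) = 2 ^ N * (1 / 2) ^ N := by rw [← mul_pow]; norm_num
      _ ≤ 2 ^ N * ∑ i ∈ range N, x ^ i * x' ^ (N - 1 - i) := by gcongr
  calc |x - x'| * p = p * (|x - x'| * 1) := by ring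
    _ ≤ p * (|x - x'| * (2 ^ N * ∑ i ∈ range N, x ^ i * x' ^ (N - 1 - i))) := by gcongr
    _ = 2 ^ N * (p * (|x - x'| * ∑ i ∈ range N, x ^ i * x' ^ (N - 1 - i))) := by ring

end Pool.Agent.MP_ac14a7_nt
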