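import Mathlib
import Pool.Agent.MP_ac14a7_nt.Basic

/-!
The sum of the absolute values of the coefficients, truncation, a real form of the Siegel lemma.
-/

open Polynomial Finset

namespace Pool.Agent.MP_ac14a7_nt

/-- The sum of the absolute values of the coefficients is at most `A`. -/
def LOne (P : ℝ[X]) (A : ℝ) : Prop := ∀ n, ∑ i ∈ range n, |P.coeff i| ≤ A

theorem LOne.nonneg {P : ℝ[X]} {A : ℝ} (h : LOne P A) : 0 ≤ A := by
  simpa using h 0

theorem LOne.mono {P : ℝ[X]} {A B : ℝ} (h : LOne P A) (hAB : A ≤ B) : LOne P B :=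
  fun n => le_trans (h n) hAB

theorem LOne.add {P Q : ℝ[X]} {A B : ℝ} (hP : LOne P A) (hQ : LOne Q B) :
    LOne (P + Q) (A + B) := by
  intro n
  calc ∑ i ∈ range n, |(P + Q).coeff i| ≤ ∑ i ∈ range n, (|P.coeff i| + |Q.coeff i|) := by
        apply sum_le_sum
        intro i _
        rw [coeff_add]
        exact abs_add_le _ _
    _ = ∑ i ∈ range n, |P.coeff i| + ∑ i ∈ range n, |Q.coeff i| := sum_add_distrib
    _ ≤ A + B := add_le_add (hP n) (hQ n)

theorem LOne.neg {P : ℝ[X]} {A : ℝ} (hP : LOne P A) : LOne (-P) A := by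
  intro n
  simpa using hP n

theorem LOne.sub {P Q : ℝ[X]} {A B : ℝ} (hP : LOne P A) (hQ : LOne Q B) :
    LOne (P - Q) (A + B) := by
  rw [sub_eq_add_neg]
  exact hP.add hQ.neg

theorem LOne.mul {P Q : ℝ[X]} {A B : ℝ} (hP : LOne P A) (hQ : LOne Q B) :
    LOne (P * Q) (A * B) := by
  intro n
  calc ∑ i ∈ range n, |(P * Q).coeff i|
      ≤ ∑ i ∈ range n, ∑ j ∈ range (i + 1), |P.coeff j| * |Q.coeff (i - j)| := by
        apply sum_le_sum
        intro i _
        rw [coeff_mul, Finset.Nat.sum_antidiagonal_eq_sum_range_succ_mk]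
        refine le_trans (abs_sum_le_sum_abs _ _) ?_
        apply sum_le_sum
        intro j _
        rw [abs_mul]
    _ = ∑ j ∈ range n, ∑ i ∈ Ico j n, |P.coeff j| * |Q.coeff (i - j)| := by
        have := (Finset.sum_Ico_Ico_comm 0 n
          (fun j i => |P.coeff j| * |Q.coeff (i - j)|)).symm
        simpa only [range_eq_Ico] using this
    _ ≤ ∑ j ∈ range n, |P.coeff j| * B := by
        apply sum_le_sum
        intro j _
        rw [← mul_sum]
        apply mul_le_mul_of_nonneg_left _ (abs_nonneg _)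
        rw [sum_Ico_eq_sum_range]
        have h1 : ∀ i, j + i - j = i := fun i => by omega
        simp only [h1]
        exact hQ _
    _ = (∑ j ∈ range n, |P.coeff j|) * B := by rw [sum_mul]
    _ ≤ A * B := mul_le_mul_of_nonneg_right (hP n) hQ.nonneg

theorem LOne.C (c : ℝ) : LOne (C c) |c| := by
  intro n
  rcases n with _ | n
  · simp
  · rw [sum_range_succ']
    simp [coeff_C]

theorem LOne.X : LOne X 1 := by
  intro n
  calc ∑ i ∈ range n, |(Polynomial.X : ℝ[X]).coeff i|
      = ∑ i ∈ range n, (if i = 1 then (1 : ℝ) else 0) := by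
        apply sum_congr rfl
        intro i _
        rw [coeff_X]
        split_ifs with h1 h2 h2
        · simp
        · omega
        · omega
        · simp
    _ ≤ 1 := by
        rw [sum_ite_eq']
        split_ifs <;> norm_num

theorem LOne.one : LOne 1 1 := by
  have := LOne.C 1
  simpa using this

theorem LOne.pow {P : ℝ[X]} {A : ℝ} (hP : LOne P A) (n : ℕ) : LOne (P ^ n) (A ^ n) := by
  induction n with
  | zero => simpa using LOne.one
  | succ n ih =>
    rw [pow_succ, pow_succ]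
    exact ih.mul hP

theorem LOne.sum {ι : Type*} (s : Finset ι) (P : ι → ℝ[X]) (A : ι → ℝ)
    (h : ∀ i ∈ s, LOne (P i) (A i)) : LOne (∑ i ∈ s, P i) (∑ i ∈ s, A i) := by
  classical
  induction s using Finset.induction_on with
  | empty =>
    intro n
    simp
  | insert i s hi ih =>
    rw [sum_insert hi, sum_insert hi]
    exact (h i (mem_insert_self i s)).add (ih fun j hj => h j (mem_insert_of_mem hj))

/-- Truncation of a polynomial. -/
theorem trunc_bound (G : ℝ[X]) (A : ℝ) (hA : LOne G A) (L : ℕ) (ρ h : ℝ) (hρ : ρ ≤ 1)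
    (hh : |h| ≤ ρ) :
    |G.eval h - (∑ r ∈ range L, monomial r (G.coeff r)).eval h| ≤ A * ρ ^ L := by
  set n := max (G.natDegree + 1) L with hn
  have hρ0 : 0 ≤ ρ := le_trans (abs_nonneg _) hh
  have h1 : G.eval h = ∑ r ∈ range n, G.coeff r * h ^ r :=
    eval_eq_sum_range' (lt_of_lt_of_le (Nat.lt_succ_self _) (le_max_left _ _)) h
  have h2 : (∑ r ∈ range L, monomial r (G.coeff r)).eval h =
      ∑ r ∈ range L, G.coeff r * h ^ r := by
    rw [eval_finsetSum]
    simp
  have h3 : ∑ r ∈ range n, G.coeff r * h ^ r =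
      ∑ r ∈ range L, G.coeff r * h ^ r + ∑ r ∈ Ico L n, G.coeff r * h ^ r := by
    rw [sum_range_add_sum_Ico _ (le_max_right _ _)]
  rw [h1, h2, h3, add_sub_cancel_left]
  calc |∑ r ∈ Ico L n, G.coeff r * h ^ r| ≤ ∑ r ∈ Ico L n, |G.coeff r * h ^ r| :=
        abs_sum_le_sum_abs _ _
    _ ≤ ∑ r ∈ Ico L n, |G.coeff r| * ρ ^ L := by
        apply sum_le_sum
        intro r hr
        rw [abs_mul, abs_pow]
        apply mul_le_mul_of_nonneg_left _ (abs_nonneg _)
        calc |h| ^ r ≤ ρ ^ r := pow_le_pow_left₀ (abs_nonneg _) hh r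
          _ ≤ ρ ^ L := pow_le_pow_of_le_one hρ0 hρ (mem_Ico.mp hr).1
    _ = (∑ r ∈ Ico L n, |G.coeff r|) * ρ ^ L := by rw [sum_mul]
    _ ≤ (∑ r ∈ range n, |G.coeff r|) * ρ ^ L := by
        apply mul_le_mul_of_nonneg_right _ (by positivity)
        rw [range_eq_Ico]
        apply sum_le_sum_of_subset_of_nonneg (Ico_subset_Ico_left (Nat.zero_le _))
        intros
        exact abs_nonneg _
    _ ≤ A * ρ ^ L := mul_le_mul_of_nonneg_right (hA n) (by positivity)

/-- A polynomial which is small at `L + 1` well spaced points is small at nearby points, up to a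
tail. -/
theorem lagrange_tail (G : ℝ[X]) (A : ℝ) (hA : LOne G A) (L : ℕ) (y : Fin (L + 1) → ℝ)
    (η ρ ρ' ε z : ℝ) (hη : 0 < η) (hy : ∀ i j, i ≠ j → η ≤ |y i - y j|)
    (hρ : ∀ i, |z - y i| ≤ ρ) (hρ' : ρ' ≤ 1) (hz : |z| ≤ ρ') (hy' : ∀ i, |y i| ≤ ρ')
    (hε : ∀ i, |G.eval (y i)| ≤ ε) :
    |G.eval z| ≤ (L + 1) * (ε + A * ρ' ^ (L + 1)) * (ρ / η) ^ L + A * ρ' ^ (L + 1) := by
  set G' : ℝ[X] := ∑ r ∈ range (L + 1), monomial r (G.coeff r) with hG'
  have hdeg : G'.natDegree ≤ L := by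
    apply natDegree_sum_le_of_forall_le
    intro r hr
    exact le_trans (natDegree_monomial_le _) (Nat.lt_succ_iff.mp (mem_range.mp hr))
  have h1 := trunc_bound G A hA (L + 1) ρ' z hρ' hz
  have h2 : ∀ i, |G'.eval (y i)| ≤ ε + A * ρ' ^ (L + 1) := by
    intro i
    have h3 := trunc_bound G A hA (L + 1) ρ' (y i) hρ' (hy' i)
    have h4 := hε i
    have h5 : |G'.eval (y i)| ≤ |G.eval (y i)| + |G.eval (y i) - G'.eval (y i)| := by
      have := abs_sub_abs_le_abs_sub (G'.eval (y i)) (G.eval (y i))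
      rw [abs_sub_comm] at this
      linarith
    linarith
  have h3 := lagrange_bound L G' hdeg y η ρ (ε + A * ρ' ^ (L + 1)) z hη hy hρ h2
  have h5 : |G.eval z| ≤ |G'.eval z| + |G.eval z - G'.eval z| := by
    have := abs_sub_abs_le_abs_sub (G.eval z) (G'.eval z)
    linarith
  linarith

attribute [local instance] Matrix.seminormedAddCommGroup in
/-- The Siegel lemma for a real matrix. -/
theorem siegel_real {ι κ : Type*} [Fintype ι] [Fintype κ] (B : κ → ι → ℝ) (M : ℝ) (hM : 1 ≤ M)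
    (hB : ∀ i j, |B i j| ≤ M) (h0 : 0 < Fintype.card κ)
    (h1 : Fintype.card κ < Fintype.card ι) :
    ∃ t : ι → ℤ, t ≠ 0 ∧
      (∀ j, |(t j : ℝ)| ≤ (Fintype.card ι * (M + 1)) ^
        ((Fintype.card κ : ℝ) / ((Fintype.card ι : ℝ) - (Fintype.card κ : ℝ)))) ∧
      ∀ i, |∑ j, B i j * t j| ≤ Fintype.card ι * (Fintype.card ι * (M + 1)) ^
        ((Fintype.card κ : ℝ) / ((Fintype.card ι : ℝ) - (Fintype.card κ : ℝ))) := by
  set A : Matrix κ ι ℤ := Matrix.of fun i j => ⌊B i j⌋ with hA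
  obtain ⟨t, ht0, htA, htn⟩ := Int.Matrix.exists_ne_zero_int_vec_norm_le A h1 h0
  have hnorm : ‖A‖ ≤ M + 1 := by
    rw [Matrix.norm_le_iff (by linarith)]
    intro i j
    rw [hA, Matrix.of_apply, Int.norm_eq_abs]
    have h2 := hB i j
    have h3 := Int.floor_le (B i j)
    have h4 := Int.lt_floor_add_one (B i j)
    rw [abs_le] at h2 ⊢
    constructor <;> linarith [h2.1, h2.2]
  have hmax : max 1 ‖A‖ ≤ M + 1 := max_le (by linarith) hnorm
  have hbound : ‖t‖ ≤ (Fintype.card ι * (M + 1)) ^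
        ((Fintype.card κ : ℝ) / ((Fintype.card ι : ℝ) - (Fintype.card κ : ℝ))) := by
    refine le_trans htn ?_
    apply Real.rpow_le_rpow
    · positivity
    · gcongr
    · apply div_nonneg (Nat.cast_nonneg _)
      rw [sub_nonneg]
      exact_mod_cast h1.le
  have hentry : ∀ j, |(t j : ℝ)| ≤ (Fintype.card ι * (M + 1)) ^
        ((Fintype.card κ : ℝ) / ((Fintype.card ι : ℝ) - (Fintype.card κ : ℝ))) := by
    intro j
    refine le_trans ?_ hbound
    have := norm_le_pi_norm t j
    rwa [Int.norm_eq_abs] at this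
  refine ⟨t, ht0, hentry, ?_⟩
  intro i
  have h2 : ∑ j, (A i j : ℝ) * t j = 0 := by
    have h3 := congrFun htA i
    simp only [Matrix.mulVec, dotProduct, Pi.zero_apply] at h3
    exact_mod_cast h3
  have h3 : ∑ j, B i j * t j = ∑ j, (B i j - A i j) * t j := by
    simp only [sub_mul]
    rw [sum_sub_distrib, h2, sub_zero]
  rw [h3]
  refine le_trans (abs_sum_le_sum_abs _ _) ?_
  calc ∑ j, |(B i j - A i j) * t j| ≤ ∑ _j : ι, 1 * (Fintype.card ι * (M + 1)) ^
        ((Fintype.card κ : ℝ) / ((Fintype.card ι : ℝ) - (Fintype.card κ : ℝ))) := by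
        apply sum_le_sum
        intro j _
        rw [abs_mul]
        apply mul_le_mul _ (hentry j) (abs_nonneg _) (by norm_num)
        rw [hA, Matrix.of_apply]
        have h3 := Int.floor_le (B i j)
        have h4 := Int.lt_floor_add_one (B i j)
        rw [abs_le]
        constructor <;> linarith
    _ = Fintype.card ι * (Fintype.card ι * (M + 1)) ^
        ((Fintype.card κ : ℝ) / ((Fintype.card ι : ℝ) - (Fintype.card κ : ℝ))) := by
        rw [sum_const, card_univ, nsmul_eq_mul, one_mul]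

end Pool.Agent.MP_ac14a7_nt
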