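import Mathlib

/-!
Integer polynomials in two variables. An element of `ℤ[X][X]` is a polynomial in the outer
variable `x` whose coefficients are polynomials in the inner variable `s`.
-/

open Polynomial Finset

namespace Pool.Agent.MP_ac14a7_nt

/-- Evaluation of a polynomial in two variables at `(s, x)`. -/
noncomputable def ev (s x : ℝ) : ℤ[X][X] →+* ℝ :=
  eval₂RingHom (eval₂RingHom (Int.castRingHom ℝ) s) x

/-- Specialization of the inner variable. -/
noncomputable def spec (s : ℤ) : ℤ[X][X] →+* ℤ[X] := mapRingHom (evalRingHom s)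

/-- Substitution of `p x ^ N` for the inner variable. -/
noncomputable def psi (p : ℤ) (N : ℕ) : ℤ[X][X] →+* ℤ[X] :=
  eval₂RingHom (eval₂RingHom (C : ℤ →+* ℤ[X]) (C p * X ^ N)) X

/-- The degree in the inner variable is at most `a`. -/
def SDeg (F : ℤ[X][X]) (a : ℕ) : Prop := ∀ j, (F.coeff j).natDegree ≤ a

theorem spec_coeff (s : ℤ) (F : ℤ[X][X]) (j : ℕ) : (spec s F).coeff j = (F.coeff j).eval s := by
  simp [spec]

theorem natDegree_spec_le (s : ℤ) (F : ℤ[X][X]) : (spec s F).natDegree ≤ F.natDegree := by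
  simp only [spec, coe_mapRingHom]
  exact natDegree_map_le

theorem ev_eq_spec (s : ℤ) (x : ℝ) (F : ℤ[X][X]) : ev (s : ℝ) x F = aeval x (spec s F) := by
  have : ev (s : ℝ) x = ((aeval x : ℤ[X] →ₐ[ℤ] ℝ) : ℤ[X] →+* ℝ).comp (spec s) := by
    apply Polynomial.ringHom_ext'
    · apply Polynomial.ringHom_ext'
      · exact Subsingleton.elim _ _
      · simp [ev, spec]
    · simp [ev, spec]
  rw [this]
  rfl

theorem ev_eq_psi (p : ℤ) (N : ℕ) (x : ℝ) (F : ℤ[X][X]) :
    ev ((p : ℝ) * x ^ N) x F = aeval x (psi p N F) := by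
  have : ev ((p : ℝ) * x ^ N) x = ((aeval x : ℤ[X] →ₐ[ℤ] ℝ) : ℤ[X] →+* ℝ).comp (psi p N) := by
    apply Polynomial.ringHom_ext'
    · apply Polynomial.ringHom_ext'
      · exact Subsingleton.elim _ _
      · simp [ev, psi]
    · simp [ev, psi]
  rw [this]
  rfl

theorem psi_apply (p : ℤ) (N : ℕ) (F : ℤ[X][X]) :
    psi p N F = ∑ j ∈ range (F.natDegree + 1), (F.coeff j).comp (C p * X ^ N) * X ^ j := by
  rw [psi, coe_eval₂RingHom, eval₂_eq_sum_range]
  apply sum_congr rfl
  intro j _
  rw [coe_eval₂RingHom, comp]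

theorem psi_natDegree (p : ℤ) (N : ℕ) (F : ℤ[X][X]) (a d : ℕ) (ha : SDeg F a)
    (hd : F.natDegree ≤ d) : (psi p N F).natDegree ≤ a * N + d := by
  rw [psi_apply]
  apply natDegree_sum_le_of_forall_le
  intro j hj
  have hj' : j ≤ d := by
    have := mem_range.mp hj
    omega
  refine le_trans natDegree_mul_le ?_
  apply Nat.add_le_add
  · refine le_trans natDegree_comp_le ?_
    exact Nat.mul_le_mul (ha j) (le_trans (natDegree_C_mul_X_pow_le _ _) le_rfl)
  · rw [natDegree_X_pow]
    exact hj'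

theorem coeff_swap (F : ℤ[X][X]) (i j : ℕ) :
    ((Bivariate.swap F).coeff i).coeff j = (F.coeff j).coeff i := by
  induction F using Polynomial.induction_on' with
  | add p q hp hq => simp [hp, hq]
  | monomial n f =>
    induction f using Polynomial.induction_on' with
    | add p q hp hq => rw [map_add, map_add, coeff_add, coeff_add, hp, hq, coeff_add, coeff_add]
    | monomial m r =>
      rw [Bivariate.swap_monomial_monomial]
      simp only [coeff_monomial]
      split_ifs <;> simp_all [coeff_monomial]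

theorem sdeg_iff (F : ℤ[X][X]) (a : ℕ) : SDeg F a ↔ (Bivariate.swap F).natDegree ≤ a := by
  constructor
  · intro h
    rw [natDegree_le_iff_coeff_eq_zero]
    intro i hi
    ext j
    rw [coeff_swap, coeff_zero]
    exact coeff_eq_zero_of_natDegree_lt (lt_of_le_of_lt (h j) hi)
  · intro h j
    rw [natDegree_le_iff_coeff_eq_zero]
    intro i hi
    rw [← coeff_swap]
    rw [coeff_eq_zero_of_natDegree_lt (lt_of_le_of_lt h hi), coeff_zero]

theorem sdeg_of_dvd (F f : ℤ[X][X]) (a : ℕ) (hF : F ≠ 0) (h : f ∣ F) (ha : SDeg F a) :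
    SDeg f a := by
  rw [sdeg_iff] at ha ⊢
  obtain ⟨g, hg⟩ := h
  have h1 : Bivariate.swap F = Bivariate.swap f * Bivariate.swap g := by rw [hg, map_mul]
  have h2 : Bivariate.swap F ≠ 0 := by
    intro h
    apply hF
    rw [← Bivariate.swap_swap_apply F, h, map_zero]
  exact le_trans (natDegree_le_of_dvd (Dvd.intro _ h1.symm) h2) ha

theorem psi_eq_eval_swap (p : ℤ) (N : ℕ) (f : ℤ[X][X]) :
    psi p N f = (Bivariate.swap f).eval (C p * X ^ N) := by
  induction f using Polynomial.induction_on' with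
  | add f g hf hg => rw [map_add, map_add, eval_add, hf, hg]
  | monomial n f =>
    induction f using Polynomial.induction_on' with
    | add f g hf hg => rw [map_add, map_add, map_add, eval_add, hf, hg]
    | monomial m r =>
      rw [Bivariate.swap_monomial_monomial, eval_monomial, psi, coe_eval₂RingHom, eval₂_monomial,
        coe_eval₂RingHom, eval₂_monomial, ← C_mul_X_pow_eq_monomial]
      ring

theorem ev_swap_linear (p : ℤ) (N : ℕ) (s x : ℝ) :
    ev s x (Bivariate.swap (X - C (C p * X ^ N) : ℤ[X][X])) = s - p * x ^ N := by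
  have h9 : (C (C p * X ^ N) : ℤ[X][X]) = C (C p) * C X ^ N := by simp
  rw [h9, map_sub, map_mul, map_pow, Bivariate.swap_Y, Bivariate.swap_X, Bivariate.swap_C_C,
    map_sub, map_mul, map_pow]
  have h10 : ev s x (C X) = s := by simp [ev]
  have h11 : ev s x X = x := by simp [ev]
  have h12 : ev s x (C (C p)) = p := by
    rw [ev, coe_eval₂RingHom, eval₂_C, coe_eval₂RingHom, eval₂_C]
    rfl
  rw [h10, h11, h12]

/-- If `psi` kills an irreducible polynomial `f`, then `f` is `s - p x ^ N` up to sign. -/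
theorem eq_of_psi_eq_zero (p : ℤ) (N : ℕ) (f : ℤ[X][X]) (hf : Irreducible f)
    (h : psi p N f = 0) (s x : ℝ) (hx : ev s x f = 0) : s = p * x ^ N := by
  rw [psi_eq_eval_swap] at h
  have h2 : (X - C (C p * X ^ N) : ℤ[X][X]) ∣ Bivariate.swap f := dvd_iff_isRoot.mpr h
  have h3 : Bivariate.swap (X - C (C p * X ^ N) : ℤ[X][X]) ∣ f := by
    have := map_dvd Bivariate.swap h2
    rwa [Bivariate.swap_swap_apply] at this
  have h4 : ¬ IsUnit (X - C (C p * X ^ N) : ℤ[X][X]) := by
    intro hu
    have := natDegree_eq_zero_of_isUnit hu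
    rw [natDegree_X_sub_C] at this
    omega
  obtain ⟨g, hg⟩ := h3
  have h5 := hf.isUnit_or_isUnit hg
  rcases h5 with h5 | h5
  · exfalso
    apply h4
    have := h5.map (Bivariate.swap : ℤ[X][X] ≃ₐ[ℤ] ℤ[X][X])
    rwa [Bivariate.swap_swap_apply] at this
  · rw [hg, map_mul] at hx
    have h6 : ev s x g ≠ 0 := (h5.map (ev s x)).ne_zero
    have h7 := (mul_eq_zero.mp hx).resolve_right h6
    rw [ev_swap_linear] at h7
    linarith

end Pool.Agent.MP_ac14a7_nt
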