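import Mathlib
import Pool.Agent.MP_ac14a7_nt.Biv

/-!
Common zeros of two irreducible polynomials in two variables, factors, bounds for the
coefficients of divisors.
-/

open Polynomial Finset

namespace Pool.Agent.MP_ac14a7_nt

theorem ev_C (s x : ℝ) (f : ℤ[X]) : ev s x (C f) = aeval s f := by
  simp only [ev, coe_eval₂RingHom, eval₂_C]
  rfl

theorem eq_zero_of_many_roots (r : ℤ[X]) (n : ℕ) (hn : r.natDegree ≤ n) (S : Finset ℕ)
    (hS : ∀ s ∈ S, aeval (s : ℝ) r = 0) (hcard : n < #S) : r = 0 := by
  classical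
  apply eq_zero_of_natDegree_lt_card_of_eval_eq_zero' r (S.image (fun s : ℕ => (s : ℤ)))
  · intro i hi
    obtain ⟨s, hs, rfl⟩ := mem_image.mp hi
    have h := hS s hs
    have h2 : (aeval (s : ℝ) r : ℝ) = ((r.eval (s : ℤ) : ℤ) : ℝ) := by
      have := aeval_algebraMap_apply ℝ (s : ℤ) r
      simpa using this
    rw [h2] at h
    exact_mod_cast h
  · rw [card_image_of_injective _ Nat.cast_injective]
    omega

theorem natDegree_det_le {n : ℕ} (M : Matrix (Fin n) (Fin n) ℤ[X]) (a : ℕ)
    (h : ∀ i j, (M i j).natDegree ≤ a) : M.det.natDegree ≤ n * a := by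
  rw [Matrix.det_apply]
  apply natDegree_sum_le_of_forall_le
  intro σ _
  refine le_trans (natDegree_smul_le _ _) ?_
  refine le_trans (natDegree_prod_le _ _) ?_
  calc ∑ i, (M (σ i) i).natDegree ≤ ∑ _i : Fin n, a := sum_le_sum fun i _ => h _ _
    _ = n * a := by simp

theorem natDegree_resultant_le (f g : ℤ[X][X]) (m n a : ℕ) (hf : SDeg f a) (hg : SDeg g a) :
    (resultant f g m n).natDegree ≤ (m + n) * a := by
  apply natDegree_det_le
  intro i j
  simp only [sylvester, Matrix.of_apply]
  induction j using Fin.addCases with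
  | left j =>
    simp only [Fin.addCases_left]
    split_ifs
    · exact hg _
    · simp
  | right j =>
    simp only [Fin.addCases_right]
    split_ifs
    · exact hf _
    · simp

/-- Two irreducible polynomials with many common zeros are associated. -/
theorem associated_of_common (f g : ℤ[X][X]) (hf : Irreducible f) (hg : Irreducible g)
    (a d : ℕ) (haf : SDeg f a) (hag : SDeg g a) (hdf : f.natDegree ≤ d) (hdg : g.natDegree ≤ d)
    (S : Finset ℕ) (b : ℕ → ℝ) (hSf : ∀ s ∈ S, ev s (b s) f = 0)
    (hSg : ∀ s ∈ S, ev s (b s) g = 0) (hcard : 2 * d * a < #S) (hcard' : a < #S) :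
    Associated f g := by
  have hpos : ∀ h : ℤ[X][X], Irreducible h → SDeg h a → (∀ s ∈ S, ev s (b s) h = 0) →
      h.natDegree ≠ 0 := by
    intro h hh ha hS h0
    rw [natDegree_eq_zero] at h0
    obtain ⟨r, rfl⟩ := h0
    have : r = 0 := by
      apply eq_zero_of_many_roots r a _ S _ hcard'
      · simpa using ha 0
      · intro s hs
        have := hS s hs
        rwa [ev_C] at this
    rw [this] at hh
    simp at hh
  have hf0 := hpos f hf haf hSf
  have hg0 := hpos g hg hag hSg
  have hfp := hf.isPrimitive hf0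
  have hgp := hg.isPrimitive hg0
  let K := FractionRing ℤ[X]
  have hfi : Irreducible (f.map (algebraMap ℤ[X] K)) :=
    (hfp.irreducible_iff_irreducible_map_fraction_map).mp hf
  have hgi : Irreducible (g.map (algebraMap ℤ[X] K)) :=
    (hgp.irreducible_iff_irreducible_map_fraction_map).mp hg
  by_contra hass
  have hco : IsCoprime (f.map (algebraMap ℤ[X] K)) (g.map (algebraMap ℤ[X] K)) := by
    rcases dvd_or_isCoprime _ (g.map (algebraMap ℤ[X] K)) hfi with h | h
    · exfalso
      apply hass
      have h2 := hfp.dvd_of_fraction_map_dvd_fraction_map h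
      exact hf.associated_of_dvd hg h2
    · exact h
  have hres : resultant (f.map (algebraMap ℤ[X] K)) (g.map (algebraMap ℤ[X] K)) ≠ 0 := by
    intro h
    rw [resultant_eq_zero_iff] at h
    exact h.2 hco
  have hinj : Function.Injective (algebraMap ℤ[X] K) := IsFractionRing.injective _ _
  rw [natDegree_map_eq_of_injective hinj, natDegree_map_eq_of_injective hinj,
    resultant_map_map] at hres
  have hr : resultant f g ≠ 0 := by
    intro h
    rw [h, map_zero] at hres
    exact hres rfl
  apply hr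
  apply eq_zero_of_many_roots _ (2 * d * a) _ S _ hcard
  · refine le_trans (natDegree_resultant_le f g _ _ a haf hag) ?_
    apply Nat.mul_le_mul_right
    omega
  · intro s hs
    obtain ⟨u, v, -, -, huv⟩ :=
      exists_mul_add_mul_eq_C_resultant f g le_rfl le_rfl (Or.inl hf0)
    rw [← ev_C (s : ℝ) (b s), ← huv, map_add, map_mul, map_mul, hSf s hs, hSg s hs]
    ring

/-- A polynomial with many zeros has an irreducible factor with many zeros. -/
theorem exists_factor_aux (Λ : ℕ) (b : ℕ → ℝ) (F : ℤ[X][X]) : F ≠ 0 →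
    ∀ (n : ℕ) (S : Finset ℕ), (Bivariate.swap F).natDegree + F.natDegree ≤ n →
    (∀ s ∈ S, ev s (b s) F = 0) → n * Λ < #S →
    ∃ f, Irreducible f ∧ f ∣ F ∧ ∃ S' ⊆ S, Λ < #S' ∧ ∀ s ∈ S', ev s (b s) f = 0 := by
  classical
  refine UniqueFactorizationMonoid.induction_on_prime F ?_ ?_ ?_
  · intro h
    exact absurd rfl h
  · intro x hx _ n S _ hS hcard
    have hSne : S.Nonempty := by
      rw [← card_pos]
      omega
    obtain ⟨s, hs⟩ := hSne
    exact absurd (hS s hs) (hx.map (ev s (b s))).ne_zero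
  · intro G p hG hp ih _ n S hdeg hS hcard
    set S₁ := S.filter (fun s : ℕ => ev s (b s) p = 0) with hS₁
    by_cases hc : Λ < #S₁
    · exact ⟨p, hp.irreducible, dvd_mul_right _ _, S₁, filter_subset _ _, hc,
        fun s hs => (mem_filter.mp hs).2⟩
    set S₂ := S.filter (fun s : ℕ => ¬ ev s (b s) p = 0) with hS₂
    have hcard2 : #S₁ + #S₂ = #S := card_filter_add_card_filter_not _
    have hS2 : ∀ s ∈ S₂, ev s (b s) G = 0 := by
      intro s hs
      obtain ⟨hs1, hs2⟩ := mem_filter.mp hs
      have := hS s hs1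
      rw [map_mul] at this
      exact (mul_eq_zero.mp this).resolve_left hs2
    have hd1 : (p * G).natDegree = p.natDegree + G.natDegree := natDegree_mul hp.ne_zero hG
    have hswap0 : ∀ h : ℤ[X][X], h ≠ 0 → Bivariate.swap h ≠ 0 := by
      intro h hh h0
      apply hh
      rw [← Bivariate.swap_swap_apply h, h0, map_zero]
    have hd2 : (Bivariate.swap (p * G)).natDegree =
        (Bivariate.swap p).natDegree + (Bivariate.swap G).natDegree := by
      rw [map_mul]
      exact natDegree_mul (hswap0 p hp.ne_zero) (hswap0 G hG)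
    have main : ∃ n' : ℕ, (Bivariate.swap G).natDegree + G.natDegree ≤ n' ∧ n' * Λ < #S₂ := by
      by_cases h0 : (Bivariate.swap p).natDegree + p.natDegree = 0
      · have h1 : (Bivariate.swap p).natDegree = 0 := by omega
        have h2 : p.natDegree = 0 := by omega
        have h3 : SDeg p 0 := by
          rw [sdeg_iff]
          omega
        have hS1 : #S₁ = 0 := by
          rw [card_eq_zero, filter_eq_empty_iff]
          intro s _ hs
          rw [natDegree_eq_zero] at h2
          obtain ⟨r, rfl⟩ := h2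
          have h4 : r.natDegree = 0 := by
            have := h3 0
            simpa using this
          rw [natDegree_eq_zero] at h4
          obtain ⟨c, rfl⟩ := h4
          rw [ev_C, aeval_C] at hs
          have : c = 0 := by simpa using hs
          rw [this] at hp
          simp at hp
        refine ⟨n, by omega, by omega⟩
      · refine ⟨n - 1, by omega, ?_⟩
        have hn : 1 ≤ n := by omega
        obtain ⟨n', rfl⟩ : ∃ n', n = n' + 1 := ⟨n - 1, by omega⟩
        rw [Nat.add_sub_cancel]
        have : (n' + 1) * Λ = n' * Λ + Λ := by ring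
        omega
    obtain ⟨n', hn1, hn2⟩ := main
    obtain ⟨f, hf1, hf2, S', hS', hf3, hf4⟩ := ih hG n' S₂ hn1 hS2 hn2
    exact ⟨f, hf1, dvd_mul_of_dvd_right hf2 _, S', hS'.trans (filter_subset _ _), hf3, hf4⟩

theorem exists_factor (Λ : ℕ) (b : ℕ → ℝ) (F : ℤ[X][X]) (hF : F ≠ 0) (a d : ℕ) (ha : SDeg F a)
    (hd : F.natDegree ≤ d) (S : Finset ℕ) (hS : ∀ s ∈ S, ev s (b s) F = 0)
    (hcard : (a + d) * Λ < #S) :
    ∃ f, Irreducible f ∧ f ∣ F ∧ ∃ S' ⊆ S, Λ < #S' ∧ ∀ s ∈ S', ev s (b s) f = 0 :=
  exists_factor_aux Λ b F hF (a + d) S (Nat.add_le_add ((sdeg_iff _ _).mp ha) hd) hS hcard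

/-- Bound for the coefficients of a divisor. -/
theorem coeff_le_of_dvd (f F : ℤ[X]) (hF : F ≠ 0) (h : f ∣ F) (d : ℕ) (hd : F.natDegree ≤ d)
    (T : ℝ) (hT : ∀ i, |(F.coeff i : ℝ)| ≤ T) (i : ℕ) :
    |(f.coeff i : ℝ)| ≤ 2 ^ d * ((d + 1) * T) := by
  obtain ⟨g, rfl⟩ := h
  have hg : g ≠ 0 := right_ne_zero_of_mul hF
  have hf : f ≠ 0 := left_ne_zero_of_mul hF
  have hT0 : 0 ≤ T := le_trans (abs_nonneg _) (hT 0)
  have h1 := norm_coeff_le_choose_mul_mahlerMeasure_of_one_le_mahlerMeasure i
    (f.map (Int.castRingHom ℂ)) (g.map (Int.castRingHom ℂ)) (one_le_mahlerMeasure_of_ne_zero hg)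
  rw [← Polynomial.map_mul, coeff_map] at h1
  have h2 : ‖(Int.castRingHom ℂ) (f.coeff i)‖ = |(f.coeff i : ℝ)| := by
    simp
  rw [h2] at h1
  refine le_trans h1 ?_
  have hdf : (f.map (Int.castRingHom ℂ)).natDegree ≤ d := by
    refine le_trans natDegree_map_le ?_
    rw [natDegree_mul hf hg] at hd
    omega
  have h3 : (((f.map (Int.castRingHom ℂ)).natDegree.choose i : ℕ) : ℝ) ≤ 2 ^ d := by
    calc (((f.map (Int.castRingHom ℂ)).natDegree.choose i : ℕ) : ℝ)
        ≤ ((2 ^ (f.map (Int.castRingHom ℂ)).natDegree : ℕ) : ℝ) := by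
          exact_mod_cast Nat.choose_le_two_pow _ _
      _ ≤ 2 ^ d := by
          push_cast
          exact pow_le_pow_right₀ (by norm_num) hdf
  have h4 : ((f * g).map (Int.castRingHom ℂ)).mahlerMeasure ≤ (d + 1) * T := by
    refine le_trans (mahlerMeasure_le_sum_norm_coeff _) ?_
    rw [sum_over_range' _ (by simp) (d + 1)
      (Nat.lt_succ_of_le (le_trans natDegree_map_le hd))]
    calc ∑ x ∈ range (d + 1), ‖((f * g).map (Int.castRingHom ℂ)).coeff x‖
        ≤ ∑ _x ∈ range (d + 1), T := by
          apply sum_le_sum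
          intro j _
          rw [coeff_map]
          have := hT j
          simpa using this
      _ = (d + 1) * T := by
          rw [sum_const, card_range, nsmul_eq_mul]
          push_cast
          ring
  apply mul_le_mul h3 h4 (mahlerMeasure_nonneg _) (by positivity)

end Pool.Agent.MP_ac14a7_nt
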