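import Mathlib

/-!
The predicate `Killed` (used in Step B and Step D).
-/

open Polynomial

namespace Pool.Agent.MP_ac14a7_nt

/-- `s` is killed at the scale given by `p`, `B`, `P`. -/
def Killed (N m : ℕ) (p B P : ℝ) (s : ℕ) : Prop :=
  ∃ (x β H : ℝ) (Q : ℤ[X]), 1 / 2 ≤ x ∧ x ≤ 1 ∧ p * x ^ N = s ∧ Irreducible Q ∧
    Q.natDegree = m ∧ 1 ≤ H ∧ (∀ i, |(Q.coeff i : ℝ)| ≤ H) ∧ H ^ m ≤ B ∧ aeval β Q = 0 ∧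
    β ≠ x ∧ |x - β| * P ≤ 1

end Pool.Agent.MP_ac14a7_nt
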