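import Mathlib

/-!
Definitions for the problem on types of integer powers of S-numbers.
-/

open Polynomial

namespace Pool.Agent.MP_ac14a7_nt

/-- The naive height of an integer polynomial: the maximum of the absolute values of its
coefficients (and `0` for the zero polynomial). -/
noncomputable def height (P : ℤ[X]) : ℕ := P.support.sup fun i => (P.coeff i).natAbs

/-- The real numbers `w` such that `0 < |P(ξ)| ≤ H(P) ^ (-w)` holds for infinitely many integer
polynomials `P` of degree at most `n`. -/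
def exponentsW (n : ℕ) (ξ : ℝ) : Set ℝ :=
  {w : ℝ | {P : ℤ[X] | P.natDegree ≤ n ∧ 0 < |aeval ξ P| ∧
    |aeval ξ P| ≤ (height P : ℝ) ^ (-w)}.Infinite}

/-- The real numbers `w` such that `0 < |ξ - α| ≤ H(α) ^ (-w - 1)` holds for infinitely many real
algebraic numbers `α` of degree at most `n`. Here an integer polynomial which is irreducible in
`ℤ[X]` and vanishes at `α` is, up to sign, the minimal polynomial of `α` over `ℤ`; its degree is
the degree of `α` and its height is the height `H(α)`. -/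
def exponentsWStar (n : ℕ) (ξ : ℝ) : Set ℝ :=
  {w : ℝ | {α : ℝ | ∃ P : ℤ[X], Irreducible P ∧ aeval α P = 0 ∧ P.natDegree ≤ n ∧
    0 < |ξ - α| ∧ |ξ - α| ≤ (height P : ℝ) ^ (-w - 1)}.Infinite}

/-- Mahler's exponent `w_n(ξ)`, as an extended real number. -/
noncomputable def wExp (n : ℕ) (ξ : ℝ) : EReal :=
  sSup ((fun w : ℝ => (w : EReal)) '' exponentsW n ξ)

/-- Koksma's exponent `w_n^*(ξ)`, as an extended real number. -/
noncomputable def wStarExp (n : ℕ) (ξ : ℝ) : EReal :=
  sSup ((fun w : ℝ => (w : EReal)) '' exponentsWStar n ξ)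

/-- `w(ξ) = limsup w_n(ξ) / n`. -/
noncomputable def wLim (ξ : ℝ) : EReal :=
  Filter.limsup (fun n : ℕ => wExp n ξ / ((n : ℝ) : EReal)) Filter.atTop

/-- A real number is an S-number if it is transcendental and `w(ξ) < ∞`. -/
def IsSNumber (ξ : ℝ) : Prop := Transcendental ℤ ξ ∧ wLim ξ < ⊤

/-- The type `t(ξ) = limsup (w_n(ξ) + 1) / (n + 1)`. -/
noncomputable def typeT (ξ : ℝ) : EReal :=
  Filter.limsup (fun n : ℕ => (wExp n ξ + 1) / (((n : ℝ) + 1 : ℝ) : EReal)) Filter.atTop

/-- The `*`-type `t^*(ξ) = limsup (w_n^*(ξ) + 1) / (n + 1)`. -/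
noncomputable def typeTStar (ξ : ℝ) : EReal :=
  Filter.limsup (fun n : ℕ => (wStarExp n ξ + 1) / (((n : ℝ) + 1 : ℝ) : EReal)) Filter.atTop

end Pool.Agent.MP_ac14a7_nt
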