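import Mathlib
import Pool.Agent.MP_ac14a7_nt.Defs

/-!
Steps A and A': lower bounds for values of coprime integer polynomials at one point.
-/

open Polynomial

namespace Pool.Agent.MP_ac14a7_nt

/-- A cofactor is bounded by the product of the other column bounds. -/
theorem abs_det_updateRow_single_le {ι : Type*} [Fintype ι] [DecidableEq ι] (A : Matrix ι ι ℝ)
    (c : ι → ℝ) (hc : ∀ i j, |A i j| ≤ c j) (i₀ j : ι) :
    |(A.updateRow i₀ (Pi.single j 1)).det| ≤
      ((Fintype.card ι).factorial : ℝ) * ∏ k ∈ Finset.univ.erase j, c k := by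
  have hc0 : ∀ k, 0 ≤ c k := fun k => (abs_nonneg _).trans (hc k k)
  have hprod : 0 ≤ ∏ k ∈ Finset.univ.erase j, c k := Finset.prod_nonneg fun k _ => hc0 k
  rw [Matrix.det_apply']
  have h1 : ∀ σ : Equiv.Perm ι,
      |((Equiv.Perm.sign σ : ℤ) : ℝ) * ∏ i, (A.updateRow i₀ (Pi.single j 1)) (σ i) i| ≤
        ∏ k ∈ Finset.univ.erase j, c k := by
    intro σ
    rw [abs_mul]
    have hs : |((Equiv.Perm.sign σ : ℤ) : ℝ)| = 1 := by
      rcases Int.units_eq_one_or (Equiv.Perm.sign σ) with h | h <;> simp [h]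
    rw [hs, one_mul, Finset.abs_prod]
    by_cases h : σ j = i₀
    · rw [← Finset.mul_prod_erase Finset.univ _ (Finset.mem_univ j)]
      have h2 : |(A.updateRow i₀ (Pi.single j 1)) (σ j) j| = 1 := by
        rw [h, Matrix.updateRow_self, Pi.single_eq_same, abs_one]
      rw [h2, one_mul]
      refine Finset.prod_le_prod (fun _ _ => abs_nonneg _) fun k hk => ?_
      have hk' : k ≠ j := Finset.ne_of_mem_erase hk
      have h3 : σ k ≠ i₀ := by
        rw [← h]
        exact fun h' => hk' (σ.injective h')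
      rw [Matrix.updateRow_ne h3]
      exact hc _ _
    · have h2 : ∏ i, |(A.updateRow i₀ (Pi.single j 1)) (σ i) i| = 0 := by
        refine Finset.prod_eq_zero (Finset.mem_univ (σ.symm i₀)) ?_
        rw [Equiv.apply_symm_apply, Matrix.updateRow_self, Pi.single_eq_of_ne, abs_zero]
        intro h'
        apply h
        rw [← h', Equiv.apply_symm_apply]
      rw [h2]
      exact hprod
  calc |∑ σ : Equiv.Perm ι, ((Equiv.Perm.sign σ : ℤ) : ℝ) *
          ∏ i, (A.updateRow i₀ (Pi.single j 1)) (σ i) i|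
      ≤ ∑ σ : Equiv.Perm ι, |((Equiv.Perm.sign σ : ℤ) : ℝ) *
          ∏ i, (A.updateRow i₀ (Pi.single j 1)) (σ i) i| := Finset.abs_sum_le_sum_abs _ _
    _ ≤ ∑ _σ : Equiv.Perm ι, ∏ k ∈ Finset.univ.erase j, c k := Finset.sum_le_sum fun σ _ => h1 σ
    _ = ((Fintype.card ι).factorial : ℝ) * ∏ k ∈ Finset.univ.erase j, c k := by
      rw [Finset.sum_const, Finset.card_univ, Fintype.card_perm, nsmul_eq_mul]

/-- A shifted column of the Sylvester matrix paired with the vector of powers. -/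
theorem sum_pow_mul_shift (P : ℤ[X]) (n N j : ℕ) (hP : P.natDegree ≤ n) (hj : j + n < N) (ξ : ℝ) :
    ∑ i : Fin N, ξ ^ (i : ℕ) *
      (if (i : ℕ) ∈ Set.Icc j (j + n) then ((P.coeff ((i : ℕ) - j) : ℤ) : ℝ) else 0) =
      ξ ^ j * aeval ξ P := by
  rw [Fin.sum_univ_eq_sum_range (fun i => ξ ^ i *
    (if i ∈ Set.Icc j (j + n) then ((P.coeff (i - j) : ℤ) : ℝ) else 0)) N]
  have h1 : ∀ i ∈ Finset.range N, ξ ^ i *
      (if i ∈ Set.Icc j (j + n) then ((P.coeff (i - j) : ℤ) : ℝ) else 0) =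
      if i ∈ Set.Icc j (j + n) then ξ ^ i * ((P.coeff (i - j) : ℤ) : ℝ) else 0 := by
    intro i _
    split_ifs <;> simp
  rw [Finset.sum_congr rfl h1, ← Finset.sum_filter]
  have h2 : (Finset.range N).filter (fun i => i ∈ Set.Icc j (j + n)) =
      Finset.Ico j (j + n + 1) := by
    ext i
    simp only [Finset.mem_filter, Finset.mem_range, Set.mem_Icc, Finset.mem_Ico]
    omega
  rw [h2, Finset.sum_Ico_eq_sum_range, aeval_eq_sum_range' (n := n + 1) (by omega),
    Finset.mul_sum]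
  have h3 : j + n + 1 - j = n + 1 := by omega
  rw [h3]
  refine Finset.sum_congr rfl fun i _ => ?_
  rw [Nat.add_sub_cancel_left, pow_add, zsmul_eq_mul]
  ring

/-- Step A. Lower bound for the values of two coprime integer polynomials at one point. -/
theorem sylvester_bound (m n : ℕ) (hm : 1 ≤ m) : ∃ C : ℝ, 1 ≤ C ∧
    ∀ (Q P : ℤ[X]) (H T : ℝ), Q.natDegree = m → P.natDegree ≤ n → 1 ≤ H → 1 ≤ T →
      (∀ i, |(Q.coeff i : ℝ)| ≤ H) → (∀ i, |(P.coeff i : ℝ)| ≤ T) →
      IsCoprime (Q.map (Int.castRingHom ℚ)) (P.map (Int.castRingHom ℚ)) →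
      ∀ ξ : ℝ, |ξ| ≤ 2 →
        1 ≤ C * (H ^ n * T ^ (m - 1) * |aeval ξ P| + H ^ (n - 1) * T ^ m * |aeval ξ Q|) := by
  refine ⟨(m + n : ℕ) * (2 ^ (m + n) * ((m + n).factorial : ℝ)), ?_, ?_⟩
  · have h1 : (1 : ℝ) ≤ ((m + n : ℕ) : ℝ) := by exact_mod_cast (by omega : 1 ≤ m + n)
    have h2 : (1 : ℝ) ≤ 2 ^ (m + n) := one_le_pow₀ (by norm_num)
    have h3 : (1 : ℝ) ≤ ((m + n).factorial : ℝ) := by exact_mod_cast Nat.factorial_pos _
    exact one_le_mul_of_one_le_of_one_le h1 (one_le_mul_of_one_le_of_one_le h2 h3)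
  intro Q P H T hQ hP hH hT hQH hPT hcop ξ hξ
  have hH0 : (0 : ℝ) ≤ H := by linarith
  have hT0 : (0 : ℝ) ≤ T := by linarith
  -- the resultant is a nonzero integer
  have hres : resultant Q P m n ≠ 0 := by
    intro h0
    obtain ⟨k, hk⟩ := Nat.exists_eq_add_of_le hP
    have h1 : resultant (Q.map (Int.castRingHom ℚ)) (P.map (Int.castRingHom ℚ)) m n = 0 := by
      rw [resultant_map_map, h0, map_zero]
    have hinj : Function.Injective (Int.castRingHom ℚ) := Int.cast_injective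
    have hQd : (Q.map (Int.castRingHom ℚ)).natDegree = m := by
      rw [natDegree_map_eq_of_injective hinj, hQ]
    have hPd : (P.map (Int.castRingHom ℚ)).natDegree = P.natDegree :=
      natDegree_map_eq_of_injective hinj _
    have h2 := resultant_ne_zero _ _ hcop
    rw [hQd, hPd] at h2
    rw [hk, resultant_add_right_deg _ _ _ _ _ hPd.le] at h1
    have hQ0 : Q ≠ 0 := by
      rintro rfl
      simp at hQ
      omega
    have h3 : (Q.map (Int.castRingHom ℚ)).coeff m ≠ 0 := by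
      rw [← hQd]
      exact leadingCoeff_ne_zero.mpr ((Polynomial.map_ne_zero_iff hinj).mpr hQ0)
    exact (mul_ne_zero (pow_ne_zero _ h3) h2) h1
  let A : Matrix (Fin (m + n)) (Fin (m + n)) ℝ := (sylvester Q P m n).map (fun z : ℤ => (z : ℝ))
  have hdet : A.det = ((resultant Q P m n : ℤ) : ℝ) := by
    have := (Int.castRingHom ℝ).map_det (sylvester Q P m n)
    rw [resultant]
    exact this.symm
  have hdet1 : 1 ≤ |A.det| := by
    rw [hdet]
    exact_mod_cast Int.one_le_abs hres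
  -- column bounds
  let c : Fin (m + n) → ℝ := fun j => j.addCases (fun _ => T) (fun _ => H)
  have hcl : ∀ j, c (Fin.castAdd n j) = T := fun j => Fin.addCases_left j
  have hcr : ∀ j, c (Fin.natAdd m j) = H := fun j => Fin.addCases_right j
  have hAl : ∀ i j, A i (Fin.castAdd n j) =
      if (i : ℕ) ∈ Set.Icc (j : ℕ) (j + n) then ((P.coeff ((i : ℕ) - j) : ℤ) : ℝ) else 0 := by
    intro i j
    simp only [A, sylvester, Matrix.map_apply, Matrix.of_apply, Fin.addCases_left]
    split_ifs <;> simp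
  have hAr : ∀ i j, A i (Fin.natAdd m j) =
      if (i : ℕ) ∈ Set.Icc (j : ℕ) (j + m) then ((Q.coeff ((i : ℕ) - j) : ℤ) : ℝ) else 0 := by
    intro i j
    simp only [A, sylvester, Matrix.map_apply, Matrix.of_apply, Fin.addCases_right]
    split_ifs <;> simp
  have hAc : ∀ i j, |A i j| ≤ c j := by
    intro i j
    induction j using Fin.addCases with
    | left j =>
      rw [hAl, hcl]
      split_ifs
      · exact hPT _
      · simpa using hT0
    | right j =>
      rw [hAr, hcr]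
      split_ifs
      · exact hQH _
      · simpa using hH0
  -- the vector of powers
  let v : Fin (m + n) → ℝ := fun i => ξ ^ (i : ℕ)
  have hvl : ∀ j, Matrix.vecMul v A (Fin.castAdd n j) = ξ ^ (j : ℕ) * aeval ξ P := by
    intro j
    rw [← sum_pow_mul_shift P n (m + n) j hP (by omega) ξ]
    simp only [Matrix.vecMul, dotProduct, hAl, v]
  have hvr : ∀ j, Matrix.vecMul v A (Fin.natAdd m j) = ξ ^ (j : ℕ) * aeval ξ Q := by
    intro j
    rw [← sum_pow_mul_shift Q m (m + n) j hQ.le (by omega) ξ]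
    simp only [Matrix.vecMul, dotProduct, hAr, v]
  let z : Fin (m + n) := ⟨0, by omega⟩
  have hkey : A.det = ∑ j, Matrix.vecMul v A j * A.adjugate j z := by
    have h1 : Matrix.vecMul (Matrix.vecMul v A) A.adjugate = A.det • v := by
      rw [Matrix.vecMul_vecMul, Matrix.mul_adjugate, Matrix.vecMul_smul, Matrix.vecMul_one]
    have h2 := congrFun h1 z
    have h3 : (A.det • v) z = A.det := by simp [v, z]
    rw [h3] at h2
    rw [← h2]
    rfl
  have hadj : ∀ j, |A.adjugate j z| ≤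
      ((m + n).factorial : ℝ) * ∏ k ∈ Finset.univ.erase j, c k := by
    intro j
    rw [Matrix.adjugate_apply]
    have := abs_det_updateRow_single_le A c hAc z j
    rwa [Fintype.card_fin] at this
  have hprodall : ∏ k, c k = T ^ m * H ^ n := by
    rw [Fin.prod_univ_add]
    simp only [hcl, hcr, Finset.prod_const, Finset.card_univ, Fintype.card_fin]
  have hprodl : ∀ j, ∏ k ∈ Finset.univ.erase (Fin.castAdd n j), c k = H ^ n * T ^ (m - 1) := by
    intro j
    have h1 := Finset.mul_prod_erase Finset.univ c (Finset.mem_univ (Fin.castAdd n j))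
    rw [hprodall, hcl] at h1
    refine mul_left_cancel₀ (by positivity : T ≠ 0) ?_
    rw [h1]
    obtain ⟨k, rfl⟩ := Nat.exists_eq_add_of_le' hm
    rw [Nat.add_sub_cancel]
    ring
  have hprodr : ∀ j, ∏ k ∈ Finset.univ.erase (Fin.natAdd m j), c k = H ^ (n - 1) * T ^ m := by
    intro j
    have h1 := Finset.mul_prod_erase Finset.univ c (Finset.mem_univ (Fin.natAdd m j))
    rw [hprodall, hcr] at h1
    refine mul_left_cancel₀ (by positivity : H ≠ 0) ?_
    rw [h1]
    obtain ⟨k, hk⟩ := Nat.exists_eq_add_of_le' (by have := j.2; omega : 1 ≤ n)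
    rw [hk, Nat.add_sub_cancel]
    ring
  have hpow : ∀ j : ℕ, j ≤ m + n → |ξ| ^ j ≤ 2 ^ (m + n) := by
    intro j hj
    calc |ξ| ^ j ≤ 2 ^ j := pow_le_pow_left₀ (abs_nonneg _) hξ j
      _ ≤ 2 ^ (m + n) := pow_le_pow_right₀ (by norm_num) hj
  set S := H ^ n * T ^ (m - 1) * |aeval ξ P| + H ^ (n - 1) * T ^ m * |aeval ξ Q| with hS
  have hS1 : 0 ≤ H ^ n * T ^ (m - 1) * |aeval ξ P| := by positivity
  have hS2 : 0 ≤ H ^ (n - 1) * T ^ m * |aeval ξ Q| := by positivity
  have hterm : ∀ j, |Matrix.vecMul v A j * A.adjugate j z| ≤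
      2 ^ (m + n) * ((m + n).factorial : ℝ) * S := by
    intro j
    rw [abs_mul]
    induction j using Fin.addCases with
    | left j =>
      rw [hvl, abs_mul, abs_pow]
      calc |ξ| ^ (j : ℕ) * |aeval ξ P| * |A.adjugate (Fin.castAdd n j) z|
          ≤ 2 ^ (m + n) * |aeval ξ P| * (((m + n).factorial : ℝ) * (H ^ n * T ^ (m - 1))) := by
            have h1 := hadj (Fin.castAdd n j)
            rw [hprodl] at h1
            have h2 := hpow j (by omega)
            gcongr
        _ = 2 ^ (m + n) * ((m + n).factorial : ℝ) * (H ^ n * T ^ (m - 1) * |aeval ξ P|) := by ring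
        _ ≤ 2 ^ (m + n) * ((m + n).factorial : ℝ) * S := by
            gcongr
            linarith
    | right j =>
      rw [hvr, abs_mul, abs_pow]
      calc |ξ| ^ (j : ℕ) * |aeval ξ Q| * |A.adjugate (Fin.natAdd m j) z|
          ≤ 2 ^ (m + n) * |aeval ξ Q| * (((m + n).factorial : ℝ) * (H ^ (n - 1) * T ^ m)) := by
            have h1 := hadj (Fin.natAdd m j)
            rw [hprodr] at h1
            have h2 := hpow j (by omega)
            gcongr
        _ = 2 ^ (m + n) * ((m + n).factorial : ℝ) * (H ^ (n - 1) * T ^ m * |aeval ξ Q|) := by ring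
        _ ≤ 2 ^ (m + n) * ((m + n).factorial : ℝ) * S := by
            gcongr
            linarith
  calc (1 : ℝ) ≤ |A.det| := hdet1
    _ = |∑ j, Matrix.vecMul v A j * A.adjugate j z| := by rw [← hkey]
    _ ≤ ∑ j, |Matrix.vecMul v A j * A.adjugate j z| := Finset.abs_sum_le_sum_abs _ _
    _ ≤ ∑ _j : Fin (m + n), 2 ^ (m + n) * ((m + n).factorial : ℝ) * S :=
        Finset.sum_le_sum fun j _ => hterm j
    _ = _ := by
      rw [Finset.sum_const, Finset.card_univ, Fintype.card_fin, nsmul_eq_mul]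
      ring

/-- Step A'. Liouville inequality. -/
theorem liouville (m n : ℕ) : ∃ C : ℝ, 1 ≤ C ∧
    ∀ (Q P : ℤ[X]) (H T : ℝ), Irreducible Q → Q.natDegree = m → P.natDegree ≤ n →
      1 ≤ H → 1 ≤ T →
      (∀ i, |(Q.coeff i : ℝ)| ≤ H) → (∀ i, |(P.coeff i : ℝ)| ≤ T) →
      ∀ β : ℝ, |β| ≤ 2 → aeval β Q = 0 → aeval β P ≠ 0 →
        1 ≤ C * H ^ n * T ^ (m - 1) * |aeval β P| := by
  rcases Nat.eq_zero_or_pos m with rfl | hm
  · refine ⟨1, le_rfl, ?_⟩
    intro Q P H T hQ hQd _ _ _ _ _ β _ hβ _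
    exfalso
    rw [eq_C_of_natDegree_eq_zero hQd, aeval_C] at hβ
    have h1 : Q.coeff 0 = 0 := by
      have : ((Q.coeff 0 : ℤ) : ℝ) = 0 := hβ
      exact_mod_cast this
    apply hQ.ne_zero
    rw [eq_C_of_natDegree_eq_zero hQd, h1, C_0]
  · obtain ⟨C, hC, h⟩ := sylvester_bound m n hm
    refine ⟨C, hC, ?_⟩
    intro Q P H T hQ hQd hPd hH hT hQH hPT β hβ hβQ hβP
    have hprim : Q.IsPrimitive := hQ.isPrimitive (by omega)
    have hirr : Irreducible (Q.map (Int.castRingHom ℚ)) :=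
      (IsPrimitive.Int.irreducible_iff_irreducible_map_cast hprim).mp hQ
    have hcop : IsCoprime (Q.map (Int.castRingHom ℚ)) (P.map (Int.castRingHom ℚ)) := by
      refine (hirr.coprime_iff_not_dvd).mpr ?_
      rintro ⟨R, hR⟩
      apply hβP
      have h1 : aeval β (P.map (Int.castRingHom ℚ)) = aeval β P := aeval_map_algebraMap ℚ β P
      have h2 : aeval β (Q.map (Int.castRingHom ℚ)) = aeval β Q := aeval_map_algebraMap ℚ β Q
      rw [← h1, hR, map_mul, h2, hβQ, zero_mul]
    have h1 := h Q P H T hQd hPd hH hT hQH hPT hcop β hβ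
    rw [hβQ, abs_zero, mul_zero, add_zero] at h1
    calc (1 : ℝ) ≤ _ := h1
      _ = _ := by ring

end Pool.Agent.MP_ac14a7_nt
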