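import Mathlib
import Pool.Agent.MP_ac14a7_nt.KilledDef
import Pool.Agent.MP_ac14a7_nt.Liouville
import Pool.Agent.MP_ac14a7_nt.Basic
import Pool.Agent.MP_ac14a7_nt.Factor

/-!
Killed integers: the vanishing lemma and the extension lemma.
-/

open Polynomial Finset

namespace Pool.Agent.MP_ac14a7_nt

/-- Data attached to a set of killed integers. -/
structure Setup (N m E w q : ℕ) (K : Finset ℕ) where
  x : ℕ → ℝ
  β : ℕ → ℝ
  H : ℕ → ℝ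
  Q : ℕ → ℤ[X]
  x_ge : ∀ s ∈ K, 1 / 2 ≤ x s
  x_le : ∀ s ∈ K, x s ≤ 1
  x_pow : ∀ s ∈ K, (q : ℝ) ^ E * x s ^ N = s
  irr : ∀ s ∈ K, Irreducible (Q s)
  deg : ∀ s ∈ K, (Q s).natDegree = m
  H_ge : ∀ s ∈ K, 1 ≤ H s
  coeff_le : ∀ s ∈ K, ∀ i, |((Q s).coeff i : ℝ)| ≤ H s
  H_le : ∀ s ∈ K, H s ^ m ≤ (q : ℝ) ^ (2 * w)
  root : ∀ s ∈ K, aeval (β s) (Q s) = 0
  ne : ∀ s ∈ K, β s ≠ x s
  close : ∀ s ∈ K, |x s - β s| * (q : ℝ) ^ (20 * w) ≤ 1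

theorem exists_setup (N m E w q : ℕ) (K : Finset ℕ)
    (h : ∀ s ∈ K, Killed N m ((q : ℝ) ^ E) ((q : ℝ) ^ (2 * w)) ((q : ℝ) ^ (20 * w)) s) :
    Nonempty (Setup N m E w q K) := by
  classical
  have h' : ∀ s : ℕ, ∃ (x β H : ℝ) (Q : ℤ[X]), s ∈ K → (1 / 2 ≤ x ∧ x ≤ 1 ∧
      (q : ℝ) ^ E * x ^ N = s ∧ Irreducible Q ∧ Q.natDegree = m ∧ 1 ≤ H ∧
      (∀ i, |(Q.coeff i : ℝ)| ≤ H) ∧ H ^ m ≤ (q : ℝ) ^ (2 * w) ∧ aeval β Q = 0 ∧
      β ≠ x ∧ |x - β| * (q : ℝ) ^ (20 * w) ≤ 1) := by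
    intro s
    by_cases hs : s ∈ K
    · obtain ⟨x, β, H, Q, h⟩ := h s hs
      exact ⟨x, β, H, Q, fun _ => h⟩
    · exact ⟨0, 0, 0, 0, fun h => absurd h hs⟩
  choose x β H Q hh using h'
  exact ⟨⟨x, β, H, Q, fun s hs => (hh s hs).1, fun s hs => (hh s hs).2.1,
    fun s hs => (hh s hs).2.2.1, fun s hs => (hh s hs).2.2.2.1,
    fun s hs => (hh s hs).2.2.2.2.1, fun s hs => (hh s hs).2.2.2.2.2.1,
    fun s hs => (hh s hs).2.2.2.2.2.2.1, fun s hs => (hh s hs).2.2.2.2.2.2.2.1,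
    fun s hs => (hh s hs).2.2.2.2.2.2.2.2.1, fun s hs => (hh s hs).2.2.2.2.2.2.2.2.2.1,
    fun s hs => (hh s hs).2.2.2.2.2.2.2.2.2.2⟩⟩

/-- Values of a polynomial at two nearby points. -/
theorem abs_aeval_sub_le (d : ℕ) (P : ℤ[X]) (hP : P.natDegree ≤ d) (T x y : ℝ)
    (hT : ∀ i, |(P.coeff i : ℝ)| ≤ T) (hx : |x| ≤ 2) (hy : |y| ≤ 2) :
    |aeval x P - aeval y P| ≤ ((d + 1) * (d * 2 ^ d)) * T * |x - y| := by
  have hT0 : 0 ≤ T := le_trans (abs_nonneg _) (hT 0)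
  have h1 : ∀ z : ℝ, aeval z P = ∑ i ∈ range (d + 1), (P.coeff i : ℝ) * z ^ i := by
    intro z
    rw [aeval_eq_sum_range' (Nat.lt_succ_of_le hP)]
    apply sum_congr rfl
    intro i _
    simp
  rw [h1, h1, ← sum_sub_distrib]
  calc |∑ i ∈ range (d + 1), ((P.coeff i : ℝ) * x ^ i - (P.coeff i : ℝ) * y ^ i)|
      ≤ ∑ i ∈ range (d + 1), |(P.coeff i : ℝ) * x ^ i - (P.coeff i : ℝ) * y ^ i| :=
        abs_sum_le_sum_abs _ _
    _ ≤ ∑ _i ∈ range (d + 1), T * ((d * 2 ^ d) * |x - y|) := by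
        apply sum_le_sum
        intro i hi
        have hid : i ≤ d := Nat.lt_succ_iff.mp (mem_range.mp hi)
        rw [← mul_sub, abs_mul]
        apply mul_le_mul (hT i) _ (abs_nonneg _) hT0
        have h2 : x ^ i - y ^ i = (x - y) * ∑ j ∈ range i, x ^ j * y ^ (i - 1 - j) := by
          rw [mul_comm]; exact (Commute.all x y).geom_sum₂_mul i |>.symm
        rw [h2, abs_mul, mul_comm]
        apply mul_le_mul_of_nonneg_right _ (abs_nonneg _)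
        calc |∑ j ∈ range i, x ^ j * y ^ (i - 1 - j)|
            ≤ ∑ j ∈ range i, |x ^ j * y ^ (i - 1 - j)| := abs_sum_le_sum_abs _ _
          _ ≤ ∑ _j ∈ range i, (2 : ℝ) ^ d := by
              apply sum_le_sum
              intro j hj
              have hji := mem_range.mp hj
              rw [abs_mul, abs_pow, abs_pow]
              calc |x| ^ j * |y| ^ (i - 1 - j) ≤ 2 ^ j * 2 ^ (i - 1 - j) := by gcongr
                _ = 2 ^ (i - 1) := by rw [← pow_add]; congr 1; omega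
                _ ≤ 2 ^ d := pow_le_pow_right₀ (by norm_num) (by omega)
          _ = i * 2 ^ d := by rw [sum_const, card_range, nsmul_eq_mul]
          _ ≤ d * 2 ^ d := by gcongr
    _ = ((d + 1) * (d * 2 ^ d)) * T * |x - y| := by
        rw [sum_const, card_range, nsmul_eq_mul]
        push_cast
        ring

/-- Bound for the coefficients of the specialization at `s`. -/
def NB (F : ℤ[X][X]) (T : ℝ) (s : ℕ) : Prop :=
  ∀ j, |(((spec (s : ℤ) F).coeff j : ℤ) : ℝ)| ≤ T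

theorem ev_nat (s : ℕ) (x : ℝ) (F : ℤ[X][X]) : ev (s : ℝ) x F = aeval x (spec (s : ℤ) F) := by
  have := ev_eq_spec (s : ℤ) x F
  rwa [Int.cast_natCast] at this

variable {N m E w q : ℕ} {K : Finset ℕ}

theorem Setup.diff_le (D : Setup N m E w q K) (hq : 1 ≤ q) (s : ℕ) (hs : s ∈ K) :
    |D.x s - D.β s| ≤ 1 / (q : ℝ) ^ (20 * w) := by
  have hq' : (0 : ℝ) < (q : ℝ) ^ (20 * w) := by positivity
  rw [le_div_iff₀ hq']
  exact D.close s hs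

theorem Setup.abs_x_le (D : Setup N m E w q K) (s : ℕ) (hs : s ∈ K) : |D.x s| ≤ 1 := by
  rw [abs_of_nonneg (by linarith [D.x_ge s hs])]
  exact D.x_le s hs

theorem Setup.abs_β_le (D : Setup N m E w q K) (hq : 1 ≤ q) (s : ℕ) (hs : s ∈ K) :
    |D.β s| ≤ 2 := by
  have h1 := D.diff_le hq s hs
  have h2 : 1 / (q : ℝ) ^ (20 * w) ≤ 1 := by
    rw [div_le_one (by positivity)]
    exact one_le_pow₀ (by exact_mod_cast hq)
  have h3 := D.abs_x_le s hs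
  have h4 : |D.β s| ≤ |D.x s| + |D.x s - D.β s| := by
    have := abs_sub_abs_le_abs_sub (D.β s) (D.x s)
    rw [abs_sub_comm] at this
    linarith
  linarith

/-- The vanishing lemma. -/
theorem vanish (m : ℕ) : ∃ C : ℝ, 1 ≤ C ∧ ∀ (N E w q : ℕ) (K : Finset ℕ)
    (D : Setup N m E w q K), 1 ≤ q → ∀ s ∈ K, ∀ (F : ℤ[X][X]) (T ε : ℝ),
    F.natDegree ≤ 2 * m → 1 ≤ T → NB F T s → |ev s (D.x s) F| ≤ ε →
    C * (q : ℝ) ^ (4 * w) * T ^ (m - 1) * (ε + T / (q : ℝ) ^ (20 * w)) < 1 →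
    ev s (D.β s) F = 0 := by
  obtain ⟨C₀, hC₀, hL⟩ := liouville m (2 * m)
  set C₁ : ℝ := ((2 * m : ℕ) + 1) * ((2 * m : ℕ) * 2 ^ (2 * m)) + 1 with hC₁
  have hC₁1 : 1 ≤ C₁ := by
    rw [hC₁]
    have : (0 : ℝ) ≤ ((2 * m : ℕ) + 1) * ((2 * m : ℕ) * 2 ^ (2 * m)) := by positivity
    linarith
  refine ⟨C₀ * C₁, one_le_mul_of_one_le_of_one_le hC₀ hC₁1, ?_⟩
  intro N E w q K D hq s hs F T ε hF hT hNB hε hlt
  by_contra hne
  rw [ev_nat] at hne hε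
  have hdeg : (spec (s : ℤ) F).natDegree ≤ 2 * m := le_trans (natDegree_spec_le _ _) hF
  have h1 := hL (D.Q s) (spec (s : ℤ) F) (D.H s) T (D.irr s hs) (D.deg s hs) hdeg
    (D.H_ge s hs) hT (D.coeff_le s hs) hNB (D.β s) (D.abs_β_le hq s hs) (D.root s hs) hne
  have h2 := abs_aeval_sub_le (2 * m) (spec (s : ℤ) F) hdeg T (D.β s) (D.x s) hNB
    (D.abs_β_le hq s hs) (le_trans (D.abs_x_le s hs) (by norm_num))
  have hq' : (0 : ℝ) < (q : ℝ) ^ (20 * w) := by positivity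
  have h3 : |aeval (D.β s) (spec (s : ℤ) F)| ≤ C₁ * (ε + T / (q : ℝ) ^ (20 * w)) := by
    have h4 : |aeval (D.β s) (spec (s : ℤ) F)| ≤ |aeval (D.x s) (spec (s : ℤ) F)| +
        |aeval (D.β s) (spec (s : ℤ) F) - aeval (D.x s) (spec (s : ℤ) F)| := by
      have := abs_sub_abs_le_abs_sub (aeval (D.β s) (spec (s : ℤ) F))
        (aeval (D.x s) (spec (s : ℤ) F))
      linarith
    have h5 : |D.β s - D.x s| ≤ 1 / (q : ℝ) ^ (20 * w) := by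
      rw [abs_sub_comm]
      exact D.diff_le hq s hs
    have hε0 : 0 ≤ ε := le_trans (abs_nonneg _) hε
    calc |aeval (D.β s) (spec (s : ℤ) F)|
        ≤ ε + ((2 * m : ℕ) + 1) * ((2 * m : ℕ) * 2 ^ (2 * m)) * T * |D.β s - D.x s| := by
          linarith
      _ ≤ ε + C₁ * T * (1 / (q : ℝ) ^ (20 * w)) := by
          have : ((2 * m : ℕ) + 1) * ((2 * m : ℕ) * 2 ^ (2 * m)) ≤ C₁ := by
            rw [hC₁]; linarith
          gcongr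
      _ ≤ C₁ * ε + C₁ * T * (1 / (q : ℝ) ^ (20 * w)) := by
          have : ε ≤ C₁ * ε := le_mul_of_one_le_left hε0 hC₁1
          linarith
      _ = C₁ * (ε + T / (q : ℝ) ^ (20 * w)) := by ring
  have h6 : D.H s ^ (2 * m) ≤ (q : ℝ) ^ (4 * w) := by
    calc D.H s ^ (2 * m) = (D.H s ^ m) ^ 2 := by rw [← pow_mul]; ring_nf
      _ ≤ ((q : ℝ) ^ (2 * w)) ^ 2 := by
          have := D.H_ge s hs
          exact pow_le_pow_left₀ (by positivity) (D.H_le s hs) 2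
      _ = (q : ℝ) ^ (4 * w) := by rw [← pow_mul]; ring_nf
  have hH := D.H_ge s hs
  have h7 : C₀ * D.H s ^ (2 * m) * T ^ (m - 1) * |aeval (D.β s) (spec (s : ℤ) F)| ≤
      C₀ * (q : ℝ) ^ (4 * w) * T ^ (m - 1) * (C₁ * (ε + T / (q : ℝ) ^ (20 * w))) := by
    gcongr
  have h8 : C₀ * (q : ℝ) ^ (4 * w) * T ^ (m - 1) * (C₁ * (ε + T / (q : ℝ) ^ (20 * w))) =
      C₀ * C₁ * (q : ℝ) ^ (4 * w) * T ^ (m - 1) * (ε + T / (q : ℝ) ^ (20 * w)) := by ring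
  linarith

/-- If the polynomial vanishes at the algebraic point, then it is small at the nearby point. -/
theorem small_of_zero (m : ℕ) : ∃ C : ℝ, 1 ≤ C ∧ ∀ (N E w q : ℕ) (K : Finset ℕ)
    (D : Setup N m E w q K), 1 ≤ q → ∀ s ∈ K, ∀ (F : ℤ[X][X]) (T : ℝ),
    F.natDegree ≤ 2 * m → NB F T s → ev s (D.β s) F = 0 →
    |ev s (D.x s) F| ≤ C * T / (q : ℝ) ^ (20 * w) := by
  set C₁ : ℝ := ((2 * m : ℕ) + 1) * ((2 * m : ℕ) * 2 ^ (2 * m)) + 1 with hC₁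
  have hC₁1 : 1 ≤ C₁ := by
    rw [hC₁]
    have : (0 : ℝ) ≤ ((2 * m : ℕ) + 1) * ((2 * m : ℕ) * 2 ^ (2 * m)) := by positivity
    linarith
  refine ⟨C₁, hC₁1, ?_⟩
  intro N E w q K D hq s hs F T hF hNB h0
  rw [ev_nat] at h0 ⊢
  have hT0 : 0 ≤ T := le_trans (abs_nonneg _) (hNB 0)
  have hdeg : (spec (s : ℤ) F).natDegree ≤ 2 * m := le_trans (natDegree_spec_le _ _) hF
  have h2 := abs_aeval_sub_le (2 * m) (spec (s : ℤ) F) hdeg T (D.x s) (D.β s) hNB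
    (le_trans (D.abs_x_le s hs) (by norm_num)) (D.abs_β_le hq s hs)
  rw [h0, sub_zero] at h2
  have h5 := D.diff_le hq s hs
  have : ((2 * m : ℕ) + 1) * ((2 * m : ℕ) * 2 ^ (2 * m)) ≤ C₁ := by
    rw [hC₁]; linarith
  calc |aeval (D.x s) (spec (s : ℤ) F)|
      ≤ ((2 * m : ℕ) + 1) * ((2 * m : ℕ) * 2 ^ (2 * m)) * T * |D.x s - D.β s| := h2
    _ ≤ C₁ * T * (1 / (q : ℝ) ^ (20 * w)) := by gcongr
    _ = C₁ * T / (q : ℝ) ^ (20 * w) := by ring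

/-- Interpolation in the inner variable. -/
theorem NB_of_nodes (F : ℤ[X][X]) (a : ℕ) (ha : SDeg F a) (T g R : ℝ) (hg : 0 < g)
    (e : Fin (a + 1) → ℕ) (he : ∀ i j, i ≠ j → g ≤ |(e i : ℝ) - (e j : ℝ)|)
    (hNB : ∀ i, NB F T (e i)) (s : ℕ) (hR : ∀ i, |(s : ℝ) - (e i : ℝ)| ≤ R) :
    NB F ((a + 1) * T * (R / g) ^ a) s := by
  intro j
  rw [spec_coeff]
  have h1 : ∀ t : ℕ, (((F.coeff j).eval (t : ℤ) : ℤ) : ℝ) =
      ((F.coeff j).map (Int.castRingHom ℝ)).eval (t : ℝ) := by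
    intro t
    rw [eval_map, ← Int.cast_natCast (R := ℝ) t, ← eq_intCast (Int.castRingHom ℝ) (t : ℤ),
      eval₂_at_apply]
    simp
  rw [h1]
  apply lagrange_bound a _ (le_trans natDegree_map_le (ha j)) (fun i => (e i : ℝ)) g R T _ hg he hR
  intro i
  rw [← h1, ← spec_coeff]
  exact hNB i j

/-- Interpolation along the curve. -/
theorem ev_le_of_nodes (D : Setup N m E w q K) (hN : 1 ≤ N) (hq : 1 ≤ q) (F : ℤ[X][X])
    (a d : ℕ) (ha : SDeg F a) (hd : F.natDegree ≤ d) (ε g R : ℝ) (hg : 0 < g)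
    (e : Fin (a * N + d + 1) → ℕ) (heK : ∀ i, e i ∈ K)
    (he : ∀ i j, i ≠ j → g ≤ |(e i : ℝ) - (e j : ℝ)|)
    (hε : ∀ i, |ev (e i) (D.x (e i)) F| ≤ ε) (s : ℕ) (hs : s ∈ K)
    (hR : ∀ i, |(s : ℝ) - (e i : ℝ)| ≤ R) :
    |ev s (D.x s) F| ≤ ((a * N + d : ℕ) + 1) * ε * (2 ^ N * N * (R / g)) ^ (a * N + d) := by
  have hp : (0 : ℝ) < (q : ℝ) ^ E := by positivity
  have hN' : (0 : ℝ) < N := by exact_mod_cast hN
  have h1 : ∀ t ∈ K, ev t (D.x t) F =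
      ((psi ((q : ℤ) ^ E) N F).map (Int.castRingHom ℝ)).eval (D.x t) := by
    intro t ht
    have h2 := ev_eq_psi ((q : ℤ) ^ E) N (D.x t) F
    have h3 : (((q : ℤ) ^ E : ℤ) : ℝ) * (D.x t) ^ N = t := by
      push_cast
      exact D.x_pow t ht
    rw [h3] at h2
    rw [h2, eval_map]
    rfl
  rw [h1 s hs]
  have h2 : 2 ^ N * N * (R / g) = (2 ^ N * R / (q : ℝ) ^ E) / (g / ((q : ℝ) ^ E * N)) := by
    field_simp
  rw [h2]
  apply lagrange_bound _ _ (le_trans natDegree_map_le (psi_natDegree _ N F a d ha hd))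
    (fun i => D.x (e i)) _ _ ε _ (by positivity)
  · intro i j hij
    rw [div_le_iff₀ (by positivity)]
    calc g ≤ |(e i : ℝ) - (e j : ℝ)| := he i j hij
      _ ≤ (q : ℝ) ^ E * N * |D.x (e i) - D.x (e j)| := by
          apply abs_sub_le_of_pow N _ _ _ _ _ hp.le _ (D.x_le _ (heK i)) _ (D.x_le _ (heK j))
            (D.x_pow _ (heK i)) (D.x_pow _ (heK j))
          · linarith [D.x_ge _ (heK i)]
          · linarith [D.x_ge _ (heK j)]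
      _ = |D.x (e i) - D.x (e j)| * ((q : ℝ) ^ E * N) := by ring
  · intro i
    calc |D.x s - D.x (e i)| ≤ 2 ^ N * |(s : ℝ) - (e i : ℝ)| / (q : ℝ) ^ E :=
          abs_sub_le_of_root N hN _ _ _ _ _ hp (D.x_ge s hs) (D.x_ge _ (heK i))
            (D.x_pow s hs) (D.x_pow _ (heK i))
      _ ≤ 2 ^ N * R / (q : ℝ) ^ E := by
          have := hR i
          gcongr
  · intro i
    rw [← h1 _ (heK i)]
    exact hε i

/-- The extension lemma. -/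
theorem extend (N m a : ℕ) (hN : 1 ≤ N) (hm : 1 ≤ m) : ∃ C : ℝ, 1 ≤ C ∧
    ∀ (E w q : ℕ) (K : Finset ℕ) (D : Setup N m E w q K), 1 ≤ q → ∀ (F : ℤ[X][X])
    (T T' g R : ℝ), SDeg F a → F.natDegree ≤ 2 * m → 1 ≤ T → T ≤ T' → 0 < g → g ≤ R →
    ∀ (e : Fin (a * N + 2 * m + 1) → ℕ), (∀ i, e i ∈ K) →
    (∀ i j, i ≠ j → g ≤ |(e i : ℝ) - (e j : ℝ)|) → (∀ i, NB F T (e i)) →
    (∀ i, ev (e i) (D.β (e i)) F = 0) → ∀ s ∈ K, (∀ i, |(s : ℝ) - (e i : ℝ)| ≤ R) →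
    NB F T' s →
    C * (q : ℝ) ^ (4 * w) * T' ^ m * (R / g) ^ (a * N + 2 * m) < (q : ℝ) ^ (20 * w) →
    ev s (D.β s) F = 0 := by
  obtain ⟨C₁, hC₁, hV⟩ := vanish m
  obtain ⟨C₂, hC₂, hZ⟩ := small_of_zero m
  set Λ : ℕ := a * N + 2 * m with hΛ
  set C₃ : ℝ := (Λ + 1) * C₂ * (2 ^ N * N) ^ Λ + 1 with hC₃
  have hC₃1 : 1 ≤ C₃ := by
    have : (0 : ℝ) ≤ (Λ + 1) * C₂ * (2 ^ N * N) ^ Λ := by positivity
    linarith
  refine ⟨C₁ * C₃, one_le_mul_of_one_le_of_one_le hC₁ hC₃1, ?_⟩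
  intro E w q K D hq F T T' g R ha hd hT hTT' hg hgR e heK he hNB h0 s hs hR hNB' hlt
  have hq20 : (0 : ℝ) < (q : ℝ) ^ (20 * w) := by positivity
  have hratio : 1 ≤ R / g := by rwa [le_div_iff₀ hg, one_mul]
  have h1 : ∀ i, |ev (e i) (D.x (e i)) F| ≤ C₂ * T / (q : ℝ) ^ (20 * w) := fun i =>
    hZ N E w q K D hq (e i) (heK i) F T hd (hNB i) (h0 i)
  have h2 := ev_le_of_nodes D hN hq F a (2 * m) ha hd _ g R hg e heK he h1 s hs hR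
  apply hV N E w q K D hq s hs F T' _ hd (le_trans hT hTT') hNB' h2
  rw [← hΛ]
  have h3 : ((Λ : ℕ) + 1 : ℝ) * (C₂ * T / (q : ℝ) ^ (20 * w)) * (2 ^ N * N * (R / g)) ^ Λ +
      T' / (q : ℝ) ^ (20 * w) ≤ C₃ * T' * (R / g) ^ Λ / (q : ℝ) ^ (20 * w) := by
    rw [mul_pow (2 ^ N * (N : ℝ)) (R / g) Λ]
    have h4 : (1 : ℝ) ≤ (R / g) ^ Λ := one_le_pow₀ hratio
    calc ((Λ : ℕ) + 1 : ℝ) * (C₂ * T / (q : ℝ) ^ (20 * w)) * ((2 ^ N * N) ^ Λ * (R / g) ^ Λ) +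
        T' / (q : ℝ) ^ (20 * w)
        ≤ ((Λ : ℕ) + 1 : ℝ) * (C₂ * T' / (q : ℝ) ^ (20 * w)) * ((2 ^ N * N) ^ Λ * (R / g) ^ Λ) +
          T' * (R / g) ^ Λ / (q : ℝ) ^ (20 * w) := by
          have h5 : T' ≤ T' * (R / g) ^ Λ := le_mul_of_one_le_right (by linarith) h4
          gcongr
      _ = C₃ * T' * (R / g) ^ Λ / (q : ℝ) ^ (20 * w) := by
          rw [hC₃]
          ring
  have hT'0 : (0 : ℝ) < T' := by linarith
  calc C₁ * (q : ℝ) ^ (4 * w) * T' ^ (m - 1) *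
        (((Λ : ℕ) + 1 : ℝ) * (C₂ * T / (q : ℝ) ^ (20 * w)) * (2 ^ N * N * (R / g)) ^ Λ +
      T' / (q : ℝ) ^ (20 * w))
      ≤ C₁ * (q : ℝ) ^ (4 * w) * T' ^ (m - 1) * (C₃ * T' * (R / g) ^ Λ / (q : ℝ) ^ (20 * w)) := by
        gcongr
    _ = (C₁ * C₃ * (q : ℝ) ^ (4 * w) * T' ^ m * (R / g) ^ Λ) / (q : ℝ) ^ (20 * w) := by
        have : T' ^ m = T' ^ (m - 1) * T' := by
          rw [← pow_succ]
          congr 1
          omega
        rw [this]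
        ring
    _ < 1 := by
        rw [div_lt_one hq20]
        exact hlt

end Pool.Agent.MP_ac14a7_nt
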