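import Mathlib
import Pool.Agent.MP_ac14a7_nt.Vanish
import Pool.Agent.MP_ac14a7_nt.LOne

/-!
The auxiliary polynomial on a short window.
-/

open Polynomial Finset

namespace Pool.Agent.MP_ac14a7_nt

/-- The auxiliary polynomial with coefficients `t`, centred at `s₁`. -/
noncomputable def auxF (a d : ℕ) (s₁ : ℤ) (t : Fin (a + 1) × Fin (d + 1) → ℤ) : ℤ[X][X] :=
  ∑ j : Fin (d + 1), monomial (j : ℕ) (taylor (-s₁) (∑ l : Fin (a + 1), monomial (l : ℕ) (t (l, j))))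

theorem auxF_coeff (a d : ℕ) (s₁ : ℤ) (t : Fin (a + 1) × Fin (d + 1) → ℤ) (j : Fin (d + 1)) :
    (auxF a d s₁ t).coeff (j : ℕ) =
      taylor (-s₁) (∑ l : Fin (a + 1), monomial (l : ℕ) (t (l, j))) := by
  rw [auxF, finsetSum_coeff, sum_eq_single j]
  · rw [coeff_monomial, if_pos rfl]
  · intro i _ hij
    rw [coeff_monomial, if_neg]
    intro h
    exact hij (Fin.ext h)
  · intro h
    exact absurd (mem_univ _) h

theorem auxF_coeff_large (a d : ℕ) (s₁ : ℤ) (t : Fin (a + 1) × Fin (d + 1) → ℤ) (j : ℕ)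
    (hj : d < j) : (auxF a d s₁ t).coeff j = 0 := by
  rw [auxF, finsetSum_coeff]
  apply sum_eq_zero
  intro i _
  rw [coeff_monomial, if_neg]
  have := i.isLt
  omega

theorem auxF_natDegree (a d : ℕ) (s₁ : ℤ) (t : Fin (a + 1) × Fin (d + 1) → ℤ) :
    (auxF a d s₁ t).natDegree ≤ d := by
  rw [natDegree_le_iff_coeff_eq_zero]
  intro j hj
  exact auxF_coeff_large a d s₁ t j hj

theorem auxF_sdeg (a d : ℕ) (s₁ : ℤ) (t : Fin (a + 1) × Fin (d + 1) → ℤ) :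
    SDeg (auxF a d s₁ t) a := by
  intro j
  rcases Nat.lt_or_ge d j with h | h
  · rw [auxF_coeff_large a d s₁ t j h]
    simp
  · have h1 := auxF_coeff a d s₁ t ⟨j, Nat.lt_succ_of_le h⟩
    simp only at h1
    rw [h1, natDegree_taylor]
    apply natDegree_sum_le_of_forall_le
    intro l _
    exact le_trans (natDegree_monomial_le _) (Nat.lt_succ_iff.mp l.isLt)

theorem auxF_ne_zero (a d : ℕ) (s₁ : ℤ) (t : Fin (a + 1) × Fin (d + 1) → ℤ) (ht : t ≠ 0) :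
    auxF a d s₁ t ≠ 0 := by
  intro h
  apply ht
  funext ⟨l, j⟩
  have h1 := auxF_coeff a d s₁ t j
  rw [h, coeff_zero] at h1
  have h2 : (∑ l : Fin (a + 1), monomial (l : ℕ) (t (l, j)) : ℤ[X]) = 0 :=
    (taylor_eq_zero _ _).mp h1.symm
  have h3 : (∑ l : Fin (a + 1), monomial (l : ℕ) (t (l, j)) : ℤ[X]).coeff (l : ℕ) = t (l, j) := by
    rw [finsetSum_coeff, sum_eq_single l]
    · rw [coeff_monomial, if_pos rfl]
    · intro i _ hij
      rw [coeff_monomial, if_neg]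
      intro h
      exact hij (Fin.ext h)
    · intro h
      exact absurd (mem_univ _) h
  rw [h2, coeff_zero] at h3
  exact h3.symm

theorem auxF_spec_coeff (a d : ℕ) (s₁ : ℤ) (t : Fin (a + 1) × Fin (d + 1) → ℤ) (s : ℤ)
    (j : Fin (d + 1)) : (spec s (auxF a d s₁ t)).coeff (j : ℕ) =
      ∑ l : Fin (a + 1), t (l, j) * (s - s₁) ^ (l : ℕ) := by
  rw [spec_coeff, auxF_coeff, taylor_eval, eval_finsetSum]
  simp [sub_eq_add_neg]

theorem auxF_NB (a d : ℕ) (s₁ s : ℕ) (t : Fin (a + 1) × Fin (d + 1) → ℤ) (U R : ℝ)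
    (hU : ∀ i, |(t i : ℝ)| ≤ U) (hR : 1 ≤ R) (hs : |(s : ℝ) - (s₁ : ℝ)| ≤ R) :
    NB (auxF a d s₁ t) ((a + 1) * R ^ a * U) s := by
  have hU0 : 0 ≤ U := le_trans (abs_nonneg _) (hU (0, 0))
  intro j
  rcases Nat.lt_or_ge d j with h | h
  · rw [spec_coeff, auxF_coeff_large a d s₁ t j h]
    simp only [eval_zero, Int.cast_zero, abs_zero]
    positivity
  · have h1 := auxF_spec_coeff a d s₁ t s ⟨j, Nat.lt_succ_of_le h⟩
    simp only at h1
    rw [h1]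
    push_cast
    calc |∑ l : Fin (a + 1), (t (l, ⟨j, _⟩) : ℝ) * ((s : ℝ) - s₁) ^ (l : ℕ)|
        ≤ ∑ l : Fin (a + 1), |(t (l, ⟨j, Nat.lt_succ_of_le h⟩) : ℝ) * ((s : ℝ) - s₁) ^ (l : ℕ)| :=
          abs_sum_le_sum_abs _ _
      _ ≤ ∑ _l : Fin (a + 1), U * R ^ a := by
          apply sum_le_sum
          intro l _
          rw [abs_mul, abs_pow]
          apply mul_le_mul (hU _) _ (by positivity) hU0
          calc |(s : ℝ) - s₁| ^ (l : ℕ) ≤ R ^ (l : ℕ) := pow_le_pow_left₀ (abs_nonneg _) hs _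
            _ ≤ R ^ a := pow_le_pow_right₀ hR (Nat.lt_succ_iff.mp l.isLt)
      _ = (a + 1) * R ^ a * U := by
          rw [sum_const, card_univ, Fintype.card_fin, nsmul_eq_mul]
          push_cast
          ring

theorem auxF_ev (a d : ℕ) (s₁ s : ℕ) (t : Fin (a + 1) × Fin (d + 1) → ℤ) (x : ℝ) :
    ev s x (auxF a d s₁ t) =
      ∑ i : Fin (a + 1) × Fin (d + 1), ((s : ℝ) - s₁) ^ (i.1 : ℕ) * x ^ (i.2 : ℕ) * t i := by
  rw [ev_nat, aeval_eq_sum_range' (Nat.lt_succ_of_le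
    (le_trans (natDegree_spec_le _ _) (auxF_natDegree a d s₁ t))), Fintype.sum_prod_type_right,
    sum_range]
  apply sum_congr rfl
  intro j _
  rw [auxF_spec_coeff, Algebra.smul_def, eq_intCast (algebraMap ℤ ℝ)]
  push_cast
  rw [sum_mul]
  apply sum_congr rfl
  intro l _
  ring

/-- The restriction of the auxiliary polynomial to the curve, as a polynomial in the increment. -/
noncomputable def auxG (a d N : ℕ) (p x₁ : ℝ) (t : Fin (a + 1) × Fin (d + 1) → ℤ) : ℝ[X] :=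
  ∑ i : Fin (a + 1) × Fin (d + 1),
    C (t i : ℝ) * ((C p * ((C x₁ + X) ^ N - C x₁ ^ N)) ^ (i.1 : ℕ) * (C x₁ + X) ^ (i.2 : ℕ))

theorem auxG_eval (a d N : ℕ) (p x₁ h : ℝ) (t : Fin (a + 1) × Fin (d + 1) → ℤ) :
    (auxG a d N p x₁ t).eval h = ∑ i : Fin (a + 1) × Fin (d + 1),
      (p * ((x₁ + h) ^ N - x₁ ^ N)) ^ (i.1 : ℕ) * (x₁ + h) ^ (i.2 : ℕ) * t i := by
  rw [auxG, eval_finsetSum]
  apply sum_congr rfl
  intro i _
  simp only [eval_mul, eval_C, eval_pow, eval_sub, eval_add, eval_X]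
  ring

theorem auxG_lone (a d N : ℕ) (p x₁ : ℝ) (t : Fin (a + 1) × Fin (d + 1) → ℤ) (U : ℝ)
    (hU : ∀ i, |(t i : ℝ)| ≤ U) (hp : 1 ≤ p) (hx₁ : |x₁| ≤ 1) :
    LOne (auxG a d N p x₁ t) (((a + 1) * (d + 1)) * ((2 ^ N + 1) ^ a * 2 ^ d) * U * p ^ a) := by
  have hU0 : 0 ≤ U := le_trans (abs_nonneg _) (hU (0, 0))
  have h1 : LOne (C x₁ + X) 2 := by
    have := (LOne.C x₁).add LOne.X
    exact this.mono (by linarith)
  have h2 : LOne ((C x₁ + X) ^ N - C x₁ ^ N) (2 ^ N + 1) := by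
    have h3 := (h1.pow N).sub ((LOne.C x₁).pow N)
    apply h3.mono
    have : |x₁| ^ N ≤ 1 := pow_le_one₀ (abs_nonneg _) hx₁
    linarith
  have h3 : LOne (C p * ((C x₁ + X) ^ N - C x₁ ^ N)) (p * (2 ^ N + 1)) := by
    have := (LOne.C p).mul h2
    rwa [abs_of_nonneg (by linarith)] at this
  have h4 : ∀ i ∈ (univ : Finset (Fin (a + 1) × Fin (d + 1))),
      LOne (C (t i : ℝ) * ((C p * ((C x₁ + X) ^ N - C x₁ ^ N)) ^ (i.1 : ℕ) *
        (C x₁ + X) ^ (i.2 : ℕ))) (U * ((p * (2 ^ N + 1)) ^ a * 2 ^ d)) := by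
    intro i _
    have h5 := (LOne.C (t i : ℝ)).mul ((h3.pow (i.1 : ℕ)).mul (h1.pow (i.2 : ℕ)))
    apply h5.mono
    have hp' : 1 ≤ p * (2 ^ N + 1) := by
      apply one_le_mul_of_one_le_of_one_le hp
      have : (0 : ℝ) < 2 ^ N := by positivity
      linarith
    apply mul_le_mul (hU i) _ (by positivity) hU0
    apply mul_le_mul _ _ (by positivity) (by positivity)
    · exact pow_le_pow_right₀ hp' (Nat.lt_succ_iff.mp i.1.isLt)
    · exact pow_le_pow_right₀ (by norm_num) (Nat.lt_succ_iff.mp i.2.isLt)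
  have h5 := LOne.sum univ _ _ h4
  apply h5.mono
  rw [sum_const, card_univ, Fintype.card_prod, Fintype.card_fin, Fintype.card_fin, nsmul_eq_mul,
    mul_pow]
  push_cast
  apply le_of_eq
  ring

/-- The exponent in the Siegel lemma. -/
theorem siegel_exponent (m k a w q n : ℕ) (M : ℝ) (hm : 1 ≤ m) (hk : 1 ≤ k)
    (ha : a + 1 = 10 * k) (hw : 11 ≤ w) (hn : n = (a + 1) * (2 * m + 1)) (hq : 1 ≤ q)
    (hM : 0 ≤ M) (hMq : n * (M + 1) ≤ (q : ℝ) ^ (12 * w + 1)) :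
    (((n : ℝ) * (M + 1)) ^ (((11 * k : ℕ) : ℝ) / ((n : ℝ) - ((11 * k : ℕ) : ℝ)))) ^ m ≤
      (q : ℝ) ^ (7 * w) := by
  have hm' : (1 : ℝ) ≤ m := by exact_mod_cast hm
  have hk' : (1 : ℝ) ≤ k := by exact_mod_cast hk
  have hw' : (11 : ℝ) ≤ w := by exact_mod_cast hw
  have hq' : (1 : ℝ) ≤ q := by exact_mod_cast hq
  have h1 : ((11 * k : ℕ) : ℝ) / ((n : ℝ) - ((11 * k : ℕ) : ℝ)) = 11 / (20 * m - 1) := by
    have h2 : (n : ℝ) = 10 * k * (2 * m + 1) := by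
      rw [hn, ha]
      push_cast
      ring
    rw [h2]
    push_cast
    rw [div_eq_div_iff (by nlinarith) (by linarith)]
    ring
  rw [h1]
  have h3 : (0 : ℝ) ≤ (n : ℝ) * (M + 1) := by positivity
  have h4 : (0 : ℝ) ≤ 11 / (20 * m - 1) := div_nonneg (by norm_num) (by linarith)
  calc (((n : ℝ) * (M + 1)) ^ ((11 : ℝ) / (20 * m - 1))) ^ m
      ≤ (((q : ℝ) ^ (12 * w + 1)) ^ ((11 : ℝ) / (20 * m - 1))) ^ m := by
        apply pow_le_pow_left₀ (by positivity)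
        exact Real.rpow_le_rpow h3 hMq h4
    _ = (q : ℝ) ^ (((12 * w + 1 : ℕ) : ℝ) * ((11 : ℝ) / (20 * m - 1)) * (m : ℝ)) := by
        rw [Real.rpow_mul (by linarith), Real.rpow_mul (by linarith), Real.rpow_natCast,
          Real.rpow_natCast]
    _ ≤ (q : ℝ) ^ ((7 * w : ℕ) : ℝ) := by
        apply Real.rpow_le_rpow_of_exponent_le hq'
        rw [mul_div_assoc', div_mul_eq_mul_div, div_le_iff₀ (by linarith)]
        push_cast
        nlinarith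
    _ = (q : ℝ) ^ (7 * w) := Real.rpow_natCast _ _

/-- The auxiliary polynomial on a short window with many killed integers. -/
theorem exists_aux (N m k a D₀ : ℕ) (hN : 1 ≤ N) (hm : 1 ≤ m) (hk : 1 ≤ k) (ha : a + 1 = 10 * k)
    (hD₀ : 1 ≤ D₀) : ∃ C : ℝ, 1 ≤ C ∧ ∀ (E w q : ℕ) (K : Finset ℕ) (D : Setup N m E w q K),
    C ≤ q → 1 ≤ E → 12 * w ≤ k * E → 11 ≤ w → ∀ (s₀ : ℕ) (e : Fin (11 * k) → ℕ),
    Function.Injective e → (∀ i, e i ∈ K ∧ s₀ ≤ e i ∧ e i < s₀ + D₀) →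
    ∃ (F : ℤ[X][X]) (T : ℝ), F ≠ 0 ∧ SDeg F a ∧ F.natDegree ≤ 2 * m ∧ 1 ≤ T ∧
      T ^ m ≤ (q : ℝ) ^ (7 * w) ∧ (∀ s, s₀ ≤ s → s < s₀ + D₀ → NB F (C * T) s) ∧
      ∀ s ∈ K, s₀ ≤ s → s < s₀ + D₀ → |ev s (D.x s) F| ≤ C * T / (q : ℝ) ^ (12 * w) := by
  set n : ℕ := (a + 1) * (2 * m + 1) with hn
  set c₁ : ℝ := ((a + 1) * ((2 * m : ℕ) + 1)) * ((2 ^ N + 1) ^ a * 2 ^ (2 * m)) with hc₁
  set c₂ : ℝ := c₁ * (2 ^ N * D₀) ^ (11 * k) with hc₂
  set c₃ : ℝ := (11 * k) * (n + c₂) * (2 ^ N * D₀ * N) ^ (11 * k - 1) + c₂ with hc₃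
  set c₄ : ℝ := (a + 1) * (D₀ : ℝ) ^ a with hc₄
  set c₅ : ℝ := 2 * n * (D₀ : ℝ) ^ a with hc₅
  set c₆ : ℝ := 2 ^ N * D₀ with hc₆
  have hc₁0 : 0 ≤ c₁ := by positivity
  have hc₂0 : 0 ≤ c₂ := by positivity
  have hc₃0 : 0 ≤ c₃ := by positivity
  have hc₄0 : 0 ≤ c₄ := by positivity
  have hc₅0 : 0 ≤ c₅ := by positivity
  have hc₆0 : 0 ≤ c₆ := by positivity
  refine ⟨c₃ + c₄ + c₅ + c₆ + 1, by linarith, ?_⟩
  intro E w q K D hCq hE hkE hw s₀ e he heK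
  have hq : 1 ≤ q := by
    have : (1 : ℝ) ≤ q := by linarith
    exact_mod_cast this
  have hq' : (1 : ℝ) ≤ q := by exact_mod_cast hq
  have hD₀' : (1 : ℝ) ≤ D₀ := by exact_mod_cast hD₀
  have hpos : 0 < 11 * k := by omega
  set s₁ : ℕ := e ⟨0, hpos⟩ with hs₁
  have hs₁K : s₁ ∈ K := (heK _).1
  have hs₁0 : s₀ ≤ s₁ := (heK _).2.1
  have hs₁1 : s₁ < s₀ + D₀ := (heK _).2.2
  set x₁ : ℝ := D.x s₁ with hx₁
  have hdist : ∀ s t : ℕ, s₀ ≤ s → s < s₀ + D₀ → s₀ ≤ t → t < s₀ + D₀ →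
      |(s : ℝ) - (t : ℝ)| ≤ D₀ := by
    intro s t h1 h2 h3 h4
    have h1' : (s₀ : ℝ) ≤ s := by exact_mod_cast h1
    have h2' : (s : ℝ) < s₀ + D₀ := by exact_mod_cast h2
    have h3' : (s₀ : ℝ) ≤ t := by exact_mod_cast h3
    have h4' : (t : ℝ) < s₀ + D₀ := by exact_mod_cast h4
    rw [abs_le]
    constructor <;> linarith
  set B : Fin (11 * k) → Fin (a + 1) × Fin (2 * m + 1) → ℝ := fun i j =>
    (q : ℝ) ^ (12 * w) * (((e i : ℝ) - s₁) ^ (j.1 : ℕ) * (D.x (e i)) ^ (j.2 : ℕ)) with hB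
  set M : ℝ := (q : ℝ) ^ (12 * w) * (D₀ : ℝ) ^ a with hM
  have hM1 : 1 ≤ M := one_le_mul_of_one_le_of_one_le (one_le_pow₀ hq') (one_le_pow₀ hD₀')
  have hBM : ∀ i j, |B i j| ≤ M := by
    intro i j
    simp only [hB, hM]
    rw [abs_mul, abs_mul, abs_pow, abs_pow, abs_pow, Nat.abs_cast]
    apply mul_le_mul_of_nonneg_left _ (by positivity)
    have h1 : |(e i : ℝ) - s₁| ^ (j.1 : ℕ) ≤ (D₀ : ℝ) ^ a := by
      calc |(e i : ℝ) - s₁| ^ (j.1 : ℕ) ≤ (D₀ : ℝ) ^ (j.1 : ℕ) :=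
            pow_le_pow_left₀ (abs_nonneg _)
              (hdist _ _ (heK i).2.1 (heK i).2.2 hs₁0 hs₁1) _
        _ ≤ (D₀ : ℝ) ^ a := pow_le_pow_right₀ hD₀' (Nat.lt_succ_iff.mp j.1.isLt)
    have h2 : |D.x (e i)| ^ (j.2 : ℕ) ≤ 1 :=
      pow_le_one₀ (abs_nonneg _) (D.abs_x_le _ (heK i).1)
    calc |(e i : ℝ) - s₁| ^ (j.1 : ℕ) * |D.x (e i)| ^ (j.2 : ℕ) ≤ (D₀ : ℝ) ^ a * 1 := by
          gcongr
      _ = (D₀ : ℝ) ^ a := mul_one _
  have hcard1 : Fintype.card (Fin (11 * k)) = 11 * k := Fintype.card_fin _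
  have hcard2 : Fintype.card (Fin (a + 1) × Fin (2 * m + 1)) = n := by
    rw [Fintype.card_prod, Fintype.card_fin, Fintype.card_fin]
  have hlt : 11 * k < n := by
    rw [hn, ha]
    nlinarith
  obtain ⟨t, ht0, htU, htB⟩ := siegel_real B M hM1 hBM (by rw [hcard1]; exact hpos)
    (by rw [hcard1, hcard2]; exact hlt)
  rw [hcard1, hcard2] at htU htB
  set U : ℝ := ((n : ℝ) * (M + 1)) ^ (((11 * k : ℕ) : ℝ) / ((n : ℝ) - ((11 * k : ℕ) : ℝ))) with hU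
  have hn1 : (1 : ℝ) ≤ n := by
    have : 1 ≤ n := by omega
    exact_mod_cast this
  have hU1 : 1 ≤ U := by
    apply Real.one_le_rpow
    · apply one_le_mul_of_one_le_of_one_le hn1
      linarith
    · apply div_nonneg (Nat.cast_nonneg _)
      rw [sub_nonneg]
      exact_mod_cast hlt.le
  have hUm : U ^ m ≤ (q : ℝ) ^ (7 * w) := by
    apply siegel_exponent m k a w q n M hm hk ha hw hn hq (by linarith)
    calc (n : ℝ) * (M + 1) ≤ n * (M + M) := by gcongr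
      _ = c₅ * (q : ℝ) ^ (12 * w) := by
          rw [hc₅, hM]
          ring
      _ ≤ q * (q : ℝ) ^ (12 * w) := by
          apply mul_le_mul_of_nonneg_right _ (by positivity)
          linarith
      _ = (q : ℝ) ^ (12 * w + 1) := by ring
  refine ⟨auxF a (2 * m) s₁ t, U, auxF_ne_zero _ _ _ _ ht0, auxF_sdeg _ _ _ _,
    auxF_natDegree _ _ _ _, hU1, hUm, ?_, ?_⟩
  · intro s hs1 hs2 j
    have h1 := auxF_NB a (2 * m) s₁ s t U D₀ htU hD₀' (hdist s s₁ hs1 hs2 hs₁0 hs₁1) j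
    refine le_trans h1 ?_
    apply mul_le_mul_of_nonneg_right _ (by linarith)
    linarith
  · intro s hsK hs1 hs2
    have hp1 : (1 : ℝ) ≤ (q : ℝ) ^ E := one_le_pow₀ hq'
    have hp0 : (0 : ℝ) < (q : ℝ) ^ E := by positivity
    have hpow : ∀ z : ℕ, z ∈ K → (auxG a (2 * m) N ((q : ℝ) ^ E) x₁ t).eval (D.x z - x₁) =
        ev z (D.x z) (auxF a (2 * m) s₁ t) := by
      intro z hz
      rw [auxG_eval, auxF_ev]
      have h1 : (q : ℝ) ^ E * ((x₁ + (D.x z - x₁)) ^ N - x₁ ^ N) = (z : ℝ) - s₁ := by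
        rw [add_sub_cancel, mul_sub, D.x_pow z hz, hx₁, D.x_pow s₁ hs₁K]
      rw [h1, add_sub_cancel]
    obtain ⟨L, hL⟩ : ∃ L, 11 * k = L + 1 := ⟨11 * k - 1, by omega⟩
    have hA := auxG_lone a (2 * m) N ((q : ℝ) ^ E) x₁ t U htU hp1 (D.abs_x_le s₁ hs₁K)
    rw [← hc₁] at hA
    set A : ℝ := c₁ * U * ((q : ℝ) ^ E) ^ a with hA'
    set ρ : ℝ := 2 ^ N * D₀ / (q : ℝ) ^ E with hρ
    have hρ1 : ρ ≤ 1 := by
      rw [hρ, div_le_one hp0]
      calc (2 : ℝ) ^ N * D₀ = c₆ := by rw [hc₆]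
        _ ≤ q := by linarith
        _ = (q : ℝ) ^ 1 := (pow_one _).symm
        _ ≤ (q : ℝ) ^ E := pow_le_pow_right₀ hq' hE
    have hclose : ∀ z z' : ℕ, z ∈ K → z' ∈ K → s₀ ≤ z → z < s₀ + D₀ → s₀ ≤ z' →
        z' < s₀ + D₀ → |D.x z - D.x z'| ≤ ρ := by
      intro z z' hz hz' h1 h2 h3 h4
      calc |D.x z - D.x z'| ≤ 2 ^ N * |(z : ℝ) - (z' : ℝ)| / (q : ℝ) ^ E :=
            abs_sub_le_of_root N hN _ _ _ _ _ hp0 (D.x_ge z hz) (D.x_ge z' hz')
              (D.x_pow z hz) (D.x_pow z' hz')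
        _ ≤ ρ := by
            rw [hρ]
            have := hdist z z' h1 h2 h3 h4
            gcongr
    have hN' : (0 : ℝ) < N := by exact_mod_cast hN
    have key := lagrange_tail (auxG a (2 * m) N ((q : ℝ) ^ E) x₁ t) A hA L
      (fun i => D.x (e (Fin.cast hL.symm i)) - x₁) (1 / ((q : ℝ) ^ E * N)) ρ ρ
      (n * U / (q : ℝ) ^ (12 * w)) (D.x s - x₁) (by positivity) ?_ ?_ hρ1
      (hclose s s₁ hsK hs₁K hs1 hs2 hs₁0 hs₁1)
      (fun i => hclose _ s₁ (heK _).1 hs₁K (heK _).2.1 (heK _).2.2 hs₁0 hs₁1) ?_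
    · rw [hpow s hsK, ← hL] at key
      refine le_trans key ?_
      have h1 : A * ρ ^ (11 * k) ≤ c₂ * U / (q : ℝ) ^ (12 * w) := by
        have h2 : A * ρ ^ (11 * k) = c₂ * U / ((q : ℝ) ^ E) ^ (k + 1) := by
          have h3 : 11 * k = a + (k + 1) := by omega
          have h4 : ρ ^ (11 * k) = (2 ^ N * D₀) ^ (11 * k) /
              (((q : ℝ) ^ E) ^ a * ((q : ℝ) ^ E) ^ (k + 1)) := by
            rw [hρ, div_pow, h3, pow_add ((q : ℝ) ^ E)]
          rw [h4, hA', hc₂]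
          have h5 : ((q : ℝ) ^ E) ^ a ≠ 0 := by positivity
          field_simp
          rw [hc₆]
        rw [h2]
        apply div_le_div_of_nonneg_left (by positivity) (by positivity)
        calc (q : ℝ) ^ (12 * w) ≤ (q : ℝ) ^ (k * E) := pow_le_pow_right₀ hq' hkE
          _ = ((q : ℝ) ^ E) ^ k := by rw [← pow_mul, mul_comm]
          _ ≤ ((q : ℝ) ^ E) ^ (k + 1) := pow_le_pow_right₀ hp1 (Nat.le_succ _)
      have h2 : ρ / (1 / ((q : ℝ) ^ E * N)) = 2 ^ N * D₀ * N := by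
        rw [hρ]
        field_simp
      rw [h2]
      have hL' : 11 * k - 1 = L := by omega
      have hLc : (L : ℝ) + 1 = 11 * k := by
        have : ((11 * k : ℕ) : ℝ) = ((L + 1 : ℕ) : ℝ) := by rw [hL]
        push_cast at this
        linarith
      calc ((L : ℝ) + 1) * (n * U / (q : ℝ) ^ (12 * w) + A * ρ ^ (11 * k)) *
            (2 ^ N * D₀ * N) ^ L + A * ρ ^ (11 * k)
          ≤ ((L : ℝ) + 1) * (n * U / (q : ℝ) ^ (12 * w) + c₂ * U / (q : ℝ) ^ (12 * w)) *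
            (2 ^ N * D₀ * N) ^ L + c₂ * U / (q : ℝ) ^ (12 * w) := by gcongr
        _ = c₃ * U / (q : ℝ) ^ (12 * w) := by
            rw [hc₃, hL', hLc]
            ring
        _ ≤ (c₃ + c₄ + c₅ + c₆ + 1) * U / (q : ℝ) ^ (12 * w) := by
            gcongr
            linarith
    · intro i j hij
      have hne : e (Fin.cast hL.symm i) ≠ e (Fin.cast hL.symm j) := by
        intro h
        apply hij
        have := he h
        exact Fin.cast_injective _ this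
      have h1 : (1 : ℝ) ≤ |(e (Fin.cast hL.symm i) : ℝ) - (e (Fin.cast hL.symm j) : ℝ)| := by
        rcases lt_or_gt_of_ne hne with h | h
        · have : (e (Fin.cast hL.symm i) : ℝ) + 1 ≤ (e (Fin.cast hL.symm j) : ℝ) := by
            exact_mod_cast h
          rw [abs_sub_comm]
          exact le_trans (by linarith) (le_abs_self _)
        · have : (e (Fin.cast hL.symm j) : ℝ) + 1 ≤ (e (Fin.cast hL.symm i) : ℝ) := by
            exact_mod_cast h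
          exact le_trans (by linarith) (le_abs_self _)
      rw [sub_sub_sub_cancel_right, div_le_iff₀ (by positivity)]
      calc (1 : ℝ) ≤ |(e (Fin.cast hL.symm i) : ℝ) - (e (Fin.cast hL.symm j) : ℝ)| := h1
        _ ≤ (q : ℝ) ^ E * N * |D.x (e (Fin.cast hL.symm i)) - D.x (e (Fin.cast hL.symm j))| := by
            apply abs_sub_le_of_pow N _ _ _ _ _ hp0.le _ (D.x_le _ (heK _).1) _
              (D.x_le _ (heK _).1) (D.x_pow _ (heK _).1) (D.x_pow _ (heK _).1)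
            · linarith [D.x_ge _ (heK (Fin.cast hL.symm i)).1]
            · linarith [D.x_ge _ (heK (Fin.cast hL.symm j)).1]
        _ = |D.x (e (Fin.cast hL.symm i)) - D.x (e (Fin.cast hL.symm j))| *
            ((q : ℝ) ^ E * N) := by ring
    · intro i
      rw [sub_sub_sub_cancel_right]
      exact hclose _ _ hsK (heK _).1 hs1 hs2 (heK _).2.1 (heK _).2.2
    · intro i
      rw [hpow _ (heK _).1, auxF_ev, le_div_iff₀ (by positivity), mul_comm,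
        ← abs_of_nonneg (show (0 : ℝ) ≤ (q : ℝ) ^ (12 * w) by positivity), ← abs_mul, mul_sum]
      have := htB (Fin.cast hL.symm i)
      simp only [hB] at this
      refine le_trans (le_of_eq ?_) this
      congr 1
      apply sum_congr rfl
      intro j _
      ring

end Pool.Agent.MP_ac14a7_nt
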