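import Mathlib
import Pool.Agent.MP_ac14a7_nt.Siegel

/-!
An irreducible polynomial capturing all killed integers of a short window.
-/

open Polynomial Finset

namespace Pool.Agent.MP_ac14a7_nt

/-- The irreducible polynomial `f` captures the killed integers of the window `[s₀, s₀ + len)`. -/
structure Capt {N m E w q : ℕ} {K : Finset ℕ} (D : Setup N m E w q K) (a : ℕ) (T : ℝ)
    (s₀ len : ℕ) (f : ℤ[X][X]) : Prop where
  irr : Irreducible f
  sdeg : SDeg f a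
  deg : f.natDegree ≤ 2 * m
  nb : ∀ s, s₀ ≤ s → s < s₀ + len → NB f T s
  zero : ∀ s ∈ K, s₀ ≤ s → s < s₀ + len → ev s (D.β s) f = 0

/-- The part of `K` in a window. -/
def win (K : Finset ℕ) (s₀ len : ℕ) : Finset ℕ := K.filter fun s => s₀ ≤ s ∧ s < s₀ + len

theorem mem_win {K : Finset ℕ} {s₀ len s : ℕ} :
    s ∈ win K s₀ len ↔ s ∈ K ∧ s₀ ≤ s ∧ s < s₀ + len := by
  rw [win, mem_filter]

theorem absorb (c : ℝ) (q A B : ℕ) (hc : c < q) (hq : 1 ≤ q) (hAB : A < B) :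
    c * (q : ℝ) ^ A < (q : ℝ) ^ B := by
  have hq' : (1 : ℝ) ≤ q := by exact_mod_cast hq
  calc c * (q : ℝ) ^ A < q * (q : ℝ) ^ A := by
        apply mul_lt_mul_of_pos_right hc
        positivity
    _ = (q : ℝ) ^ (A + 1) := by ring
    _ ≤ (q : ℝ) ^ B := pow_le_pow_right₀ hq' hAB

theorem abs_sub_le_of_win {s₀ len s t : ℕ} (h1 : s₀ ≤ s) (h2 : s < s₀ + len) (h3 : s₀ ≤ t)
    (h4 : t < s₀ + len) : |(s : ℝ) - (t : ℝ)| ≤ len := by
  have h1' : (s₀ : ℝ) ≤ s := by exact_mod_cast h1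
  have h2' : (s : ℝ) < s₀ + len := by exact_mod_cast h2
  have h3' : (s₀ : ℝ) ≤ t := by exact_mod_cast h3
  have h4' : (t : ℝ) < s₀ + len := by exact_mod_cast h4
  rw [abs_le]
  constructor <;> linarith

theorem NB.mono {F : ℤ[X][X]} {T T' : ℝ} {s : ℕ} (h : NB F T s) (hT : T ≤ T') : NB F T' s :=
  fun j => le_trans (h j) hT

/-- The norm of a divisor of `F` on a window. -/
theorem NB_of_dvd_window (F f : ℤ[X][X]) (hF : F ≠ 0) (hf : f ∣ F) (a d D₀ s₀ : ℕ)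
    (ha : SDeg F a) (hd : F.natDegree ≤ d) (hD₀ : 2 * a + 1 ≤ D₀) (T : ℝ)
    (hNB : ∀ s, s₀ ≤ s → s < s₀ + D₀ → NB F T s) :
    ∀ s, s₀ ≤ s → s < s₀ + D₀ →
      NB f ((a + 1) * (2 ^ d * (d + 1)) * (D₀ : ℝ) ^ a * T) s := by
  classical
  obtain ⟨j, hj⟩ : ∃ j, F.coeff j ≠ 0 := by
    by_contra h
    push Not at h
    apply hF
    ext1 j
    rw [h j, coeff_zero]
  set S : Finset ℕ := (Ico s₀ (s₀ + D₀)).filter (fun s : ℕ => (F.coeff j).eval (s : ℤ) = 0)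
    with hS
  set S' : Finset ℕ := (Ico s₀ (s₀ + D₀)).filter (fun s : ℕ => ¬ (F.coeff j).eval (s : ℤ) = 0)
    with hS'
  have hScard : #S ≤ a := by
    by_contra hlt
    apply hj
    apply eq_zero_of_many_roots (F.coeff j) a (ha j) S _ (by omega)
    intro s hs
    have h1 := (mem_filter.mp hs).2
    have h2 : (aeval (s : ℝ) (F.coeff j) : ℝ) = (((F.coeff j).eval (s : ℤ) : ℤ) : ℝ) := by
      have := aeval_algebraMap_apply ℝ (s : ℤ) (F.coeff j)
      simpa using this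
    rw [h2, h1, Int.cast_zero]
  have hsum : #S + #S' = D₀ := by
    rw [hS, hS', card_filter_add_card_filter_not]
    simp
  have hS'card : a * 1 + 1 ≤ #S' := by omega
  obtain ⟨e, heS, hesp⟩ := exists_spaced S' a 1 hS'card
  have hsdegf : SDeg f a := sdeg_of_dvd F f a hF hf ha
  have hnode : ∀ i, NB f (2 ^ d * ((d + 1) * T)) (e i) := by
    intro i j'
    obtain ⟨h1, h2⟩ := mem_filter.mp (heS i)
    rw [mem_Ico] at h1
    apply coeff_le_of_dvd _ (spec (e i : ℤ) F) _ (_root_.map_dvd _ hf) d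
      (le_trans (natDegree_spec_le _ _) hd) T (hNB (e i) h1.1 h1.2)
    intro h3
    apply h2
    rw [← spec_coeff, h3, coeff_zero]
  intro s hs1 hs2
  have h1 := NB_of_nodes f a hsdegf (2 ^ d * ((d + 1) * T)) ((1 : ℕ) : ℝ) D₀ (by norm_num) e
    hesp hnode s (fun i => by
      have := mem_Ico.mp (mem_filter.mp (heS i)).1
      exact abs_sub_le_of_win hs1 hs2 this.1 this.2)
  apply h1.mono
  rw [Nat.cast_one, div_one]
  apply le_of_eq
  ring

/-- Capturing all killed integers of a short window. -/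
theorem base_capture (N m k a D₀ K₀ : ℕ) (hN : 1 ≤ N) (hm : 1 ≤ m) (hk : 1 ≤ k)
    (ha : a + 1 = 10 * k) (hD₀ : 2 * a + 1 ≤ D₀) (hK1 : 11 * k ≤ K₀)
    (hK2 : (a + 2 * m) * (a * N + 2 * m) < K₀) :
    ∃ C : ℝ, 1 ≤ C ∧ ∀ (E w q : ℕ) (K : Finset ℕ) (D : Setup N m E w q K),
    C ≤ q → 1 ≤ E → 12 * w ≤ k * E → 11 ≤ w → ∀ (T₀ : ℝ), 1 ≤ T₀ →
    T₀ ^ m = (q : ℝ) ^ (7 * w) → ∀ s₀, K₀ ≤ #(win K s₀ D₀) →
    ∃ f, Capt D a (C * T₀) s₀ D₀ f := by
  obtain ⟨C₁, hC₁, hA⟩ := exists_aux N m k a D₀ hN hm hk ha (by omega)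
  obtain ⟨C₂, hC₂, hV⟩ := vanish m
  obtain ⟨C₃, hC₃, hE⟩ := extend N m a hN hm
  set Λ : ℕ := a * N + 2 * m with hΛ
  set c₄ : ℝ := (a + 1) * (2 ^ (2 * m) * ((2 * m : ℕ) + 1)) * (D₀ : ℝ) ^ a * C₁ with hc₄
  have hD₀' : (1 : ℝ) ≤ D₀ := by
    have : 1 ≤ D₀ := by omega
    exact_mod_cast this
  have hc₄1 : C₁ ≤ c₄ := by
    rw [hc₄]
    apply le_mul_of_one_le_left (by linarith)
    apply one_le_mul_of_one_le_of_one_le
    · apply one_le_mul_of_one_le_of_one_le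
      · have : (0 : ℝ) ≤ a := Nat.cast_nonneg a
        linarith
      · apply one_le_mul_of_one_le_of_one_le
        · exact one_le_pow₀ (by norm_num)
        · have : (0 : ℝ) ≤ (2 * m : ℕ) := Nat.cast_nonneg _
          linarith
    · exact one_le_pow₀ hD₀'
  set c₅ : ℝ := C₂ * C₁ ^ m * 2 with hc₅
  set c₆ : ℝ := C₃ * c₄ ^ m * (D₀ : ℝ) ^ Λ with hc₆
  have hc₅0 : 0 ≤ c₅ := by positivity
  have hc₆0 : 0 ≤ c₆ := by positivity
  refine ⟨C₁ + c₄ + c₅ + c₆ + 1, by linarith, ?_⟩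
  intro E w q K D hCq hE1 hkE hw T₀ hT₀ hT₀m s₀ hcard
  have hq' : (1 : ℝ) ≤ q := by linarith
  have hq : 1 ≤ q := by exact_mod_cast hq'
  have hcard11 : 11 * k - 1 + 1 = 11 * k := by omega
  obtain ⟨e, heS, hesp⟩ := exists_spaced (win K s₀ D₀) (11 * k - 1) 1 (by omega)
  obtain ⟨F, T, hF0, hFa, hFd, hT1, hTm, hNB, hsmall⟩ := hA E w q K D (by linarith) hE1 hkE hw s₀
    (fun i => e (Fin.cast hcard11.symm i)) (by
      intro i j hij
      by_contra hne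
      have h1 := hesp (Fin.cast hcard11.symm i) (Fin.cast hcard11.symm j)
        (fun h => hne (Fin.cast_injective _ h))
      simp only at hij
      rw [hij, sub_self, abs_zero] at h1
      norm_num at h1) (fun i => mem_win.mp (heS _))
  have hTT₀ : T ≤ T₀ := by
    by_contra hlt
    push Not at hlt
    have h1 : T₀ ^ m < T ^ m := pow_lt_pow_left₀ hlt (by linarith) (by omega)
    linarith
  -- vanishing of `F`
  have hFzero : ∀ s ∈ win K s₀ D₀, ev s (D.β s) F = 0 := by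
    intro s hs
    obtain ⟨hsK, hs1, hs2⟩ := mem_win.mp hs
    have hC₁T : 1 ≤ C₁ * T := one_le_mul_of_one_le_of_one_le hC₁ hT1
    apply hV N E w q K D hq s hsK F (C₁ * T) _ hFd hC₁T (hNB s hs1 hs2)
      (hsmall s hsK hs1 hs2)
    have h1 : (C₁ * T) ^ m = (C₁ * T) ^ (m - 1) * (C₁ * T) := by
      rw [← pow_succ]
      congr 1
      omega
    have h2 : (q : ℝ) ^ (12 * w) ≤ (q : ℝ) ^ (20 * w) := pow_le_pow_right₀ hq' (by omega)
    have h3 : C₁ * T / (q : ℝ) ^ (20 * w) ≤ C₁ * T / (q : ℝ) ^ (12 * w) :=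
      div_le_div_of_nonneg_left (by linarith) (by positivity) h2
    calc C₂ * (q : ℝ) ^ (4 * w) * (C₁ * T) ^ (m - 1) *
          (C₁ * T / (q : ℝ) ^ (12 * w) + C₁ * T / (q : ℝ) ^ (20 * w))
        ≤ C₂ * (q : ℝ) ^ (4 * w) * (C₁ * T) ^ (m - 1) *
          (C₁ * T / (q : ℝ) ^ (12 * w) + C₁ * T / (q : ℝ) ^ (12 * w)) := by gcongr
      _ = c₅ * (q : ℝ) ^ (4 * w) * T ^ m / (q : ℝ) ^ (12 * w) := by
          have h4 : C₁ ^ m * T ^ m = (C₁ * T) ^ (m - 1) * (C₁ * T) := by rw [← h1, mul_pow]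
          rw [hc₅]
          linear_combination (-2 * C₂ * (q : ℝ) ^ (4 * w) / (q : ℝ) ^ (12 * w)) * h4
      _ ≤ c₅ * (q : ℝ) ^ (4 * w) * (q : ℝ) ^ (7 * w) / (q : ℝ) ^ (12 * w) := by gcongr
      _ = c₅ * (q : ℝ) ^ (11 * w) / (q : ℝ) ^ (12 * w) := by
          rw [mul_assoc, ← pow_add]
          congr 3
          ring
      _ < 1 := by
          rw [div_lt_one (by positivity)]
          exact absorb c₅ q _ _ (by linarith) hq (by omega)
  -- the irreducible factor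
  obtain ⟨f, hfirr, hfF, S', hS'sub, hS'card, hS'zero⟩ := exists_factor Λ D.β F hF0 a (2 * m) hFa
    hFd (win K s₀ D₀) hFzero (by omega)
  have hfa : SDeg f a := sdeg_of_dvd F f a hF0 hfF hFa
  have hfd : f.natDegree ≤ 2 * m := le_trans (natDegree_le_of_dvd hfF hF0) hFd
  have hC₁T : 1 ≤ C₁ * T := one_le_mul_of_one_le_of_one_le hC₁ hT1
  have hfNB : ∀ s, s₀ ≤ s → s < s₀ + D₀ → NB f (c₄ * T₀) s := by
    intro s hs1 hs2
    have h1 := NB_of_dvd_window F f hF0 hfF a (2 * m) D₀ s₀ hFa hFd hD₀ (C₁ * T) hNB s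
      hs1 hs2
    apply h1.mono
    have h2 : (a + 1) * (2 ^ (2 * m) * ((2 * m : ℕ) + 1)) * (D₀ : ℝ) ^ a * (C₁ * T) = c₄ * T := by
      rw [hc₄]; ring
    rw [h2]
    gcongr
  refine ⟨f, hfirr, hfa, hfd, fun s h1 h2 => (hfNB s h1 h2).mono ?_, ?_⟩
  · gcongr
    linarith
  · intro s hsK hs1 hs2
    obtain ⟨e', he'S, he'sp⟩ := exists_spaced S' Λ 1 (by omega)
    have hc₄T : 1 ≤ c₄ * T₀ := one_le_mul_of_one_le_of_one_le (by linarith) hT₀
    apply hE E w q K D hq f (c₄ * T₀) (c₄ * T₀) ((1 : ℕ) : ℝ) D₀ hfa hfd hc₄T le_rfl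
      (by norm_num) (by simpa using hD₀') e' (fun i => (mem_win.mp (hS'sub (he'S i))).1)
      he'sp _ _ s hsK _ (hfNB s hs1 hs2)
    · rw [Nat.cast_one, div_one, mul_pow, hT₀m]
      calc C₃ * (q : ℝ) ^ (4 * w) * (c₄ ^ m * (q : ℝ) ^ (7 * w)) * (D₀ : ℝ) ^ Λ
          = c₆ * (q : ℝ) ^ (11 * w) := by
            rw [hc₆]
            have : (q : ℝ) ^ (11 * w) = (q : ℝ) ^ (4 * w) * (q : ℝ) ^ (7 * w) := by
              rw [← pow_add]
              congr 1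
              ring
            rw [this]
            ring
        _ < (q : ℝ) ^ (20 * w) := absorb c₆ q _ _ (by linarith) hq (by omega)
    · intro i
      have := mem_win.mp (hS'sub (he'S i))
      exact hfNB _ this.2.1 this.2.2
    · intro i
      exact hS'zero _ (he'S i)
    · intro i
      have := mem_win.mp (hS'sub (he'S i))
      exact abs_sub_le_of_win hs1 hs2 this.2.1 this.2.2

end Pool.Agent.MP_ac14a7_nt
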