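import Mathlib
import Pool.Agent.MP_ac14a7_nt.Base

/-!
Gluing the capturing polynomials of the subwindows of a dense window.
-/

open Polynomial Finset

namespace Pool.Agent.MP_ac14a7_nt

variable {N m E w q : ℕ} {K : Finset ℕ}

theorem NB_of_associated {f g : ℤ[X][X]} (h : Associated f g) {T : ℝ} {s : ℕ}
    (hf : NB f T s) : NB g T s := by
  obtain ⟨u, rfl⟩ := h
  have h1 : IsUnit (spec (s : ℤ) (u : ℤ[X][X])) := u.isUnit.map (spec (s : ℤ))
  obtain ⟨r, hr, hru⟩ := Polynomial.isUnit_iff.mp h1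
  intro j
  rw [map_mul, ← hru, coeff_mul_C]
  rcases Int.isUnit_iff.mp hr with h2 | h2
  · rw [h2, mul_one]
    exact hf j
  · rw [h2, mul_neg, mul_one, Int.cast_neg, abs_neg]
    exact hf j

/-- A dense window contains many dense subwindows. -/
theorem many_dense (K : Finset ℕ) (s₀ ℓ q D₀ K₀ j : ℕ) (hℓ : ℓ = D₀ * q ^ j) (hq : 1 ≤ q)
    (h : K₀ * (2 * q) ^ (j + 1) ≤ #(win K s₀ (q * ℓ))) :
    K₀ * q ≤ #((range q).filter fun i => K₀ * (2 * q) ^ j ≤ #(win K (s₀ + i * ℓ) ℓ)) * D₀ := by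
  classical
  set G := (range q).filter fun i => K₀ * (2 * q) ^ j ≤ #(win K (s₀ + i * ℓ) ℓ) with hG
  have h1 : #(win K s₀ (q * ℓ)) ≤ ∑ i ∈ range q, #(win K (s₀ + i * ℓ) ℓ) := by
    have hsub : win K s₀ (q * ℓ) ⊆ (range q).biUnion fun i => win K (s₀ + i * ℓ) ℓ := by
      intro s hs
      obtain ⟨hsK, hs1, hs2⟩ := mem_win.mp hs
      have hℓ0 : 0 < ℓ := by
        rcases Nat.eq_zero_or_pos ℓ with h0 | h0
        · rw [h0, mul_zero] at hs2
          omega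
        · exact h0
      rw [mem_biUnion]
      have hdiv := Nat.div_add_mod (s - s₀) ℓ
      have hmod := Nat.mod_lt (s - s₀) hℓ0
      refine ⟨(s - s₀) / ℓ, ?_, ?_⟩
      · rw [mem_range]
        apply Nat.div_lt_of_lt_mul
        rw [mul_comm]
        omega
      · rw [mem_win]
        refine ⟨hsK, ?_, ?_⟩
        · rw [mul_comm] at hdiv
          omega
        · rw [mul_comm] at hdiv
          omega
    exact le_trans (card_le_card hsub) card_biUnion_le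
  have hwin : ∀ i, #(win K (s₀ + i * ℓ) ℓ) ≤ ℓ := by
    intro i
    have hsub : win K (s₀ + i * ℓ) ℓ ⊆ Ico (s₀ + i * ℓ) (s₀ + i * ℓ + ℓ) := by
      intro s hs
      obtain ⟨_, hs1, hs2⟩ := mem_win.mp hs
      rw [mem_Ico]
      exact ⟨hs1, hs2⟩
    refine le_trans (card_le_card hsub) ?_
    simp
  have h2 : ∑ i ∈ range q, #(win K (s₀ + i * ℓ) ℓ) ≤ #G * ℓ + q * (K₀ * (2 * q) ^ j) := by
    rw [← sum_filter_add_sum_filter_not (range q)
      (fun i => K₀ * (2 * q) ^ j ≤ #(win K (s₀ + i * ℓ) ℓ))]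
    apply Nat.add_le_add
    · calc ∑ i ∈ G, #(win K (s₀ + i * ℓ) ℓ) ≤ ∑ _i ∈ G, ℓ := sum_le_sum fun i _ => hwin i
        _ = #G * ℓ := by rw [sum_const, smul_eq_mul]
    · calc ∑ i ∈ (range q).filter (fun i => ¬ K₀ * (2 * q) ^ j ≤ #(win K (s₀ + i * ℓ) ℓ)),
            #(win K (s₀ + i * ℓ) ℓ)
          ≤ ∑ _i ∈ (range q).filter (fun i => ¬ K₀ * (2 * q) ^ j ≤ #(win K (s₀ + i * ℓ) ℓ)),
            K₀ * (2 * q) ^ j := by
            apply sum_le_sum
            intro i hi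
            have := (mem_filter.mp hi).2
            omega
        _ = #((range q).filter (fun i => ¬ K₀ * (2 * q) ^ j ≤ #(win K (s₀ + i * ℓ) ℓ))) *
            (K₀ * (2 * q) ^ j) := by rw [sum_const, smul_eq_mul]
        _ ≤ q * (K₀ * (2 * q) ^ j) := by
            apply Nat.mul_le_mul_right
            calc _ ≤ #(range q) := card_filter_le _ _
              _ = q := card_range q
  have h3 : K₀ * (2 * q) ^ (j + 1) ≤ #G * ℓ + q * (K₀ * (2 * q) ^ j) :=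
    le_trans h (le_trans h1 h2)
  have h4 : K₀ * (2 * q) ^ (j + 1) = q * (K₀ * (2 * q) ^ j) + (K₀ * q * 2 ^ j) * q ^ j := by
    rw [mul_pow, mul_pow, pow_succ, pow_succ]
    ring
  have h5 : (K₀ * q * 2 ^ j) * q ^ j ≤ (#G * D₀) * q ^ j := by
    rw [h4] at h3
    rw [hℓ] at h3
    have : #G * (D₀ * q ^ j) = #G * D₀ * q ^ j := by ring
    omega
  have h6 : K₀ * q * 2 ^ j ≤ #G * D₀ := Nat.le_of_mul_le_mul_right h5 (by positivity)
  calc K₀ * q ≤ K₀ * q * 2 ^ j := Nat.le_mul_of_pos_right _ (by positivity)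
    _ ≤ #G * D₀ := h6

/-- The constant by which the norm grows at each step. -/
noncomputable def kap (a D₀ : ℕ) : ℝ := (a + 1) * (2 * (D₀ * (a + 1))) ^ a

theorem one_le_kap (a D₀ : ℕ) (hD₀ : 1 ≤ D₀) : 1 ≤ kap a D₀ := by
  have h1 : (1 : ℝ) ≤ D₀ := by exact_mod_cast hD₀
  have h2 : (0 : ℝ) ≤ a := Nat.cast_nonneg a
  rw [kap]
  apply one_le_mul_of_one_le_of_one_le (by linarith)
  apply one_le_pow₀
  nlinarith

/-- One step of the chain. -/
theorem chain_step (N m a D₀ K₀ E₀ : ℕ) (hN : 1 ≤ N) (hm : 1 ≤ m) (hD₀ : 2 * a + 1 ≤ D₀)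
    (hK1 : a * N + 2 * m < K₀) (hK2 : 2 * (2 * m) * a < K₀) (C : ℝ) (hC : 1 ≤ C) :
    ∃ q₀ : ℝ, ∀ (E w q : ℕ) (K : Finset ℕ) (D : Setup N m E w q K), q₀ ≤ q →
    a * N + 2 * m + a * m ≤ w → ∀ (T₀ : ℝ), 1 ≤ T₀ → T₀ ^ m = (q : ℝ) ^ (7 * w) →
    ∀ j < E₀,
    (∀ s₀, K₀ * (2 * q) ^ j ≤ #(win K s₀ (D₀ * q ^ j)) →
      ∃ f, Capt D a (kap a D₀ ^ j * (C * T₀)) s₀ (D₀ * q ^ j) f) →
    (∀ s₀, K₀ * (2 * q) ^ (j + 1) ≤ #(win K s₀ (D₀ * q ^ (j + 1))) →
      ∃ f, Capt D a (kap a D₀ ^ (j + 1) * (C * T₀)) s₀ (D₀ * q ^ (j + 1)) f) := by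
  classical
  obtain ⟨C₃, hC₃, hE⟩ := extend N m a hN hm
  set Λ : ℕ := a * N + 2 * m with hΛ
  have hD₀1 : 1 ≤ D₀ := by omega
  have hD₀' : (1 : ℝ) ≤ D₀ := by exact_mod_cast hD₀1
  have hκ := one_le_kap a D₀ hD₀1
  set κ := kap a D₀ with hκdef
  set c₁ : ℝ := C₃ * (((a + 1) * (D₀ : ℝ) ^ a) ^ m * (κ ^ E₀ * C) ^ m) * (D₀ : ℝ) ^ Λ with hc₁
  have hc₁0 : 0 ≤ c₁ := by positivity
  refine ⟨c₁ + 2 * (D₀ * (a + 1)) + 1, ?_⟩
  intro E w q K D hq₀ hw T₀ hT₀ hT₀m j hj ih s₀ hs₀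
  have hnn : (0 : ℝ) ≤ 2 * (D₀ * (a + 1)) := by positivity
  have hq' : (1 : ℝ) ≤ q := by linarith
  have hq : 1 ≤ q := by exact_mod_cast hq'
  have hqD : 2 * (D₀ * (a + 1)) ≤ q := by
    have : ((2 * (D₀ * (a + 1)) : ℕ) : ℝ) ≤ q := by
      push_cast
      linarith
    exact_mod_cast this
  set ℓ : ℕ := D₀ * q ^ j with hℓ
  have hℓq : D₀ * q ^ (j + 1) = q * ℓ := by
    rw [hℓ]
    ring
  rw [hℓq] at hs₀ ⊢
  set T : ℝ := κ ^ j * (C * T₀) with hT
  have hT1 : 1 ≤ T := by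
    apply one_le_mul_of_one_le_of_one_le (one_le_pow₀ hκ)
    exact one_le_mul_of_one_le_of_one_le hC hT₀
  have hTle : T ≤ κ ^ E₀ * C * T₀ := by
    rw [hT, mul_assoc]
    apply mul_le_mul_of_nonneg_right _ (by positivity)
    exact pow_le_pow_right₀ hκ hj.le
  set G := (range q).filter fun i => K₀ * (2 * q) ^ j ≤ #(win K (s₀ + i * ℓ) ℓ) with hG
  have hGcard : K₀ * q ≤ #G * D₀ := many_dense K s₀ ℓ q D₀ K₀ j hℓ hq hs₀
  have hcapt : ∀ i : ℕ, ∃ f, i ∈ G → Capt D a T (s₀ + i * ℓ) ℓ f := by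
    intro i
    by_cases hi : i ∈ G
    · obtain ⟨f, hf⟩ := ih (s₀ + i * ℓ) (mem_filter.mp hi).2
      exact ⟨f, fun _ => hf⟩
    · exact ⟨0, fun h => absurd h hi⟩
  choose f hf using hcapt
  have hsub : ∀ i ∈ G, ∀ s, s₀ + i * ℓ ≤ s → s < s₀ + i * ℓ + ℓ → s₀ ≤ s ∧ s < s₀ + q * ℓ := by
    intro i hi s h1 h2
    have hiq : i + 1 ≤ q := mem_range.mp (mem_filter.mp hi).1
    have h3 : (i + 1) * ℓ ≤ q * ℓ := Nat.mul_le_mul_right _ hiq
    have h4 : (i + 1) * ℓ = i * ℓ + ℓ := by ring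
    constructor
    · have : 0 ≤ i * ℓ := Nat.zero_le _
      omega
    · omega
  -- every `f i` vanishes at all killed points of the large window
  have hqj : 0 < q ^ j := by positivity
  have hqj' : (0 : ℝ) < (q : ℝ) ^ j := by positivity
  have hvan : ∀ i ∈ G, ∀ s ∈ win K s₀ (q * ℓ), ev s (D.β s) (f i) = 0 := by
    intro i hi s hs
    have hfi := hf i hi
    obtain ⟨hsK, hs1, hs2⟩ := mem_win.mp hs
    have hcardi : Λ * q ^ j + 1 ≤ #(win K (s₀ + i * ℓ) ℓ) := by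
      have h1 := (mem_filter.mp hi).2
      have h2 : Λ * q ^ j + 1 ≤ K₀ * (2 * q) ^ j := by
        have h3 : K₀ * (2 * q) ^ j = K₀ * q ^ j * 2 ^ j := by rw [mul_pow]; ring
        have h4 : K₀ * q ^ j ≤ K₀ * q ^ j * 2 ^ j := Nat.le_mul_of_pos_right _ (by positivity)
        have h5 : (Λ + 1) * q ^ j ≤ K₀ * q ^ j := Nat.mul_le_mul_right _ hK1
        have h6 : (Λ + 1) * q ^ j = Λ * q ^ j + q ^ j := by ring
        omega
      omega
    obtain ⟨e, heS, hesp⟩ := exists_spaced _ Λ (q ^ j) hcardi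
    have hcardi' : a * q ^ j + 1 ≤ #(Ico (s₀ + i * ℓ) (s₀ + i * ℓ + ℓ)) := by
      rw [Nat.card_Ico, Nat.add_sub_cancel_left, hℓ]
      have h5 : (a + 1) * q ^ j ≤ D₀ * q ^ j := Nat.mul_le_mul_right _ (by omega)
      have h6 : (a + 1) * q ^ j = a * q ^ j + q ^ j := by ring
      omega
    obtain ⟨e', he'S, he'sp⟩ := exists_spaced _ a (q ^ j) hcardi'
    have hdist : ∀ t, s₀ + i * ℓ ≤ t → t < s₀ + i * ℓ + ℓ →
        |(s : ℝ) - (t : ℝ)| ≤ ((q * ℓ : ℕ) : ℝ) := by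
      intro t ht1 ht2
      obtain ⟨h1, h2⟩ := hsub i hi t ht1 ht2
      exact abs_sub_le_of_win hs1 hs2 h1 h2
    have hratio : ((q * ℓ : ℕ) : ℝ) / ((q ^ j : ℕ) : ℝ) = D₀ * q := by
      rw [hℓ]
      push_cast
      field_simp
    have hNB' := NB_of_nodes (f i) a hfi.sdeg T ((q ^ j : ℕ) : ℝ) ((q * ℓ : ℕ) : ℝ)
      (by exact_mod_cast hqj) e' he'sp (fun i' => by
        have := mem_Ico.mp (he'S i')
        exact hfi.nb _ this.1 this.2) s (fun i' => by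
        have := mem_Ico.mp (he'S i')
        exact hdist _ this.1 this.2)
    rw [hratio] at hNB'
    set T' : ℝ := (a + 1) * T * (D₀ * q) ^ a with hT'
    have hTT' : T ≤ T' := by
      have h1 : (1 : ℝ) ≤ (D₀ * q) ^ a := one_le_pow₀ (one_le_mul_of_one_le_of_one_le hD₀' hq')
      have h2 : (1 : ℝ) ≤ a + 1 := by
        have : (0 : ℝ) ≤ a := Nat.cast_nonneg a
        linarith
      calc T ≤ (a + 1) * T := le_mul_of_one_le_left (by linarith) h2
        _ ≤ (a + 1) * T * (D₀ * q) ^ a := le_mul_of_one_le_right (by positivity) h1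
    apply hE E w q K D hq (f i) T T' ((q ^ j : ℕ) : ℝ) ((q * ℓ : ℕ) : ℝ) hfi.sdeg hfi.deg hT1
      hTT' (by exact_mod_cast hqj) _ e (fun i' => (mem_win.mp (heS i')).1) hesp
      (fun i' => by
        have := mem_win.mp (heS i')
        exact hfi.nb _ this.2.1 this.2.2)
      (fun i' => by
        have := mem_win.mp (heS i')
        exact hfi.zero _ this.1 this.2.1 this.2.2) s hsK
      (fun i' => by
        have := mem_win.mp (heS i')
        exact hdist _ this.2.1 this.2.2) hNB' _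
    · have h1 : q ^ j ≤ q * ℓ := by
        rw [hℓ]
        calc q ^ j ≤ (q * D₀) * q ^ j := Nat.le_mul_of_pos_left _ (by positivity)
          _ = q * (D₀ * q ^ j) := by ring
      exact_mod_cast h1
    · rw [hratio]
      have h1 : T' ^ m ≤ ((a + 1) * (D₀ : ℝ) ^ a) ^ m * (κ ^ E₀ * C) ^ m *
          (q : ℝ) ^ (a * m + 7 * w) := by
        calc T' ^ m ≤ ((a + 1) * (κ ^ E₀ * C * T₀) * (D₀ * q) ^ a) ^ m := by
              rw [hT']
              gcongr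
          _ = ((a + 1) * (D₀ : ℝ) ^ a) ^ m * (κ ^ E₀ * C) ^ m * ((q : ℝ) ^ (a * m) * T₀ ^ m) := by
              simp only [mul_pow]
              ring
          _ = ((a + 1) * (D₀ : ℝ) ^ a) ^ m * (κ ^ E₀ * C) ^ m *
              (q : ℝ) ^ (a * m + 7 * w) := by
              rw [hT₀m, ← pow_add]
      calc C₃ * (q : ℝ) ^ (4 * w) * T' ^ m * (D₀ * (q : ℝ)) ^ Λ
          ≤ C₃ * (q : ℝ) ^ (4 * w) * (((a + 1) * (D₀ : ℝ) ^ a) ^ m * (κ ^ E₀ * C) ^ m *
            (q : ℝ) ^ (a * m + 7 * w)) * (D₀ * (q : ℝ)) ^ Λ := by gcongr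
        _ = c₁ * (q : ℝ) ^ (4 * w + (a * m + 7 * w) + Λ) := by
            rw [hc₁, pow_add, pow_add, mul_pow (D₀ : ℝ)]
            ring
        _ < (q : ℝ) ^ (20 * w) := by
            apply absorb c₁ q _ _ _ hq
            · omega
            · linarith
  -- all the `f i` are associated
  have hWcard : K₀ ≤ #(win K s₀ (q * ℓ)) := by
    calc K₀ ≤ K₀ * (2 * q) ^ (j + 1) := Nat.le_mul_of_pos_right _ (by positivity)
      _ ≤ _ := hs₀
  have hassoc : ∀ i ∈ G, ∀ i' ∈ G, Associated (f i) (f i') := by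
    intro i hi i' hi'
    apply associated_of_common (f i) (f i') (hf i hi).irr (hf i' hi').irr a (2 * m)
      (hf i hi).sdeg (hf i' hi').sdeg (hf i hi).deg (hf i' hi').deg (win K s₀ (q * ℓ)) D.β
      (hvan i hi) (hvan i' hi')
    · omega
    · have : a ≤ a * N := Nat.le_mul_of_pos_right _ hN
      omega
  -- well spaced subwindows
  set g' : ℕ := q / (D₀ * (a + 1)) with hg'
  have hDa : 0 < D₀ * (a + 1) := by positivity
  have hg'1 : 1 ≤ g' := by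
    rw [hg', Nat.le_div_iff_mul_le hDa]
    omega
  have hg'2 : D₀ * (a + 1) * g' ≤ q := Nat.mul_div_le q _
  have hg'3 : q < D₀ * (a + 1) * (g' + 1) := Nat.lt_mul_div_succ q hDa
  have hGcard' : a * g' + 1 ≤ #G := by
    have h1 : D₀ * ((a + 1) * g') ≤ D₀ * #G := by
      calc D₀ * ((a + 1) * g') = D₀ * (a + 1) * g' := by ring
        _ ≤ q := hg'2
        _ ≤ K₀ * q := Nat.le_mul_of_pos_left _ (by omega)
        _ ≤ #G * D₀ := hGcard
        _ = D₀ * #G := by ring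
    have h2 : (a + 1) * g' ≤ #G := Nat.le_of_mul_le_mul_left h1 (by omega)
    have h3 : (a + 1) * g' = a * g' + g' := by ring
    omega
  obtain ⟨e, heG, hesp⟩ := exists_spaced G a g' hGcard'
  have hne : (0 : ℕ) < a + 1 := Nat.succ_pos a
  set i₀ := e ⟨0, hne⟩ with hi₀
  have hi₀G : i₀ ∈ G := heG _
  refine ⟨f i₀, (hf i₀ hi₀G).irr, (hf i₀ hi₀G).sdeg, (hf i₀ hi₀G).deg, ?_, ?_⟩
  · intro s hs1 hs2
    have hℓ0 : 0 < ℓ := by positivity
    have hℓ0' : (0 : ℝ) < ℓ := by exact_mod_cast hℓ0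
    have h1 := NB_of_nodes (f i₀) a (hf i₀ hi₀G).sdeg T ((g' * ℓ : ℕ) : ℝ) ((q * ℓ : ℕ) : ℝ)
      (by
        have : 0 < g' * ℓ := by positivity
        exact_mod_cast this) (fun i => s₀ + e i * ℓ) (by
        intro i i' hii'
        have h2 := hesp i i' hii'
        push_cast
        have h3 : (s₀ : ℝ) + e i * ℓ - (s₀ + e i' * ℓ) = (e i - e i') * ℓ := by ring
        rw [h3, abs_mul, abs_of_pos hℓ0']
        gcongr) (by
        intro i
        apply NB_of_associated (hassoc (e i) (heG i) i₀ hi₀G)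
        exact (hf (e i) (heG i)).nb _ le_rfl (by omega)) s (by
        intro i
        have h2 := hsub (e i) (heG i) (s₀ + e i * ℓ) le_rfl (by omega)
        exact abs_sub_le_of_win hs1 hs2 h2.1 h2.2)
    apply h1.mono
    have h2 : ((q * ℓ : ℕ) : ℝ) / ((g' * ℓ : ℕ) : ℝ) ≤ 2 * (D₀ * (a + 1)) := by
      have hg'0 : (0 : ℝ) < g' := by exact_mod_cast hg'1
      push_cast
      rw [mul_div_mul_right _ _ hℓ0'.ne', div_le_iff₀ hg'0]
      have h3 : q ≤ 2 * (D₀ * (a + 1)) * g' := by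
        calc q ≤ D₀ * (a + 1) * (g' + 1) := hg'3.le
          _ ≤ D₀ * (a + 1) * (2 * g') := Nat.mul_le_mul_left _ (by omega)
          _ = 2 * (D₀ * (a + 1)) * g' := by ring
      exact_mod_cast h3
    calc (a + 1) * T * (((q * ℓ : ℕ) : ℝ) / ((g' * ℓ : ℕ) : ℝ)) ^ a
        ≤ (a + 1) * T * (2 * (D₀ * (a + 1))) ^ a := by gcongr
      _ = κ ^ (j + 1) * (C * T₀) := by
          rw [hT, hκdef, kap, pow_succ]
          ring
  · intro s hsK hs1 hs2
    exact hvan i₀ hi₀G s (mem_win.mpr ⟨hsK, hs1, hs2⟩)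

end Pool.Agent.MP_ac14a7_nt
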