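import Mathlib
import Pool.Agent.MP_ac14a7_nt.Chain

/-!
The killed integers coming from large heights are rare.
-/

open Polynomial Finset

namespace Pool.Agent.MP_ac14a7_nt

variable {N m E w q : ℕ} {K : Finset ℕ}

/-- A captured window at the top level leads to a contradiction. -/
theorem top_contradiction (N m a E : ℕ) (hN : 1 ≤ N) (hm : 1 ≤ m) (hE : 1 ≤ E) (C : ℝ)
    (hC : 1 ≤ C) :
    ∃ q₀ : ℝ, ∀ (w q : ℕ) (K : Finset ℕ) (D : Setup N m E w q K), q₀ ≤ q →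
    a * N + 2 * m + a * m ≤ w → ∀ (T₀ : ℝ), 1 ≤ T₀ → T₀ ^ m = (q : ℝ) ^ (7 * w) →
    ∀ s₀ len f, Capt D a (C * T₀) s₀ len f →
    (a * N + 2 * m) * q ^ (E - 1) + 1 ≤ #(win K s₀ len) → False := by
  classical
  obtain ⟨C₂, hC₂, hZ⟩ := small_of_zero m
  set Λ : ℕ := a * N + 2 * m with hΛ
  set c₁ : ℝ := (Λ + 1) * (C₂ * C) * ((Λ + 1) * N) ^ Λ with hc₁
  have hc₁0 : 0 ≤ c₁ := by positivity
  refine ⟨c₁ + 3, ?_⟩
  intro w q K D hq₀ hw T₀ hT₀ hT₀m s₀ len f hf hcard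
  have hq' : (1 : ℝ) ≤ q := by linarith
  have hq : 1 ≤ q := by exact_mod_cast hq'
  have hw1 : 1 ≤ w := by omega
  obtain ⟨e, heS, hesp⟩ := exists_spaced _ Λ (q ^ (E - 1)) hcard
  have hK : ∀ i, e i ∈ K := fun i => (mem_win.mp (heS i)).1
  have hT1 : 1 ≤ C * T₀ := one_le_mul_of_one_le_of_one_le hC hT₀
  have hsmall : ∀ i, |ev (e i) (D.x (e i)) f| ≤ C₂ * (C * T₀) / (q : ℝ) ^ (20 * w) := by
    intro i
    have h1 := mem_win.mp (heS i)
    exact hZ N E w q K D hq (e i) h1.1 f _ hf.deg (hf.nb _ h1.2.1 h1.2.2)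
      (hf.zero _ h1.1 h1.2.1 h1.2.2)
  have hp : (0 : ℝ) < (q : ℝ) ^ E := by positivity
  have hN' : (0 : ℝ) < N := by exact_mod_cast hN
  have hq0 : (0 : ℝ) < q := by linarith
  have hpsi : ∀ t ∈ K, ev t (D.x t) f =
      ((psi ((q : ℤ) ^ E) N f).map (Int.castRingHom ℝ)).eval (D.x t) := by
    intro t ht
    have h2 := ev_eq_psi ((q : ℤ) ^ E) N (D.x t) f
    have h3 : (((q : ℤ) ^ E : ℤ) : ℝ) * (D.x t) ^ N = t := by
      push_cast
      exact D.x_pow t ht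
    rw [h3] at h2
    rw [h2, eval_map]
    rfl
  have hdeg : (psi ((q : ℤ) ^ E) N f).natDegree ≤ Λ := psi_natDegree _ N f a (2 * m) hf.sdeg hf.deg
  have hxsp : ∀ i j, i ≠ j → 1 / ((q : ℝ) * N) ≤ |D.x (e i) - D.x (e j)| := by
    intro i j hij
    have h1 := hesp i j hij
    have h2 := abs_sub_le_of_pow N _ _ _ _ _ hp.le (by linarith [D.x_ge _ (hK i)])
      (D.x_le _ (hK i)) (by linarith [D.x_ge _ (hK j)]) (D.x_le _ (hK j))
      (D.x_pow _ (hK i)) (D.x_pow _ (hK j))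
    have h3 : (q : ℝ) ^ (E - 1) ≤ (q : ℝ) ^ E * N * |D.x (e i) - D.x (e j)| := by
      refine le_trans ?_ h2
      exact_mod_cast h1
    have h4 : (q : ℝ) ^ E = (q : ℝ) ^ (E - 1) * q := by
      rw [← pow_succ]
      congr 1
      omega
    rw [h4] at h3
    have h5 : (0 : ℝ) < (q : ℝ) ^ (E - 1) := by positivity
    rw [div_le_iff₀ (by positivity)]
    by_contra hlt
    push Not at hlt
    have h6 : (q : ℝ) ^ (E - 1) * (|D.x (e i) - D.x (e j)| * (q * N)) < (q : ℝ) ^ (E - 1) * 1 :=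
      mul_lt_mul_of_pos_left hlt h5
    have h7 : (q : ℝ) ^ (E - 1) * q * N * |D.x (e i) - D.x (e j)| =
      (q : ℝ) ^ (E - 1) * (|D.x (e i) - D.x (e j)| * (q * N)) := by ring
    linarith
  -- the polynomial `psi f` vanishes
  have hzero : ∀ z : ℕ, z ≤ Λ → (psi ((q : ℤ) ^ E) N f).eval (z : ℤ) = 0 := by
    intro z hz
    have h1 := lagrange_bound Λ ((psi ((q : ℤ) ^ E) N f).map (Int.castRingHom ℝ))
      (le_trans natDegree_map_le hdeg) (fun i => D.x (e i)) (1 / ((q : ℝ) * N)) (Λ + 1)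
      (C₂ * (C * T₀) / (q : ℝ) ^ (20 * w)) (z : ℝ) (by positivity) hxsp (by
        intro i
        have h2 := D.x_ge _ (hK i)
        have h3 := D.x_le _ (hK i)
        have h4 : (z : ℝ) ≤ Λ := by exact_mod_cast hz
        have h5 : (0 : ℝ) ≤ z := Nat.cast_nonneg z
        rw [abs_le]
        constructor <;> linarith) (by
        intro i
        rw [← hpsi _ (hK i)]
        exact hsmall i)
    have h2 : ((psi ((q : ℤ) ^ E) N f).map (Int.castRingHom ℝ)).eval (z : ℝ) =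
        (((psi ((q : ℤ) ^ E) N f).eval (z : ℤ) : ℤ) : ℝ) := by
      rw [eval_map, ← Int.cast_natCast (R := ℝ) z, ← eq_intCast (Int.castRingHom ℝ) (z : ℤ),
        eval₂_at_apply]
      simp
    rw [h2] at h1
    have h3 : ((Λ : ℝ) + 1) * (C₂ * (C * T₀) / (q : ℝ) ^ (20 * w)) *
        ((Λ + 1) / (1 / ((q : ℝ) * N))) ^ Λ < 1 := by
      have h4 : T₀ ≤ (q : ℝ) ^ (7 * w) := by
        rw [← hT₀m]
        exact le_self_pow₀ hT₀ (by omega)
      calc ((Λ : ℝ) + 1) * (C₂ * (C * T₀) / (q : ℝ) ^ (20 * w)) *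
            ((Λ + 1) / (1 / ((q : ℝ) * N))) ^ Λ
          = (c₁ * (T₀ * (q : ℝ) ^ Λ)) / (q : ℝ) ^ (20 * w) := by
            have h5 : ((Λ : ℝ) + 1) / (1 / ((q : ℝ) * N)) = ((Λ + 1) * N) * q := by
              field_simp
            rw [h5, mul_pow _ (q : ℝ), hc₁]
            ring
        _ ≤ (c₁ * ((q : ℝ) ^ (7 * w) * (q : ℝ) ^ Λ)) / (q : ℝ) ^ (20 * w) := by gcongr
        _ < 1 := by
            rw [div_lt_one (by positivity), ← pow_add]
            apply absorb c₁ q _ _ _ hq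
            · have : 0 ≤ a * m := Nat.zero_le _
              omega
            · linarith
    have h4 : |(((psi ((q : ℤ) ^ E) N f).eval (z : ℤ) : ℤ) : ℝ)| < 1 := lt_of_le_of_lt h1 h3
    have h5 : |(psi ((q : ℤ) ^ E) N f).eval (z : ℤ)| < 1 := by exact_mod_cast h4
    exact Int.abs_lt_one_iff.mp h5
  have hpsi0 : psi ((q : ℤ) ^ E) N f = 0 := by
    apply eq_zero_of_many_roots _ Λ hdeg (range (Λ + 1)) _ (by simp)
    intro z hz
    have h1 := hzero z (Nat.lt_succ_iff.mp (mem_range.mp hz))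
    have h2 : (aeval (z : ℝ) (psi ((q : ℤ) ^ E) N f) : ℝ) =
        (((psi ((q : ℤ) ^ E) N f).eval (z : ℤ) : ℤ) : ℝ) := by
      have := aeval_algebraMap_apply ℝ (z : ℤ) (psi ((q : ℤ) ^ E) N f)
      simpa using this
    rw [h2, h1, Int.cast_zero]
  -- conclusion
  have hne : 0 < Λ + 1 := Nat.succ_pos _
  set s := e ⟨0, hne⟩ with hs
  have hsW := mem_win.mp (heS ⟨0, hne⟩)
  rw [← hs] at hsW
  have h1 := eq_of_psi_eq_zero _ N f hf.irr hpsi0 s (D.β s) (hf.zero s hsW.1 hsW.2.1 hsW.2.2)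
  have h2 := D.x_pow s hsW.1
  have h3 : D.β s ^ N = D.x s ^ N := by
    have h4 : (q : ℝ) ^ E * D.β s ^ N = (q : ℝ) ^ E * D.x s ^ N := by
      rw [h2, h1]
      push_cast
      ring
    exact mul_left_cancel₀ hp.ne' h4
  have hx := D.x_ge s hsW.1
  have hβ : 0 ≤ D.β s := by
    have h4 := D.diff_le hq s hsW.1
    have h5 : 1 / (q : ℝ) ^ (20 * w) ≤ 1 / 2 := by
      apply div_le_div_of_nonneg_left (by norm_num) (by norm_num)
      calc (2 : ℝ) ≤ q := by linarith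
        _ = (q : ℝ) ^ 1 := (pow_one _).symm
        _ ≤ (q : ℝ) ^ (20 * w) := pow_le_pow_right₀ hq' (by omega)
    have h6 := le_abs_self (D.x s - D.β s)
    linarith
  exact D.ne s hsW.1 ((pow_left_inj₀ hβ (by linarith) (by omega)).mp h3)

/-- If `K` is large, then there is a dense window at the top level. -/
theorem exists_dense_window (q E D₀ K₀ : ℕ) (K : Finset ℕ) (δ : ℝ) (hq : 1 ≤ q)
    (hE : 1 ≤ E) (hD₀ : 1 ≤ D₀) (hqD : D₀ ≤ q) (hD : (2 : ℝ) ^ E * K₀ ≤ δ * D₀)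
    (hK₀ : 1 ≤ K₀) (hK : ∀ s ∈ K, s ≤ q ^ E) (hcard : δ * (q : ℝ) ^ E ≤ #K) :
    ∃ s₀, K₀ * (2 * q) ^ (E - 1) ≤ #(win K s₀ (D₀ * q ^ (E - 1))) := by
  classical
  by_contra hno
  push Not at hno
  set ℓ := D₀ * q ^ (E - 1) with hℓ
  have hℓ0 : 0 < ℓ := by positivity
  set M := q / D₀ + 1 with hM
  have hsub : K ⊆ (range M).biUnion fun i => win K (i * ℓ) ℓ := by
    intro s hs
    rw [mem_biUnion]
    have hdiv := Nat.div_add_mod s ℓ
    have hmod := Nat.mod_lt s hℓ0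
    refine ⟨s / ℓ, ?_, ?_⟩
    · rw [mem_range, hM, Nat.lt_succ_iff]
      rw [Nat.le_div_iff_mul_le (by omega)]
      have h1 : s / ℓ * ℓ ≤ q ^ E := le_trans (Nat.div_mul_le_self s ℓ) (hK s hs)
      have h2 : q ^ E = q * q ^ (E - 1) := by
        rw [← pow_succ']
        congr 1
        omega
      rw [h2] at h1
      have h3 : s / ℓ * ℓ = (s / ℓ * D₀) * q ^ (E - 1) := by
        rw [hℓ]
        ring
      rw [h3] at h1
      exact Nat.le_of_mul_le_mul_right h1 (by positivity)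
    · rw [mem_win]
      refine ⟨hs, ?_, ?_⟩
      · rw [mul_comm] at hdiv
        omega
      · rw [mul_comm] at hdiv
        omega
  have h1 : #K ≤ ∑ i ∈ range M, #(win K (i * ℓ) ℓ) := le_trans (card_le_card hsub) card_biUnion_le
  have h2 : ∑ i ∈ range M, #(win K (i * ℓ) ℓ) < M * (K₀ * (2 * q) ^ (E - 1)) := by
    calc ∑ i ∈ range M, #(win K (i * ℓ) ℓ) < ∑ _i ∈ range M, K₀ * (2 * q) ^ (E - 1) := by
          apply sum_lt_sum_of_nonempty
          · rw [nonempty_range_iff, hM]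
            exact Nat.succ_ne_zero _
          · intro i _
            exact hno _
      _ = M * (K₀ * (2 * q) ^ (E - 1)) := by rw [sum_const, card_range, smul_eq_mul]
  have h3 : #K < M * (K₀ * (2 * q) ^ (E - 1)) := lt_of_le_of_lt h1 h2
  have hD₀' : (0 : ℝ) < D₀ := by exact_mod_cast hD₀
  have h4 : (M : ℝ) * D₀ ≤ 2 * q := by
    have h5 : M * D₀ ≤ 2 * q := by
      have := Nat.div_mul_le_self q D₀
      rw [hM]
      have h6 : (q / D₀ + 1) * D₀ = q / D₀ * D₀ + D₀ := by ring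
      omega
    exact_mod_cast h5
  have h5 : (#K : ℝ) < M * (K₀ * (2 * q) ^ (E - 1)) := by exact_mod_cast h3
  have h6 : (#K : ℝ) * D₀ < δ * (q : ℝ) ^ E * D₀ := by
    calc (#K : ℝ) * D₀ < M * (K₀ * (2 * q) ^ (E - 1)) * D₀ := by gcongr
      _ = (M * D₀) * (K₀ * (2 * q) ^ (E - 1)) := by ring
      _ ≤ (2 * q) * (K₀ * (2 * q) ^ (E - 1)) := by gcongr
      _ = K₀ * (2 * (q : ℝ)) ^ E := by
          have : (2 * (q : ℝ)) ^ E = (2 * q) * (2 * q) ^ (E - 1) := by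
            rw [← pow_succ']
            congr 1
            omega
          rw [this]
          ring
      _ = (2 : ℝ) ^ E * K₀ * (q : ℝ) ^ E := by rw [mul_pow]; ring
      _ ≤ δ * D₀ * (q : ℝ) ^ E := by gcongr
      _ = δ * (q : ℝ) ^ E * D₀ := by ring
  have h7 : (#K : ℝ) < δ * (q : ℝ) ^ E := lt_of_mul_lt_mul_right h6 hD₀'.le
  linarith

/-- The killed integers coming from large heights are rare. -/
theorem nontrivial_region (N m E w k a : ℕ) (hN : 1 ≤ N) (hm : 1 ≤ m) (hE : 1 ≤ E)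
    (hk : 12 * w ≤ k * E) (ha : a + 1 = 10 * k) (hw : a * N + 2 * m + a * m ≤ w)
    (δ : ℝ) (hδ : 0 < δ) :
    ∃ q₀ : ℕ, ∀ q : ℕ, q₀ ≤ q → ∀ K : Finset ℕ,
      (∀ s ∈ K, Killed N m ((q : ℝ) ^ E) ((q : ℝ) ^ (2 * w)) ((q : ℝ) ^ (20 * w)) s) →
      (K.card : ℝ) < δ * (q : ℝ) ^ E := by
  classical
  have hk1 : 1 ≤ k := by omega
  have hw11 : 11 ≤ w := by
    have h1 : 9 ≤ a := by omega
    have h2 : a * 1 ≤ a * N := Nat.mul_le_mul_left a hN
    omega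
  set K₀ : ℕ := 11 * k + (a + 2 * m) * (a * N + 2 * m) + 2 * (2 * m) * a + (a * N + 2 * m) + 1
    with hK₀
  obtain ⟨D₁, hD₁⟩ := exists_nat_ge ((2 : ℝ) ^ E * K₀ / δ)
  set D₀ : ℕ := D₁ + 2 * a + 1 with hD₀
  obtain ⟨C, hC, hbase⟩ := base_capture N m k a D₀ K₀ hN hm hk1 ha (by omega) (by omega)
    (by omega)
  obtain ⟨q₁, hchain⟩ := chain_step N m a D₀ K₀ E hN hm (by omega) (by omega) (by omega) C hC
  have hκ := one_le_kap a D₀ (by omega)
  obtain ⟨q₂, htop⟩ := top_contradiction N m a E hN hm hE (kap a D₀ ^ (E - 1) * C)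
    (one_le_mul_of_one_le_of_one_le (one_le_pow₀ hκ) hC)
  obtain ⟨q₀, hq₀⟩ := exists_nat_ge (max (max C q₁) (max q₂ D₀))
  refine ⟨q₀ + 1, ?_⟩
  intro q hq K hK
  have hqr : (q₀ : ℝ) ≤ q := by
    have : q₀ ≤ q := by omega
    exact_mod_cast this
  have hqC : C ≤ q := le_trans (le_trans (le_trans (le_max_left _ _) (le_max_left _ _)) hq₀) hqr
  have hqq₁ : q₁ ≤ q := le_trans (le_trans (le_trans (le_max_right _ _) (le_max_left _ _)) hq₀) hqr
  have hqq₂ : q₂ ≤ q := le_trans (le_trans (le_trans (le_max_left _ _) (le_max_right _ _)) hq₀) hqr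
  have hqD₀ : (D₀ : ℝ) ≤ q :=
    le_trans (le_trans (le_trans (le_max_right _ _) (le_max_right _ _)) hq₀) hqr
  have hqD₀' : D₀ ≤ q := by exact_mod_cast hqD₀
  have hq1 : 1 ≤ q := by omega
  have hq' : (1 : ℝ) ≤ q := by exact_mod_cast hq1
  obtain ⟨D⟩ := exists_setup N m E w q K hK
  obtain ⟨T₀, hT₀, hT₀m⟩ : ∃ T₀ : ℝ, 1 ≤ T₀ ∧ T₀ ^ m = (q : ℝ) ^ (7 * w) := by
    refine ⟨((q : ℝ) ^ (7 * w)) ^ ((1 : ℝ) / m), ?_, ?_⟩
    · exact Real.one_le_rpow (one_le_pow₀ hq') (by positivity)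
    · have hm0 : (m : ℝ) ≠ 0 := by
        have : m ≠ 0 := by omega
        exact_mod_cast this
      rw [← Real.rpow_natCast, ← Real.rpow_mul (by positivity), one_div, inv_mul_cancel₀ hm0,
        Real.rpow_one]
  by_contra hcon
  push Not at hcon
  have hKle : ∀ s ∈ K, s ≤ q ^ E := by
    intro s hs
    have h1 := D.x_pow s hs
    have h2 : D.x s ^ N ≤ 1 := pow_le_one₀ (by linarith [D.x_ge s hs]) (D.x_le s hs)
    have h3 : (s : ℝ) ≤ (q : ℝ) ^ E := by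
      rw [← h1]
      have : (0 : ℝ) ≤ (q : ℝ) ^ E := by positivity
      nlinarith
    exact_mod_cast h3
  obtain ⟨s₀, hs₀⟩ := exists_dense_window q E D₀ K₀ K δ hq1 hE (by omega) hqD₀' (by
    rw [div_le_iff₀ hδ] at hD₁
    have h1 : (D₁ : ℝ) ≤ D₀ := by
      have : D₁ ≤ D₀ := by omega
      exact_mod_cast this
    nlinarith) (by omega) hKle hcon
  have hlevels : ∀ j, j ≤ E - 1 → ∀ s₀, K₀ * (2 * q) ^ j ≤ #(win K s₀ (D₀ * q ^ j)) →
      ∃ f, Capt D a (kap a D₀ ^ j * (C * T₀)) s₀ (D₀ * q ^ j) f := by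
    intro j
    induction j with
    | zero =>
      intro _ s₀ h
      rw [pow_zero, mul_one] at h
      rw [pow_zero, mul_one] at h
      rw [pow_zero, pow_zero, one_mul, mul_one]
      exact hbase E w q K D hqC hE hk hw11 T₀ hT₀ hT₀m s₀ h
    | succ j ih =>
      intro hj
      exact hchain E w q K D hqq₁ hw T₀ hT₀ hT₀m j (by omega) (ih (by omega))
  obtain ⟨f, hf⟩ := hlevels (E - 1) le_rfl s₀ hs₀
  apply htop w q K D hqq₂ hw T₀ hT₀ hT₀m s₀ (D₀ * q ^ (E - 1)) f (by rwa [mul_assoc])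
  refine le_trans ?_ hs₀
  have h1 : K₀ * (2 * q) ^ (E - 1) = K₀ * q ^ (E - 1) * 2 ^ (E - 1) := by rw [mul_pow]; ring
  have h2 : K₀ * q ^ (E - 1) ≤ K₀ * q ^ (E - 1) * 2 ^ (E - 1) :=
    Nat.le_mul_of_pos_right _ (by positivity)
  have h3 : (a * N + 2 * m + 1) * q ^ (E - 1) ≤ K₀ * q ^ (E - 1) :=
    Nat.mul_le_mul_right _ (by omega)
  have h4 : (a * N + 2 * m + 1) * q ^ (E - 1) = (a * N + 2 * m) * q ^ (E - 1) + q ^ (E - 1) := by
    ring
  have h5 : 0 < q ^ (E - 1) := by positivity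
  omega

end Pool.Agent.MP_ac14a7_nt
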