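import Mathlib
import Pool.Agent.MP_ac14a7_nt.Defs

/-!
The properties of the number to be constructed.
-/

open Polynomial

namespace Pool.Agent.MP_ac14a7_nt

/-- The properties of the number to be constructed. -/
structure Good (c k : ℕ) (ξ : ℝ) : Prop where
  half_le : 1 / 2 ≤ ξ
  le_one : ξ ≤ 1
  approx : ∀ n : ℕ, 1 ≤ n → ∀ K : ℕ, ∃ (p B : ℕ) (x : ℝ), K ≤ p ∧ 2 ≤ p ∧ B ≤ p ∧ 1 / 2 ≤ x ∧
    x ≤ 1 ∧ (p : ℝ) * x ^ (k * n) = B ∧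
    Irreducible (C (p : ℤ) * X ^ n - C (B : ℤ)) ∧
    0 < |ξ - x| ∧ |ξ - x| ≤ 1 / (p : ℝ) ^ (c * k * n)
  bad : ∀ m : ℕ, 1 ≤ m → ∃ H₀ : ℕ, ∀ (Q : ℤ[X]) (β : ℝ), Irreducible Q → Q.natDegree = m →
    aeval β Q = 0 → H₀ ≤ height Q → 1 / (height Q : ℝ) ^ (c * m + 1) ≤ |ξ - β|

end Pool.Agent.MP_ac14a7_nt
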