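import Mathlib
import Pool.Agent.MP_ac14a7_nt.Defs
import Pool.Agent.MP_ac14a7_nt.GoodDef

/-!
Step E: the nested intervals. `exists_good_of_stage` deduces the existence of a good number from
the statement of Step D (passed as a hypothesis).
-/

open Polynomial

namespace Pool.Agent.MP_ac14a7_nt

/-- The statement of Step D (`stage`) for given `c`, `k`, `M`, `n`, with its constant `ρ`. -/
def StageAt (c k M n : ℕ) (ρ : ℝ) : Prop :=
  ∀ r₀ l : ℝ, 0 < r₀ → r₀ ≤ ρ → 1 / 2 ≤ l → l ≤ 3 / 4 →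
      ∀ ε : ℝ, 0 < ε → ∃ (p B : ℕ) (x r : ℝ), 2 ≤ p ∧ B ≤ p ∧ l ≤ x ∧ x ≤ l + r₀ / 4 ∧ x ≤ 1 ∧
        0 < r ∧ r ≤ ε ∧ r ≤ r₀ / 4 ∧ r = 1 / (p : ℝ) ^ (c * k * n) ∧
        (p : ℝ) * x ^ (k * n) = B ∧
        Irreducible (C (p : ℤ) * X ^ (k * n) - C (B : ℤ)) ∧
        Irreducible (C (p : ℤ) * X ^ n - C (B : ℤ)) ∧
        ∀ (Q : ℤ[X]) (β : ℝ), Irreducible Q → 1 ≤ Q.natDegree → Q.natDegree ≤ M →
          aeval β Q = 0 → β ≠ x →
          1 < (height Q : ℝ) ^ (2 * (c * Q.natDegree + 1)) * r₀ ^ 3 →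
          (height Q : ℝ) ^ (2 * (c * Q.natDegree + 1)) * r ^ 3 ≤ 1 →
          2 / (height Q : ℝ) ^ (c * Q.natDegree + 1) ≤ |x - β| ∧ 3 * r ≤ |x - β|

namespace Nested

/-- Two irreducible non-constant integer polynomials with a common real root are associated. -/
theorem associated_of_common_root {P Q : ℤ[X]} (hP : Irreducible P) (hQ : Irreducible Q)
    (hPd : 1 ≤ P.natDegree) (hQd : 1 ≤ Q.natDegree) {β : ℝ} (h1 : aeval β P = 0)
    (h2 : aeval β Q = 0) : Associated P Q := by
  have hPp : P.IsPrimitive := hP.isPrimitive (by omega)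
  have hQp : Q.IsPrimitive := hQ.isPrimitive (by omega)
  have hP' : Irreducible (P.map (Int.castRingHom ℚ)) :=
    (IsPrimitive.Int.irreducible_iff_irreducible_map_cast hPp).1 hP
  have hQ' : Irreducible (Q.map (Int.castRingHom ℚ)) :=
    (IsPrimitive.Int.irreducible_iff_irreducible_map_cast hQp).1 hQ
  have key : ∀ R : ℤ[X], aeval β R = 0 → aeval β (R.map (Int.castRingHom ℚ)) = 0 := by
    intro R hR
    have := Polynomial.aeval_map_algebraMap (A := ℚ) (R := ℤ) β R
    rw [← hR, ← this]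
    rfl
  have d1 : minpoly ℚ β ∣ P.map (Int.castRingHom ℚ) := minpoly.dvd ℚ β (key P h1)
  have d2 : minpoly ℚ β ∣ Q.map (Int.castRingHom ℚ) := minpoly.dvd ℚ β (key Q h2)
  have hint : IsIntegral ℚ β := by
    refine IsAlgebraic.isIntegral ⟨P.map (Int.castRingHom ℚ), hP'.ne_zero, key P h1⟩
  have hm : Irreducible (minpoly ℚ β) := minpoly.irreducible hint
  have a1 : Associated (minpoly ℚ β) (P.map (Int.castRingHom ℚ)) :=
    hm.associated_of_dvd hP' d1
  have a2 : Associated (minpoly ℚ β) (Q.map (Int.castRingHom ℚ)) :=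
    hm.associated_of_dvd hQ' d2
  have a3 : P.map (Int.castRingHom ℚ) ∣ Q.map (Int.castRingHom ℚ) := (a1.symm.trans a2).dvd
  have a4 : P ∣ Q := (IsPrimitive.Int.dvd_iff_map_cast_dvd_map_cast P Q hPp).2 a3
  exact hP.associated_of_dvd hQ a4

theorem height_eq_of_associated {P Q : ℤ[X]} (h : Associated P Q) : height P = height Q := by
  obtain ⟨u, hu⟩ := h
  obtain ⟨v, hv, hvu⟩ := Polynomial.isUnit_iff.1 u.isUnit
  have hv' : v = 1 ∨ v = -1 := Int.isUnit_iff.1 hv
  have hQ : Q = P ∨ Q = -P := by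
    rcases hv' with h1 | h1
    · left; rw [← hu, ← hvu, h1]; simp
    · right; rw [← hu, ← hvu, h1]; simp
  rcases hQ with h1 | h1
  · rw [h1]
  · rw [h1]; simp [height]

theorem natDegree_binomial (p B N : ℕ) (hp : 2 ≤ p) :
    (C (p : ℤ) * X ^ N - C (B : ℤ) : ℤ[X]).natDegree = N := by
  rw [natDegree_sub_C, natDegree_C_mul_X_pow]
  exact_mod_cast (show p ≠ 0 by omega)

theorem height_binomial (p B N : ℕ) (hp : 2 ≤ p) (hB : B ≤ p) (hN : 1 ≤ N) :
    height (C (p : ℤ) * X ^ N - C (B : ℤ) : ℤ[X]) = p := by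
  have hcoeff : ∀ i, (C (p : ℤ) * X ^ N - C (B : ℤ) : ℤ[X]).coeff i =
      (if i = N then (p : ℤ) else 0) - (if i = 0 then (B : ℤ) else 0) := by
    intro i
    rw [coeff_sub, coeff_C_mul, coeff_X_pow, coeff_C]
    split_ifs <;> simp
  apply le_antisymm
  · unfold height
    apply Finset.sup_le
    intro i _
    rw [hcoeff]
    split_ifs with h1 h2
    · omega
    · simp
    · simpa using hB
    · simp
  · unfold height
    have hmem : N ∈ (C (p : ℤ) * X ^ N - C (B : ℤ) : ℤ[X]).support := by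
      rw [mem_support_iff, hcoeff]
      have : N ≠ 0 := by omega
      simp [this]
      omega
    refine le_trans ?_ (Finset.le_sup (f := fun i =>
      ((C (p : ℤ) * X ^ N - C (B : ℤ) : ℤ[X]).coeff i).natAbs) hmem)
    simp only [hcoeff]
    have : N ≠ 0 := by omega
    simp [this]

/-- The state after some stages: left endpoint `l` and length parameter `r`. -/
structure St where
  l : ℝ
  r : ℝ

/-- The index of `n` treated at stage `i` (so that every `n ≥ 1` is treated infinitely often). -/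
def nn (i : ℕ) : ℕ := (Nat.unpair i).1 + 1

theorem exists_nn (n : ℕ) (hn : 1 ≤ n) (K : ℕ) : ∃ i, K ≤ i ∧ nn i = n := by
  refine ⟨Nat.pair (n - 1) K, Nat.right_le_pair _ _, ?_⟩
  simp [nn, Nat.unpair_pair]
  omega

/-- What is kept about one stage. -/
structure Step (c k i : ℕ) (s t : St) (p B : ℕ) (x : ℝ) : Prop where
  two_le : 2 ≤ p
  hB : B ≤ p
  lx : s.l ≤ x
  xl : x ≤ s.l + s.r / 4
  x1 : x ≤ 1
  rpos : 0 < t.r
  r4 : t.r ≤ s.r / 4
  rdef : t.r = 1 / (p : ℝ) ^ (c * k * nn i)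
  root : (p : ℝ) * x ^ (k * nn i) = B
  irr1 : Irreducible (C (p : ℤ) * X ^ (k * nn i) - C (B : ℤ))
  irr2 : Irreducible (C (p : ℤ) * X ^ (nn i) - C (B : ℤ))
  far : ∀ (Q : ℤ[X]) (β : ℝ), Irreducible Q → 1 ≤ Q.natDegree → Q.natDegree ≤ i + 1 →
          aeval β Q = 0 → β ≠ x →
          1 < (height Q : ℝ) ^ (2 * (c * Q.natDegree + 1)) * s.r ^ 3 →
          (height Q : ℝ) ^ (2 * (c * Q.natDegree + 1)) * t.r ^ 3 ≤ 1 →
          2 / (height Q : ℝ) ^ (c * Q.natDegree + 1) ≤ |x - β| ∧ 3 * t.r ≤ |x - β|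
  tl : t.l = x + t.r / 2

end Nested

open Nested in
/-- Step E, with Step D as a hypothesis. -/
theorem exists_good_of_stage (c k : ℕ) (_hc : 32 ≤ c) (hk : 2 ≤ k)
    (hstage : ∀ M n : ℕ, 1 ≤ n → ∃ ρ : ℝ, 0 < ρ ∧ StageAt c k M n ρ) : ∃ ξ : ℝ, Good c k ξ := by
  have hstage' : ∀ i : ℕ, ∃ ρ : ℝ, 0 < ρ ∧ StageAt c k (i + 1) (nn i) ρ := fun i =>
    hstage (i + 1) (nn i) (by unfold nn; omega)
  choose ρ hρ0 hρ using hstage'
  -- the invariant
  let Inv : ℕ → St → Prop := fun i s => 0 < s.r ∧ s.r ≤ ρ i ∧ 1 / 2 ≤ s.l ∧ s.l + s.r / 2 ≤ 3 / 4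
  have hstep : ∀ i s, Inv i s → ∃ t : St, Inv (i + 1) t ∧ ∃ (p B : ℕ) (x : ℝ),
      Step c k i s t p B x := by
    rintro i s ⟨h1, h2, h3, h4⟩
    obtain ⟨p, B, x, r, g1, g2, g3, g4, g5, g6, g7, g8, g9, g10, g11, g12, g13⟩ :=
      hρ i s.r s.l h1 h2 h3 (by linarith) (ρ (i + 1)) (hρ0 (i + 1))
    refine ⟨⟨x + r / 2, r⟩, ⟨g6, g7, ?_, ?_⟩, p, B, x, ?_⟩
    · show 1 / 2 ≤ x + r / 2
      linarith
    · show x + r / 2 + r / 2 ≤ 3 / 4
      linarith
    · exact ⟨g1, g2, g3, g4, g5, g6, g8, g9, g10, g11, g12, g13, rfl⟩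
  -- the sequence of states
  have hexists : ∃ S : ℕ → St, ∀ i, Inv i (S i) ∧ ∃ (p B : ℕ) (x : ℝ),
      Step c k i (S i) (S (i + 1)) p B x := by
    have h0 : Inv 0 ⟨1 / 2, min (ρ 0) (1 / 2)⟩ := by
      refine ⟨lt_min (hρ0 0) (by norm_num), min_le_left _ _, le_refl _, ?_⟩
      have := min_le_right (ρ 0) (1 / 2 : ℝ)
      show (1 / 2 : ℝ) + min (ρ 0) (1 / 2) / 2 ≤ 3 / 4
      linarith
    choose! f hf1 hf2 using hstep
    let S : ℕ → St := fun i => Nat.rec ⟨1 / 2, min (ρ 0) (1 / 2)⟩ (fun i s => f i s) i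
    have hS0 : S 0 = ⟨1 / 2, min (ρ 0) (1 / 2)⟩ := rfl
    have hS : ∀ i, S (i + 1) = f i (S i) := fun i => rfl
    have hI : ∀ i, Inv i (S i) := by
      intro i
      induction i with
      | zero => rw [hS0]; exact h0
      | succ i ih => rw [hS]; exact hf1 i _ ih
    exact ⟨S, fun i => ⟨hI i, by rw [hS]; exact hf2 i _ (hI i)⟩⟩
  obtain ⟨S, hS⟩ := hexists
  have hInv : ∀ i, Inv i (S i) := fun i => (hS i).1
  choose p B x hx using fun i => (hS i).2
  clear hS hstep
  have hrpos : ∀ i, 0 < (S i).r := fun i => (hInv i).1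
  have hr4 : ∀ i, (S (i + 1)).r ≤ (S i).r / 4 := fun i => (hx i).r4
  have hr0 : (S 0).r ≤ 1 / 2 := by
    have h := (hInv 0)
    have h3 := h.2.2.1
    have h4 := h.2.2.2
    linarith
  have hrb : ∀ i, (S i).r ≤ (1 / 4) ^ i := by
    intro i
    induction i with
    | zero => simpa using hr0.trans (by norm_num)
    | succ i ih =>
      have := hr4 i
      rw [pow_succ]
      linarith
  have hranti : Antitone fun i => (S i).r := by
    refine antitone_nat_of_succ_le fun i => ?_
    have := hr4 i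
    have := hrpos i
    linarith
  -- nested intervals
  have hlmono : Monotone fun i => (S i).l := by
    refine monotone_nat_of_le_succ fun i => ?_
    have h1 := (hx i).tl
    have h2 := (hx i).lx
    have h3 := hrpos (i + 1)
    show (S i).l ≤ (S (i + 1)).l
    rw [h1]; linarith
  have huanti : Antitone fun i => (S i).l + (S i).r / 2 := by
    refine antitone_nat_of_succ_le fun i => ?_
    have h1 := (hx i).tl
    have h2 := (hx i).xl
    have h3 := hr4 i
    show (S (i + 1)).l + (S (i + 1)).r / 2 ≤ (S i).l + (S i).r / 2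
    rw [h1]; linarith
  have hlu : ∀ i j, (S i).l ≤ (S j).l + (S j).r / 2 := by
    intro i j
    rcases le_total i j with h | h
    · have h1 : (S i).l ≤ (S j).l := hlmono h
      have := hrpos j
      linarith
    · have h1 : (S i).l + (S i).r / 2 ≤ (S j).l + (S j).r / 2 := huanti h
      have := hrpos i
      linarith
  have hbdd : BddAbove (Set.range fun i => (S i).l) := by
    refine ⟨(S 0).l + (S 0).r / 2, ?_⟩
    rintro _ ⟨i, rfl⟩
    exact hlu i 0
  set ξ : ℝ := ⨆ i, (S i).l with hξdef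
  have hξl : ∀ i, (S i).l ≤ ξ := fun i => le_ciSup hbdd i
  have hξu : ∀ i, ξ ≤ (S i).l + (S i).r / 2 := fun i => ciSup_le fun j => hlu j i
  have hξx1 : ∀ i, (S (i + 1)).r / 2 ≤ ξ - x i := by
    intro i
    have h1 := hξl (i + 1)
    have h2 := (hx i).tl
    linarith
  have hξx2 : ∀ i, ξ - x i ≤ (S (i + 1)).r := by
    intro i
    have h1 := hξu (i + 1)
    have h2 := (hx i).tl
    linarith
  have hx12 : ∀ i, 1 / 2 ≤ x i := by
    intro i
    have h1 := (hx i).lx
    have h2 := (hInv i).2.2.1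
    linarith
  refine ⟨ξ, ?_, ?_, ?_, ?_⟩
  · exact (hInv 0).2.2.1.trans (hξl 0)
  · have h1 := hξu 0
    have h2 := (hInv 0).2.2.2
    linarith
  · -- good approximations
    intro n hn K
    obtain ⟨i, hi1, hi2⟩ := exists_nn n hn (K ^ (c * k * n))
    have hs := hx i
    have hrd := hs.rdef
    rw [hi2] at hrd
    refine ⟨p i, B i, x i, ?_, hs.two_le, hs.hB, hx12 i, hs.x1, ?_, ?_, ?_, ?_⟩
    · by_contra hlt
      push Not at hlt
      have h1 : (p i : ℝ) ^ (c * k * n) ≤ (K : ℝ) ^ (c * k * n) := by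
        apply pow_le_pow_left₀ (by positivity)
        exact_mod_cast hlt.le
      have h2 : (K : ℝ) ^ (c * k * n) ≤ i := by exact_mod_cast hi1
      have h3 : (S (i + 1)).r ≤ (1 / 4) ^ (i + 1) := hrb (i + 1)
      have h4 : (4 : ℝ) ^ (i + 1) ≤ (p i : ℝ) ^ (c * k * n) := by
        have h5 : 1 / (p i : ℝ) ^ (c * k * n) ≤ 1 / 4 ^ (i + 1) := by
          rw [← hrd]
          refine h3.trans (le_of_eq ?_)
          rw [div_pow, one_pow]
        have hp2 := hs.two_le
        have hp0 : (0 : ℝ) < (p i : ℝ) ^ (c * k * n) := by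
          have : (0 : ℝ) < p i := by exact_mod_cast (show 0 < p i by omega)
          positivity
        exact (one_div_le_one_div hp0 (by positivity)).1 h5
      have h6 : ((i : ℕ) : ℝ) < 4 ^ (i + 1) := by
        have : i < 4 ^ (i + 1) := (Nat.lt_pow_self (by norm_num : 1 < 4)).trans_le
          (Nat.pow_le_pow_right (by norm_num) (Nat.le_succ i))
        exact_mod_cast this
      linarith
    · have := hs.root
      rw [hi2] at this
      exact this
    · have := hs.irr2
      rw [hi2] at this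
      exact this
    · have h1 := hξx1 i
      have h2 := hrpos (i + 1)
      have : 0 < ξ - x i := by linarith
      exact abs_pos.2 this.ne'
    · have h1 := hξx1 i
      have h2 := hrpos (i + 1)
      have h3 := hξx2 i
      have : 0 < ξ - x i := by linarith
      rw [abs_of_pos this, ← hrd]
      exact h3
  · -- no better approximations
    intro m hm
    have hrm := hrpos m
    obtain ⟨H₀, hH₀⟩ := exists_nat_gt (1 / (S m).r ^ 3)
    refine ⟨H₀ + 1, ?_⟩
    intro Q β hQ hQm hβ hH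
    have hH1 : (1 : ℝ) ≤ height Q := by
      have : 1 ≤ height Q := by omega
      exact_mod_cast this
    have hHH : (H₀ : ℝ) ≤ height Q := by
      have : H₀ ≤ height Q := by omega
      exact_mod_cast this
    set H : ℝ := (height Q : ℝ) with hHdef
    have hHpow : H ≤ H ^ (2 * (c * m + 1)) := le_self_pow₀ hH1 (by omega)
    have hbig : 1 < H ^ (2 * (c * m + 1)) * (S m).r ^ 3 := by
      have h1 : 1 / (S m).r ^ 3 < H ^ (2 * (c * m + 1)) := by linarith
      rw [div_lt_iff₀ (by positivity)] at h1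
      exact h1
    -- existence of the first index
    have hex : ∃ j, H ^ (2 * (c * m + 1)) * (S j).r ^ 3 ≤ 1 := by
      obtain ⟨j, hj⟩ := exists_pow_lt_of_lt_one
        (show (0 : ℝ) < 1 / H ^ (2 * (c * m + 1)) by positivity) (show (1 / 4 : ℝ) < 1 by norm_num)
      refine ⟨j, ?_⟩
      have h1 : (S j).r ^ 3 ≤ (S j).r := by
        have h0 := hrpos j
        have h2 : (S j).r ≤ 1 := (hrb j).trans (pow_le_one₀ (by norm_num) (by norm_num))
        calc (S j).r ^ 3 ≤ (S j).r ^ 1 := pow_le_pow_of_le_one h0.le h2 (by norm_num)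
          _ = (S j).r := pow_one _
      have h3 : (S j).r ^ 3 ≤ 1 / H ^ (2 * (c * m + 1)) := by
        have := hrb j
        linarith
      calc H ^ (2 * (c * m + 1)) * (S j).r ^ 3
          ≤ H ^ (2 * (c * m + 1)) * (1 / H ^ (2 * (c * m + 1))) := by gcongr
        _ = 1 := by field_simp
    classical
    let j := Nat.find hex
    have hj1 : H ^ (2 * (c * m + 1)) * (S j).r ^ 3 ≤ 1 := Nat.find_spec hex
    have hj2 : ∀ i, i < j → 1 < H ^ (2 * (c * m + 1)) * (S i).r ^ 3 := fun i hi => by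
      have := Nat.find_min hex hi
      push Not at this
      exact this
    have hjm : m < j := by
      by_contra hle
      push Not at hle
      have h1 : (S m).r ≤ (S j).r := hranti hle
      have h2 : (S m).r ^ 3 ≤ (S j).r ^ 3 := pow_le_pow_left₀ hrm.le h1 3
      have h3 : H ^ (2 * (c * m + 1)) * (S m).r ^ 3 ≤ H ^ (2 * (c * m + 1)) * (S j).r ^ 3 := by
        gcongr
      linarith
    obtain ⟨i, hi⟩ : ∃ i, j = i + 1 := ⟨j - 1, by omega⟩
    rw [hi] at hj1 hjm
    have hi2 := hj2 i (by omega)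
    have hs := hx i
    have hx1 := hξx1 i
    have hx2 := hξx2 i
    have hr' := hrpos (i + 1)
    by_cases hβx : β = x i
    · -- `Q` is the polynomial of stage `i`
      have hroot : aeval (x i) (C (p i : ℤ) * X ^ (k * nn i) - C (B i : ℤ) : ℤ[X]) = 0 := by
        have := hs.root
        simp [this]
      have hnn : 1 ≤ nn i := by unfold nn; omega
      have hkn : 1 ≤ k * nn i := Nat.mul_pos (by omega) hnn
      have hass : Associated Q (C (p i : ℤ) * X ^ (k * nn i) - C (B i : ℤ)) := by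
        refine associated_of_common_root hQ hs.irr1 (by omega) ?_ (β := x i) ?_ hroot
        · rw [natDegree_binomial _ _ _ hs.two_le]; exact hkn
        · rw [← hβx]; exact hβ
      have hdeg : m = k * nn i := by
        rw [← hQm, ← natDegree_binomial (p i) (B i) (k * nn i) hs.two_le]
        exact Polynomial.natDegree_eq_of_degree_eq (Polynomial.degree_eq_degree_of_associated hass)
      have hht : height Q = p i := by
        rw [height_eq_of_associated hass, height_binomial _ _ _ hs.two_le hs.hB hkn]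
      have hp2 : (2 : ℝ) ≤ p i := by exact_mod_cast hs.two_le
      rw [hβx]
      have habs : (S (i + 1)).r / 2 ≤ |ξ - x i| := hx1.trans (le_abs_self _)
      refine le_trans ?_ habs
      rw [hs.rdef, hHdef, hht, pow_succ, hdeg, ← mul_assoc, div_div]
      have hpp : (0 : ℝ) < (p i : ℝ) ^ (c * k * nn i) := by positivity
      exact one_div_le_one_div_of_le (by positivity) (by gcongr)
    · have hfar := hs.far Q β hQ (by omega) (by omega) hβ hβx (by rw [hQm]; exact hi2)
        (by rw [hQm]; exact hj1)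
      rw [hQm] at hfar
      obtain ⟨f1, f2⟩ := hfar
      have h1 : |x i - β| ≤ |ξ - β| + |ξ - x i| := by
        have : x i - β = (ξ - β) - (ξ - x i) := by ring
        rw [this]
        exact abs_sub _ _
      have h2 : |ξ - x i| ≤ (S (i + 1)).r := by
        rw [abs_of_pos (by linarith)]
        exact hx2
      have h3 : 0 < H ^ (c * m + 1) := by positivity
      have h4 : 2 / H ^ (c * m + 1) = 2 * (1 / H ^ (c * m + 1)) := by ring
      have h5 : 0 < 1 / H ^ (c * m + 1) := by positivity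
      rw [← hHdef, h4] at f1
      linarith

end Pool.Agent.MP_ac14a7_nt
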