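import Mathlib
import Pool.Agent.MP_ac14a7_nt.Defs

/-!
Step C: the trivial counting.
-/

open Polynomial

namespace Pool.Agent.MP_ac14a7_nt

namespace Triv

lemma one_le_height {Q : ℤ[X]} (hQ : Q ≠ 0) : 1 ≤ height Q := by
  obtain ⟨i, hi⟩ := Polynomial.support_nonempty.mpr hQ
  have h1 : (Q.coeff i).natAbs ≤ height Q :=
    Finset.le_sup (f := fun i => (Q.coeff i).natAbs) hi
  have h2 : Q.coeff i ≠ 0 := Polynomial.mem_support_iff.mp hi
  have h3 : 1 ≤ (Q.coeff i).natAbs := Int.natAbs_pos.mpr h2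
  omega

lemma coeff_le_height (Q : ℤ[X]) (i : ℕ) : (Q.coeff i).natAbs ≤ height Q := by
  by_cases hi : i ∈ Q.support
  · exact Finset.le_sup (f := fun i => (Q.coeff i).natAbs) hi
  · have : Q.coeff i = 0 := by simpa using hi
    simp [this]

/-- one-variable weight -/
noncomputable def g (z : ℤ) : ℝ := 1 / (max 1 |(z : ℝ)|) ^ 2

lemma g_nonneg (z : ℤ) : 0 ≤ g z := by unfold g; positivity

lemma sum_g_le (T : ℕ) : ∑ z ∈ Finset.Icc (-(T : ℤ)) T, g z ≤ 5 := by
  have key : ∀ T : ℕ, ∑ z ∈ Finset.Icc (-((T + 1 : ℕ) : ℤ)) ((T + 1 : ℕ) : ℤ), g z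
      ≤ 5 - 2 / ((T : ℝ) + 1) := by
    intro T
    induction T with
    | zero =>
      have : Finset.Icc (-((0 + 1 : ℕ) : ℤ)) ((0 + 1 : ℕ) : ℤ) = {-1, 0, 1} := by decide
      rw [this]
      simp [g]
      norm_num
    | succ T ih =>
      have hsplit : Finset.Icc (-((T + 1 + 1 : ℕ) : ℤ)) ((T + 1 + 1 : ℕ) : ℤ)
          = insert (-((T + 1 + 1 : ℕ) : ℤ)) (insert (((T + 1 + 1 : ℕ) : ℤ))
            (Finset.Icc (-((T + 1 : ℕ) : ℤ)) ((T + 1 : ℕ) : ℤ))) := by
        ext z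
        simp only [Finset.mem_Icc, Finset.mem_insert]
        push_cast
        omega
      rw [hsplit, Finset.sum_insert, Finset.sum_insert]
      · have e1 : g (-((T + 1 + 1 : ℕ) : ℤ)) = 1 / ((T : ℝ) + 2) ^ 2 := by
          unfold g
          have h : |(((-((T + 1 + 1 : ℕ) : ℤ)) : ℤ) : ℝ)| = (T : ℝ) + 2 := by
            push_cast
            rw [abs_neg, abs_of_nonneg (by positivity)]
            ring
          rw [h, max_eq_right (by linarith [(Nat.cast_nonneg T : (0 : ℝ) ≤ T)])]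
        have e2 : g (((T + 1 + 1 : ℕ) : ℤ)) = 1 / ((T : ℝ) + 2) ^ 2 := by
          unfold g
          have h : |((((T + 1 + 1 : ℕ) : ℤ)) : ℝ)| = (T : ℝ) + 2 := by
            push_cast
            rw [abs_of_nonneg (by positivity)]
            ring
          rw [h, max_eq_right (by linarith [(Nat.cast_nonneg T : (0 : ℝ) ≤ T)])]
        rw [e1, e2]
        push_cast at ih ⊢
        have hT : (0 : ℝ) ≤ T := Nat.cast_nonneg T
        have h3 : 1 / ((T : ℝ) + 2) ^ 2 ≤ 1 / ((T : ℝ) + 1) - 1 / ((T : ℝ) + 2) := by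
          rw [div_sub_div _ _ (by positivity) (by positivity),
            div_le_div_iff₀ (by positivity) (by positivity)]
          nlinarith
        have h4 : (2 : ℝ) / ((T : ℝ) + 1) = 2 * (1 / ((T : ℝ) + 1)) := by ring
        have h5 : (2 : ℝ) / ((T : ℝ) + 1 + 1) = 2 * (1 / ((T : ℝ) + 2)) := by
          have : (T : ℝ) + 1 + 1 = T + 2 := by ring
          rw [this]; ring
        rw [h4] at ih
        rw [h5]
        linarith
      · simp only [Finset.mem_Icc]; push_cast; omega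
      · simp only [Finset.mem_insert, Finset.mem_Icc]; push_cast; omega
  rcases Nat.eq_zero_or_pos T with rfl | hT
  · simp [g]
  · obtain ⟨T', rfl⟩ : ∃ T', T = T' + 1 := ⟨T - 1, by omega⟩
    have h := key T'
    have : 0 ≤ 2 / ((T' : ℝ) + 1) := by positivity
    linarith

/-- vector of the coefficients of degree at most `M` -/
def vec (M : ℕ) (Q : ℤ[X]) : Fin (M + 1) → ℤ := fun i => Q.coeff i

lemma vec_injOn (M : ℕ) (QQ : Finset ℤ[X]) (h : ∀ Q ∈ QQ, Q.natDegree ≤ M) :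
    Set.InjOn (vec M) (QQ : Set ℤ[X]) := by
  intro P hP Q hQ hPQ
  ext i
  by_cases hi : i < M + 1
  · exact congrFun hPQ ⟨i, hi⟩
  · rw [Polynomial.coeff_eq_zero_of_natDegree_lt, Polynomial.coeff_eq_zero_of_natDegree_lt]
    · have := h Q hQ; omega
    · have := h P hP; omega

/-- weight of a polynomial -/
noncomputable def wt (M : ℕ) (v : Fin (M + 1) → ℤ) : ℝ := ∏ i, g (v i)

lemma wt_nonneg (M : ℕ) (v : Fin (M + 1) → ℤ) : 0 ≤ wt M v :=
  Finset.prod_nonneg fun i _ => g_nonneg (v i)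

lemma sum_wt_le (M : ℕ) (QQ : Finset ℤ[X]) (h : ∀ Q ∈ QQ, Q.natDegree ≤ M) :
    ∑ Q ∈ QQ, wt M (vec M Q) ≤ 5 ^ (M + 1) := by
  classical
  set T := ∑ Q ∈ QQ, height Q with hT
  have hTle : ∀ Q ∈ QQ, height Q ≤ T := fun Q hQ =>
    Finset.single_le_sum (f := fun Q => height Q) (fun _ _ => Nat.zero_le _) hQ
  rw [← Finset.sum_image (g := vec M) (f := wt M) (vec_injOn M QQ h)]
  have hsub : QQ.image (vec M) ⊆ Fintype.piFinset (fun _ : Fin (M + 1) =>
      Finset.Icc (-(T : ℤ)) T) := by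
    intro v hv
    rw [Finset.mem_image] at hv
    obtain ⟨Q, hQ, rfl⟩ := hv
    rw [Fintype.mem_piFinset]
    intro i
    have h1 := coeff_le_height Q i
    have h2 := hTle Q hQ
    simp only [vec, Finset.mem_Icc]
    omega
  calc ∑ v ∈ QQ.image (vec M), wt M v
      ≤ ∑ v ∈ Fintype.piFinset (fun _ : Fin (M + 1) => Finset.Icc (-(T : ℤ)) T), wt M v :=
        Finset.sum_le_sum_of_subset_of_nonneg hsub fun v _ _ => wt_nonneg M v
    _ = ∏ _i : Fin (M + 1), ∑ z ∈ Finset.Icc (-(T : ℤ)) T, g z := by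
        rw [Finset.prod_univ_sum]; rfl
    _ ≤ ∏ _i : Fin (M + 1), (5 : ℝ) := by
        apply Finset.prod_le_prod
        · intro i _; exact Finset.sum_nonneg fun z _ => g_nonneg z
        · intro i _; exact sum_g_le T
    _ = 5 ^ (M + 1) := by simp

/-- comparison of the height with the weight -/
lemma inv_height_le_wt (M : ℕ) (Q : ℤ[X]) (hQ : Q ≠ 0) (hM : Q.natDegree ≤ M)
    (h1 : 1 ≤ Q.natDegree) : 1 ≤ (height Q : ℝ) ^ (4 * Q.natDegree) * wt M (vec M Q) := by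
  have hH : (1 : ℝ) ≤ height Q := by exact_mod_cast one_le_height hQ
  set m := Q.natDegree with hm
  have hterm : ∀ i : Fin (M + 1),
      1 ≤ (if (i : ℕ) ≤ m then (height Q : ℝ) ^ 2 else 1) * g (vec M Q i) := by
    intro i
    unfold g vec
    by_cases hi : (i : ℕ) ≤ m
    · rw [if_pos hi, mul_one_div, le_div_iff₀ (by positivity), one_mul]
      apply pow_le_pow_left₀ (by positivity)
      apply max_le hH
      have := coeff_le_height Q i
      have h2 : ((Q.coeff i).natAbs : ℝ) ≤ height Q := by exact_mod_cast this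
      rwa [Nat.cast_natAbs, Int.cast_abs] at h2
    · rw [if_neg hi]
      have : Q.coeff i = 0 := Polynomial.coeff_eq_zero_of_natDegree_lt (by omega)
      rw [this]; simp
  have hprod : 1 ≤ ∏ i : Fin (M + 1),
      ((if (i : ℕ) ≤ m then (height Q : ℝ) ^ 2 else 1) * g (vec M Q i)) :=
    by
      have := Finset.prod_le_prod (s := Finset.univ) (f := fun _ : Fin (M + 1) => (1 : ℝ))
        (g := fun i : Fin (M + 1) => (if (i : ℕ) ≤ m then (height Q : ℝ) ^ 2 else 1) *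
          g (vec M Q i)) (fun _ _ => zero_le_one) (fun i _ => hterm i)
      simpa using this
  rw [Finset.prod_mul_distrib] at hprod
  have hcard : ∏ i : Fin (M + 1), (if (i : ℕ) ≤ m then (height Q : ℝ) ^ 2 else 1)
      = (height Q : ℝ) ^ (2 * (m + 1)) := by
    rw [Fin.prod_univ_eq_prod_range (fun i => if i ≤ m then (height Q : ℝ) ^ 2 else 1) (M + 1)]
    rw [Finset.prod_ite, Finset.prod_const_one, mul_one, Finset.prod_const, ← pow_mul]
    congr 2
    have : (Finset.range (M + 1)).filter (fun i => i ≤ m) = Finset.range (m + 1) := by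
      ext i; simp only [Finset.mem_filter, Finset.mem_range]; omega
    rw [this, Finset.card_range]
  rw [hcard] at hprod
  have hle : (height Q : ℝ) ^ (2 * (m + 1)) ≤ (height Q : ℝ) ^ (4 * m) :=
    pow_le_pow_right₀ hH (by omega)
  calc (1 : ℝ) ≤ (height Q : ℝ) ^ (2 * (m + 1)) * ∏ i, g (vec M Q i) := hprod
    _ ≤ (height Q : ℝ) ^ (4 * m) * wt M (vec M Q) := by
        unfold wt
        exact mul_le_mul_of_nonneg_right hle (Finset.prod_nonneg fun i _ => g_nonneg _)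

/-- `H^{-(cm+1)} ≤ r₀^{5/4} H^{-4m}`, cleared of denominators -/
lemma pow_compare (c m : ℕ) (hc : 32 ≤ c) (hm : 1 ≤ m) (H r₀ : ℝ) (hH : 1 ≤ H) (hr : 0 < r₀)
    (h : 1 < H ^ (2 * (c * m + 1)) * r₀ ^ 3) :
    H ^ (4 * m) ≤ H ^ (c * m + 1) * r₀ ^ (5 / 4 : ℝ) := by
  set A : ℝ := H ^ (c * m + 1) with hA
  have hApos : 0 < A := by positivity
  have hB6 : (H ^ (4 * m)) ^ 6 ≤ A := by
    rw [← pow_mul, hA]
    apply pow_le_pow_right₀ hH
    nlinarith
  have hy : (r₀ ^ (5 / 4 : ℝ)) ^ 12 = (r₀ ^ 3) ^ 5 := by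
    rw [← Real.rpow_natCast, ← Real.rpow_mul hr.le, ← pow_mul, ← Real.rpow_natCast]
    norm_num
  have hA2 : H ^ (2 * (c * m + 1)) = A ^ 2 := by rw [hA, ← pow_mul, mul_comm]
  rw [hA2] at h
  have hr3 : 1 / A ^ 2 ≤ r₀ ^ 3 := by
    rw [div_le_iff₀ (by positivity)]; linarith
  have h5 : (1 / A ^ 2) ^ 5 ≤ (r₀ ^ 3) ^ 5 := pow_le_pow_left₀ (by positivity) hr3 5
  apply le_of_pow_le_pow_left₀ (n := 12) (by norm_num) (by positivity)
  calc (H ^ (4 * m)) ^ 12 = ((H ^ (4 * m)) ^ 6) ^ 2 := by ring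
    _ ≤ A ^ 2 := pow_le_pow_left₀ (by positivity) hB6 2
    _ = A ^ 12 * (1 / A ^ 2) ^ 5 := by field_simp
    _ ≤ A ^ 12 * (r₀ ^ 3) ^ 5 := by
        apply mul_le_mul_of_nonneg_left h5 (by positivity)
    _ = (A * r₀ ^ (5 / 4 : ℝ)) ^ 12 := by rw [mul_pow, hy]

/-- number of polynomials of degree exactly `m` with small height -/
lemma card_deg_le (m E₁ q : ℕ) (hm : 1 ≤ m) (hq : 1 ≤ q) (QQ : Finset ℤ[X])
    (h : ∀ Q ∈ QQ, Q.natDegree = m ∧ (height Q : ℝ) ^ m ≤ (q : ℝ) ^ E₁) :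
    (QQ.card : ℝ) ≤ 3 ^ (m + 1) * (q : ℝ) ^ (2 * E₁) := by
  classical
  set T := Nat.findGreatest (fun T => T ^ m ≤ q ^ E₁) (q ^ E₁) with hT
  have hq1 : 1 ≤ q ^ E₁ := Nat.one_le_pow _ _ hq
  have hT1 : 1 ≤ T := Nat.le_findGreatest hq1 (by simpa using hq1)
  have hTm : T ^ m ≤ q ^ E₁ := by
    have := Nat.findGreatest_spec (P := fun T => T ^ m ≤ q ^ E₁) hq1 (by simpa using hq1)
    exact this
  have hle : ∀ Q ∈ QQ, height Q ≤ T := by
    intro Q hQ
    have h1 : height Q ^ m ≤ q ^ E₁ := by exact_mod_cast (h Q hQ).2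
    exact Nat.le_findGreatest (P := fun T => T ^ m ≤ q ^ E₁)
      (le_trans (Nat.le_self_pow (by omega) _) h1) h1
  have hinj := vec_injOn m QQ (fun Q hQ => (h Q hQ).1.le)
  have hsub : QQ.image (vec m) ⊆ Fintype.piFinset (fun _ : Fin (m + 1) =>
      Finset.Icc (-(T : ℤ)) T) := by
    intro v hv
    rw [Finset.mem_image] at hv
    obtain ⟨Q, hQ, rfl⟩ := hv
    rw [Fintype.mem_piFinset]
    intro i
    have h1 := coeff_le_height Q i
    have h2 := hle Q hQ
    simp only [vec, Finset.mem_Icc]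
    omega
  have hcard : QQ.card ≤ (2 * T + 1) ^ (m + 1) := by
    rw [← Finset.card_image_of_injOn hinj]
    refine le_trans (Finset.card_le_card hsub) ?_
    rw [Fintype.card_piFinset_const, Int.card_Icc]
    apply le_of_eq
    congr 1
    omega
  have h3 : (2 * T + 1) ^ (m + 1) ≤ 3 ^ (m + 1) * q ^ (2 * E₁) := by
    calc (2 * T + 1) ^ (m + 1) ≤ (3 * T) ^ (m + 1) := Nat.pow_le_pow_left (by omega) _
      _ = 3 ^ (m + 1) * T ^ (m + 1) := by rw [mul_pow]
      _ ≤ 3 ^ (m + 1) * T ^ (m * 2) := by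
          apply Nat.mul_le_mul_left
          exact Nat.pow_le_pow_right hT1 (by omega)
      _ = 3 ^ (m + 1) * (T ^ m) ^ 2 := by rw [pow_mul]
      _ ≤ 3 ^ (m + 1) * (q ^ E₁) ^ 2 := by
          apply Nat.mul_le_mul_left
          exact Nat.pow_le_pow_left hTm 2
      _ = 3 ^ (m + 1) * q ^ (2 * E₁) := by rw [← pow_mul]; congr 2; ring
  exact_mod_cast le_trans hcard h3

lemma card_le (M E₁ q : ℕ) (hq : 1 ≤ q) (QQ : Finset ℤ[X])
    (h : ∀ Q ∈ QQ, 1 ≤ Q.natDegree ∧ Q.natDegree ≤ M ∧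
      (height Q : ℝ) ^ Q.natDegree ≤ (q : ℝ) ^ E₁) :
    (QQ.card : ℝ) ≤ M * (3 ^ (M + 1) * (q : ℝ) ^ (2 * E₁)) := by
  classical
  have hmaps : Set.MapsTo (fun Q : ℤ[X] => Q.natDegree) (QQ : Set ℤ[X])
      ((Finset.Icc 1 M : Finset ℕ) : Set ℕ) := by
    intro Q hQ
    have := h Q hQ
    simp only [Finset.coe_Icc, Set.mem_Icc]
    omega
  rw [Finset.card_eq_sum_card_fiberwise hmaps]
  push_cast
  calc ∑ b ∈ Finset.Icc 1 M, (({a ∈ QQ | a.natDegree = b} : Finset ℤ[X]).card : ℝ)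
      ≤ ∑ _b ∈ Finset.Icc 1 M, (3 ^ (M + 1) * (q : ℝ) ^ (2 * E₁)) := by
        apply Finset.sum_le_sum
        intro b hb
        rw [Finset.mem_Icc] at hb
        refine le_trans (card_deg_le b E₁ q hb.1 hq _ ?_) ?_
        · intro Q hQ
          rw [Finset.mem_filter] at hQ
          refine ⟨hQ.2, ?_⟩
          have := (h Q hQ.1).2.2
          rwa [hQ.2] at this
        · apply mul_le_mul_of_nonneg_right _ (by positivity)
          apply pow_le_pow_right₀ (by norm_num)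
          omega
    _ = M * (3 ^ (M + 1) * (q : ℝ) ^ (2 * E₁)) := by simp

/-- a set of naturals of small diameter is small -/
lemma card_le_of_diam (F : Finset ℕ) (L : ℝ) (hL : 0 ≤ L)
    (h : ∀ a ∈ F, ∀ b ∈ F, (b : ℝ) - a ≤ L) : (F.card : ℝ) ≤ L + 1 := by
  rcases F.eq_empty_or_nonempty with rfl | hne
  · simp; linarith
  · set a := F.min' hne with ha
    set b := F.max' hne with hb
    have hsub : F ⊆ Finset.Icc a b := by
      intro x hx
      rw [Finset.mem_Icc]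
      exact ⟨Finset.min'_le F x hx, Finset.le_max' F x hx⟩
    have h1 : F.card ≤ b + 1 - a := by
      have := Finset.card_le_card hsub
      rwa [Nat.card_Icc] at this
    have hab : a ≤ b := Finset.min'_le_max' F hne
    have h2 := h a (Finset.min'_mem F hne) b (Finset.max'_mem F hne)
    have h3 : (F.card : ℝ) ≤ ((b + 1 - a : ℕ) : ℝ) := by exact_mod_cast h1
    rw [Nat.cast_sub (by omega)] at h3
    push_cast at h3
    linarith

end Triv

open Triv in
/-- Step C (trivial counting). -/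
theorem trivial_region (N c M E₁ : ℕ) (hN : 1 ≤ N) (hc : 32 ≤ c) (hE : 1 ≤ E₁) :
    ∃ C : ℝ, 1 ≤ C ∧ ∀ (q : ℕ) (r₀ : ℝ), 1 ≤ q → 0 < r₀ → r₀ ≤ 1 → ∀ S : Finset ℕ,
      (∀ s ∈ S, ∃ (x β : ℝ) (Q : ℤ[X]), 1 / 2 ≤ x ∧ x ≤ 1 ∧ (q : ℝ) ^ (3 * E₁) * x ^ N = s ∧
        Irreducible Q ∧ 1 ≤ Q.natDegree ∧ Q.natDegree ≤ M ∧
        (height Q : ℝ) ^ Q.natDegree ≤ (q : ℝ) ^ E₁ ∧
        1 < (height Q : ℝ) ^ (2 * (c * Q.natDegree + 1)) * r₀ ^ 3 ∧
        aeval β Q = 0 ∧ |x - β| ≤ 2 / (height Q : ℝ) ^ (c * Q.natDegree + 1)) →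
      (S.card : ℝ) ≤ C * r₀ ^ (5 / 4 : ℝ) * (q : ℝ) ^ (3 * E₁) + C * (q : ℝ) ^ (2 * E₁) := by
  classical
  refine ⟨4 * N * M * 5 ^ (M + 1) + M * (M * 3 ^ (M + 1)) + 1, ?_, ?_⟩
  · have : (0 : ℝ) ≤ 4 * N * M * 5 ^ (M + 1) + M * (M * 3 ^ (M + 1)) := by positivity
    linarith
  intro q r₀ hq hr hr1 S hS
  have hex : ∀ s : ℕ, ∃ t : ℝ × ℝ × ℤ[X], s ∈ S → (1 / 2 ≤ t.1 ∧ t.1 ≤ 1 ∧
        (q : ℝ) ^ (3 * E₁) * t.1 ^ N = s ∧
        Irreducible t.2.2 ∧ 1 ≤ t.2.2.natDegree ∧ t.2.2.natDegree ≤ M ∧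
        (height t.2.2 : ℝ) ^ t.2.2.natDegree ≤ (q : ℝ) ^ E₁ ∧
        1 < (height t.2.2 : ℝ) ^ (2 * (c * t.2.2.natDegree + 1)) * r₀ ^ 3 ∧
        aeval t.2.1 t.2.2 = 0 ∧
        |t.1 - t.2.1| ≤ 2 / (height t.2.2 : ℝ) ^ (c * t.2.2.natDegree + 1)) := by
    intro s
    by_cases hs : s ∈ S
    · obtain ⟨x, β, Q, h⟩ := hS s hs
      exact ⟨(x, β, Q), fun _ => h⟩
    · exact ⟨(0, 0, 0), fun h => absurd h hs⟩
  choose f hf using hex
  set p : ℝ := (q : ℝ) ^ (3 * E₁) with hp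
  have hq1 : (1 : ℝ) ≤ q := by exact_mod_cast hq
  have hp1 : 1 ≤ p := one_le_pow₀ hq1
  set y : ℝ := r₀ ^ (5 / 4 : ℝ) with hy
  have hy0 : 0 < y := Real.rpow_pos_of_pos hr _
  -- pairs (polynomial, root)
  set PP : Finset (ℝ × ℤ[X]) := S.image (fun s => (f s).2) with hPP
  set QQ : Finset ℤ[X] := PP.image Prod.snd with hQQ
  have hprop : ∀ t ∈ PP, Irreducible t.2 ∧ 1 ≤ t.2.natDegree ∧ t.2.natDegree ≤ M ∧
        (height t.2 : ℝ) ^ t.2.natDegree ≤ (q : ℝ) ^ E₁ ∧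
        1 < (height t.2 : ℝ) ^ (2 * (c * t.2.natDegree + 1)) * r₀ ^ 3 ∧
        aeval t.1 t.2 = 0 := by
    intro t ht
    rw [hPP, Finset.mem_image] at ht
    obtain ⟨s, hs, rfl⟩ := ht
    obtain ⟨_, _, _, h4, h5, h6, h7, h8, h9, _⟩ := hf s hs
    exact ⟨h4, h5, h6, h7, h8, h9⟩
  have hfib : ∀ t ∈ PP, ((S.filter (fun s => (f s).2 = t)).card : ℝ)
      ≤ 4 * N * p * (y * wt M (vec M t.2)) + 1 := by
    intro t ht
    obtain ⟨g1, g2, g3, g4, g5, g6⟩ := hprop t ht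
    have hH : (1 : ℝ) ≤ height t.2 := by exact_mod_cast one_le_height g1.ne_zero
    set A : ℝ := (height t.2 : ℝ) ^ (c * t.2.natDegree + 1) with hA
    have hApos : 0 < A := by positivity
    have hL : (4 * N * p / A : ℝ) ≤ 4 * N * p * (y * wt M (vec M t.2)) := by
      have h1 := pow_compare c t.2.natDegree hc g2 _ r₀ hH hr g5
      have h2 := inv_height_le_wt M t.2 g1.ne_zero g3 g2
      rw [← hA] at h1
      have h3 : 1 ≤ A * (y * wt M (vec M t.2)) := by
        calc (1 : ℝ) ≤ (height t.2 : ℝ) ^ (4 * t.2.natDegree) * wt M (vec M t.2) := h2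
          _ ≤ (A * y) * wt M (vec M t.2) :=
              mul_le_mul_of_nonneg_right h1 (wt_nonneg _ _)
          _ = A * (y * wt M (vec M t.2)) := by ring
      rw [div_le_iff₀ hApos]
      have h4 : (0 : ℝ) ≤ 4 * N * p := by positivity
      calc (4 * N * p : ℝ) = 4 * N * p * 1 := by ring
        _ ≤ 4 * N * p * (A * (y * wt M (vec M t.2))) := mul_le_mul_of_nonneg_left h3 h4
        _ = 4 * N * p * (y * wt M (vec M t.2)) * A := by ring
    refine le_trans (card_le_of_diam _ (4 * N * p / A) (by positivity) ?_) (by linarith)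
    intro a ha b hb
    rw [Finset.mem_filter] at ha hb
    obtain ⟨a1, a2, a3, _, _, _, _, _, _, a10⟩ := hf a ha.1
    obtain ⟨b1, b2, b3, _, _, _, _, _, _, b10⟩ := hf b hb.1
    rw [ha.2, ← hA] at a10
    rw [hb.2, ← hA] at b10
    have hdist : |(f b).1 - (f a).1| ≤ 4 / A := by
      have e : (f b).1 - (f a).1 = ((f b).1 - t.1) - ((f a).1 - t.1) := by ring
      rw [e]
      refine le_trans (abs_sub _ _) ?_
      have : (4 : ℝ) / A = 2 / A + 2 / A := by ring
      rw [this]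
      exact add_le_add b10 a10
    have hpow := abs_pow_sub_pow_le (f b).1 (f a).1 N
    have hmax : max |(f b).1| |(f a).1| ^ (N - 1) ≤ 1 := by
      apply pow_le_one₀ (by positivity)
      apply max_le
      · rw [abs_of_nonneg (by linarith)]; exact b2
      · rw [abs_of_nonneg (by linarith)]; exact a2
    have h1 : |(f b).1 ^ N - (f a).1 ^ N| ≤ 4 / A * N := by
      calc |(f b).1 ^ N - (f a).1 ^ N|
          ≤ |(f b).1 - (f a).1| * N * max |(f b).1| |(f a).1| ^ (N - 1) := hpow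
        _ ≤ |(f b).1 - (f a).1| * N * 1 := by
            apply mul_le_mul_of_nonneg_left hmax (by positivity)
        _ ≤ 4 / A * N := by
            rw [mul_one]
            exact mul_le_mul_of_nonneg_right hdist (by positivity)
    rw [← a3, ← b3]
    calc p * (f b).1 ^ N - p * (f a).1 ^ N = p * ((f b).1 ^ N - (f a).1 ^ N) := by ring
      _ ≤ p * |(f b).1 ^ N - (f a).1 ^ N| :=
          mul_le_mul_of_nonneg_left (le_abs_self _) (by positivity)
      _ ≤ p * (4 / A * N) := mul_le_mul_of_nonneg_left h1 (by positivity)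
      _ = 4 * N * p / A := by ring
  -- number of roots
  have hroots : ∀ Q ∈ QQ, ((PP.filter (fun t => t.2 = Q)).card : ℝ) ≤ M := by
    intro Q hQ
    rw [hQQ, Finset.mem_image] at hQ
    obtain ⟨t, ht, rfl⟩ := hQ
    obtain ⟨g1, g2, g3, _, _, _⟩ := hprop t ht
    have hmap0 : t.2.map (Int.castRingHom ℝ) ≠ 0 := by
      rw [Ne, Polynomial.map_eq_zero_iff (RingHom.injective_int _)]
      exact g1.ne_zero
    have h1 : (PP.filter (fun u => u.2 = t.2)).card
        ≤ (t.2.map (Int.castRingHom ℝ)).roots.toFinset.card := by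
      apply Finset.card_le_card_of_injOn Prod.fst
      · intro u hu
        simp only [Finset.coe_filter, Set.mem_ofPred_eq] at hu
        have h2 := (hprop u hu.1).2.2.2.2.2
        rw [hu.2] at h2
        simp only [Finset.mem_coe, Multiset.mem_toFinset]
        rw [Polynomial.mem_roots hmap0, Polynomial.IsRoot.def, Polynomial.eval_map]
        exact h2
      · intro u hu v hv huv
        simp only [Finset.coe_filter, Set.mem_ofPred_eq] at hu hv
        exact Prod.ext huv (by rw [hu.2, hv.2])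
    have h2 : (t.2.map (Int.castRingHom ℝ)).roots.toFinset.card ≤ M := by
      refine le_trans (Multiset.toFinset_card_le _) ?_
      refine le_trans (Polynomial.card_roots' _) ?_
      exact le_trans (Polynomial.natDegree_map_le) g3
    exact_mod_cast le_trans h1 h2
  have hQprop : ∀ Q ∈ QQ, Irreducible Q ∧ 1 ≤ Q.natDegree ∧ Q.natDegree ≤ M ∧
        (height Q : ℝ) ^ Q.natDegree ≤ (q : ℝ) ^ E₁ := by
    intro Q hQ
    rw [hQQ, Finset.mem_image] at hQ
    obtain ⟨t, ht, rfl⟩ := hQ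
    obtain ⟨g1, g2, g3, g4, _, _⟩ := hprop t ht
    exact ⟨g1, g2, g3, g4⟩
  have hsumwt := sum_wt_le M QQ (fun Q hQ => (hQprop Q hQ).2.2.1)
  have hcardQ := card_le M E₁ q hq QQ (fun Q hQ => (hQprop Q hQ).2)
  have hS1 : (S.card : ℝ) = ∑ t ∈ PP, ((S.filter (fun s => (f s).2 = t)).card : ℝ) := by
    rw [Finset.card_eq_sum_card_image (fun s => (f s).2) S]
    push_cast
    rfl
  have hS2 : ∑ t ∈ PP, (4 * N * p * (y * wt M (vec M t.2)) + 1)
      = ∑ Q ∈ QQ, ((PP.filter (fun t => t.2 = Q)).card : ℝ) *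
          (4 * N * p * (y * wt M (vec M Q)) + 1) := by
    rw [← Finset.sum_fiberwise_of_maps_to (g := Prod.snd) (t := QQ)
      (fun t ht => Finset.mem_image_of_mem _ ht)]
    apply Finset.sum_congr rfl
    intro Q _
    rw [Finset.sum_congr rfl (g := fun _ => 4 * N * p * (y * wt M (vec M Q)) + 1)]
    · rw [Finset.sum_const, nsmul_eq_mul]
    · intro t ht
      rw [Finset.mem_filter] at ht
      rw [ht.2]
  have hnn : ∀ Q ∈ QQ, 0 ≤ 4 * N * p * (y * wt M (vec M Q)) + 1 := by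
    intro Q _
    have := wt_nonneg M (vec M Q)
    positivity
  calc (S.card : ℝ) = ∑ t ∈ PP, ((S.filter (fun s => (f s).2 = t)).card : ℝ) := hS1
    _ ≤ ∑ t ∈ PP, (4 * N * p * (y * wt M (vec M t.2)) + 1) := Finset.sum_le_sum hfib
    _ = ∑ Q ∈ QQ, ((PP.filter (fun t => t.2 = Q)).card : ℝ) *
          (4 * N * p * (y * wt M (vec M Q)) + 1) := hS2
    _ ≤ ∑ Q ∈ QQ, (M : ℝ) * (4 * N * p * (y * wt M (vec M Q)) + 1) := by
        apply Finset.sum_le_sum
        intro Q hQ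
        exact mul_le_mul_of_nonneg_right (hroots Q hQ) (hnn Q hQ)
    _ = M * (4 * N * p * y * ∑ Q ∈ QQ, wt M (vec M Q)) + M * (QQ.card : ℝ) := by
        have e1 : ∀ Q ∈ QQ, (M : ℝ) * (4 * N * p * (y * wt M (vec M Q)) + 1)
            = (M * (4 * N * p * y)) * wt M (vec M Q) + M := by
          intro Q _; ring
        rw [Finset.sum_congr rfl e1, Finset.sum_add_distrib, ← Finset.mul_sum,
          Finset.sum_const, nsmul_eq_mul]
        ring
    _ ≤ M * (4 * N * p * y * 5 ^ (M + 1)) + M * (M * (3 ^ (M + 1) * (q : ℝ) ^ (2 * E₁))) := by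
        apply add_le_add
        · apply mul_le_mul_of_nonneg_left _ (by positivity)
          apply mul_le_mul_of_nonneg_left hsumwt (by positivity)
        · exact mul_le_mul_of_nonneg_left hcardQ (by positivity)
    _ ≤ (4 * N * M * 5 ^ (M + 1) + M * (M * 3 ^ (M + 1)) + 1) * y * p
        + (4 * N * M * 5 ^ (M + 1) + M * (M * 3 ^ (M + 1)) + 1) * (q : ℝ) ^ (2 * E₁) := by
        have h1 : (0 : ℝ) ≤ (M * (M * 3 ^ (M + 1)) + 1) * y * p := by positivity
        have h2 : (0 : ℝ) ≤ (4 * N * M * 5 ^ (M + 1) + 1) * (q : ℝ) ^ (2 * E₁) := by positivity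
        nlinarith

end Pool.Agent.MP_ac14a7_nt
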