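import Pool.Agent.MP_ac14a7_nt.Defs
import Pool.Agent.MP_ac14a7_nt.KilledDef
import Pool.Agent.MP_ac14a7_nt.Trivial

/-!
Step D (one step of the construction), from `nontrivial_region` (taken as a hypothesis here) and
`trivial_region`.
-/

open Polynomial

namespace Pool.Agent.MP_ac14a7_nt

namespace StageAux

/-- The binomials used in the construction are irreducible. -/
lemma irr_binomial (N t j : ℕ) (hN : 1 ≤ N) :
    Irreducible (C (((3 ^ j : ℕ) : ℤ)) * X ^ N - C (((12 * t + 2 : ℕ)) : ℤ) : ℤ[X]) := by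
  set f : ℤ[X] := C (((3 ^ j : ℕ) : ℤ)) * X ^ N - C (((12 * t + 2 : ℕ)) : ℤ) with hf
  have hcoeff : ∀ i, f.coeff i = (if i = N then (3 ^ j : ℤ) else 0) -
      (if i = 0 then (12 * t + 2 : ℤ) else 0) := by
    intro i
    rw [hf, coeff_sub, coeff_C_mul, coeff_X_pow, coeff_C]
    push_cast
    split_ifs <;> simp
  have hcN : f.coeff N = 3 ^ j := by
    rw [hcoeff]
    have : N ≠ 0 := by omega
    simp [this]
  have hc0 : f.coeff 0 = -(12 * t + 2) := by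
    rw [hcoeff]
    have : (0 : ℕ) ≠ N := by omega
    simp [this]
  have hdeg : f.natDegree = N := by
    apply le_antisymm
    · rw [natDegree_le_iff_coeff_eq_zero]
      intro i hi
      rw [hcoeff, if_neg (by omega), if_neg (by omega)]
      ring
    · apply le_natDegree_of_ne_zero
      rw [hcN]
      positivity
  have hf0 : f ≠ 0 := by
    intro h
    rw [h] at hcN
    simp only [coeff_zero] at hcN
    exact (pow_ne_zero j (by norm_num : (3 : ℤ) ≠ 0)) hcN.symm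
  have hlead : f.leadingCoeff = 3 ^ j := by rw [leadingCoeff, hdeg, hcN]
  have h2 : (Ideal.span {(2 : ℤ)}).IsPrime := by
    rw [Ideal.span_singleton_prime (by norm_num)]
    exact Int.prime_two
  apply irreducible_of_eisenstein_criterion h2
  · rw [hlead, Ideal.mem_span_singleton]
    intro h
    have := Int.prime_two.dvd_of_dvd_pow h
    norm_num at this
  · intro i hi
    rw [degree_eq_natDegree hf0, hdeg] at hi
    have hiN : i < N := by exact_mod_cast hi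
    rw [hcoeff, if_neg (by omega), Ideal.mem_span_singleton]
    split_ifs
    · exact ⟨-(6 * t + 1), by ring⟩
    · simp
  · rw [degree_eq_natDegree hf0, hdeg]
    exact_mod_cast hN
  · rw [hc0, Ideal.span_singleton_pow, Ideal.mem_span_singleton]
    intro ⟨u, hu⟩
    omega
  · intro r hr
    rw [C_dvd_iff_dvd_coeff] at hr
    have h1 := hr N
    have h3 := hr 0
    rw [hcN] at h1
    rw [hc0, dvd_neg] at h3
    have hcop : IsCoprime ((3 : ℤ) ^ j) (12 * t + 2) := by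
      apply IsCoprime.pow_left
      exact ⟨4 * t + 1, -1, by ring⟩
    exact hcop.isUnit_of_dvd' h1 h3

/-- Classification of the bad situations. -/
lemma classify (c N m E₁ J q H : ℕ) (hc : 32 ≤ c) (hN : 2 ≤ N) (hm : 1 ≤ m) (hE : 1 ≤ E₁)
    (hJ : 5 * N ≤ 2 ^ J) (hq : 3 ≤ q) (hH : 1 ≤ H) (y r : ℝ)
    (hr : r = 1 / ((q : ℝ) ^ (3 * E₁)) ^ (c * N))
    (h2 : (H : ℝ) ^ (2 * (c * m + 1)) * r ^ 3 ≤ 1)
    (hbad : y < 2 / (H : ℝ) ^ (c * m + 1) ∨ y < 3 * r) :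
    ((H : ℝ) ^ m ≤ (q : ℝ) ^ E₁ ∧ y ≤ 2 / (H : ℝ) ^ (c * m + 1)) ∨
    (∃ j ≤ J, (H : ℝ) ^ m ≤ (q : ℝ) ^ (2 * (E₁ * 2 ^ j)) ∧
      y * (q : ℝ) ^ (20 * (E₁ * 2 ^ j)) ≤ 1) := by
  have hqR : (3 : ℝ) ≤ q := by exact_mod_cast hq
  have hq0 : (0 : ℝ) < q := by linarith
  have hHR : (1 : ℝ) ≤ H := by exact_mod_cast hH
  have hH0 : (0 : ℝ) < H := by linarith
  have hr0 : 0 < r := by rw [hr]; positivity
  have hr' : r = 1 / (q : ℝ) ^ (3 * E₁ * (c * N)) := by rw [hr, ← pow_mul]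
  rcases le_or_gt ((H : ℝ) ^ m) ((q : ℝ) ^ E₁) with hA | hB
  · left
    refine ⟨hA, ?_⟩
    rcases hbad with h | h
    · exact h.le
    · refine h.le.trans ?_
      rw [hr', mul_one_div, div_le_div_iff₀ (by positivity) (by positivity)]
      have h3 : (H : ℝ) ^ (c * m + 1) ≤ (q : ℝ) ^ (E₁ * (c + 1)) := by
        calc (H : ℝ) ^ (c * m + 1) ≤ (H : ℝ) ^ (m * (c + 1)) := by
              apply pow_le_pow_right₀ hHR
              nlinarith
          _ = ((H : ℝ) ^ m) ^ (c + 1) := by rw [pow_mul]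
          _ ≤ ((q : ℝ) ^ E₁) ^ (c + 1) := pow_le_pow_left₀ (by positivity) hA _
          _ = (q : ℝ) ^ (E₁ * (c + 1)) := by rw [pow_mul]
      have h4 : E₁ * (c + 1) + 1 ≤ 3 * E₁ * (c * N) := by
        have : 2 * c ≤ c * N := by nlinarith
        have h5 : 3 * E₁ * (2 * c) ≤ 3 * E₁ * (c * N) := Nat.mul_le_mul_left _ this
        nlinarith
      calc 3 * (H : ℝ) ^ (c * m + 1) ≤ q * (q : ℝ) ^ (E₁ * (c + 1)) := by
            apply mul_le_mul hqR h3 (by positivity) (by positivity)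
        _ = (q : ℝ) ^ (E₁ * (c + 1) + 1) := by rw [pow_succ]; ring
        _ ≤ (q : ℝ) ^ (3 * E₁ * (c * N)) := pow_le_pow_right₀ (by linarith) h4
        _ ≤ 2 * (q : ℝ) ^ (3 * E₁ * (c * N)) := by
            have : 0 < (q : ℝ) ^ (3 * E₁ * (c * N)) := by positivity
            linarith
  · right
    -- H^m <= q^(E₁ 2^J)
    have hup : (H : ℝ) ^ m ≤ (q : ℝ) ^ (E₁ * 2 ^ J) := by
      have h3 : ((H : ℝ) ^ m) ^ (2 * c) ≤ ((q : ℝ) ^ (E₁ * 2 ^ J)) ^ (2 * c) := by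
        have h4 : (H : ℝ) ^ (2 * (c * m + 1)) ≤ (q : ℝ) ^ (3 * E₁ * (c * N) * 3) := by
          rw [hr', div_pow, one_pow, mul_one_div, div_le_one (by positivity), ← pow_mul] at h2
          exact h2
        calc ((H : ℝ) ^ m) ^ (2 * c) = (H : ℝ) ^ (m * (2 * c)) := (pow_mul _ _ _).symm
          _ ≤ (H : ℝ) ^ (2 * (c * m + 1)) := pow_le_pow_right₀ hHR (by nlinarith)
          _ ≤ (q : ℝ) ^ (3 * E₁ * (c * N) * 3) := h4
          _ ≤ (q : ℝ) ^ (E₁ * 2 ^ J * (2 * c)) := by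
              apply pow_le_pow_right₀ (by linarith)
              calc 3 * E₁ * (c * N) * 3 = (E₁ * c) * (9 * N) := by ring
                _ ≤ (E₁ * c) * (2 * 2 ^ J) := Nat.mul_le_mul_left _ (by omega)
                _ = E₁ * 2 ^ J * (2 * c) := by ring
          _ = ((q : ℝ) ^ (E₁ * 2 ^ J)) ^ (2 * c) := by rw [pow_mul]
      exact (pow_le_pow_iff_left₀ (by positivity) (by positivity) (by omega)).mp h3
    classical
    have hex : ∃ j, (H : ℝ) ^ m ≤ (q : ℝ) ^ (E₁ * 2 ^ j) := ⟨J, hup⟩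
    set j₀ := Nat.find hex with hj₀
    have hj₀spec : (H : ℝ) ^ m ≤ (q : ℝ) ^ (E₁ * 2 ^ j₀) := Nat.find_spec hex
    have hj₀J : j₀ ≤ J := Nat.find_min' hex hup
    have hj₀pos : 1 ≤ j₀ := by
      by_contra h
      have h0 : j₀ = 0 := by omega
      rw [h0] at hj₀spec
      simp only [pow_zero, mul_one] at hj₀spec
      linarith
    obtain ⟨j, hj⟩ : ∃ j, j₀ = j + 1 := ⟨j₀ - 1, by omega⟩
    have hlow : (q : ℝ) ^ (E₁ * 2 ^ j) < (H : ℝ) ^ m := by
      have := Nat.find_min hex (show j < Nat.find hex by rw [← hj₀]; omega)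
      exact lt_of_not_ge this
    refine ⟨j, by omega, ?_, ?_⟩
    · rw [hj] at hj₀spec
      calc (H : ℝ) ^ m ≤ (q : ℝ) ^ (E₁ * 2 ^ (j + 1)) := hj₀spec
        _ = (q : ℝ) ^ (2 * (E₁ * 2 ^ j)) := by congr 1; ring
    · set w := E₁ * 2 ^ j with hw
      have hw1 : 1 ≤ w := by
        have : 1 ≤ 2 ^ j := Nat.one_le_two_pow
        calc 1 ≤ E₁ := hE
          _ ≤ E₁ * 2 ^ j := Nat.le_mul_of_pos_right _ (by omega)
      rcases hbad with h | h
      · have h3 : (q : ℝ) ^ (32 * w) ≤ (H : ℝ) ^ (c * m + 1) := by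
          calc (q : ℝ) ^ (32 * w) ≤ (q : ℝ) ^ (w * c) :=
                pow_le_pow_right₀ (by linarith) (by nlinarith)
            _ = ((q : ℝ) ^ w) ^ c := by rw [pow_mul]
            _ ≤ ((H : ℝ) ^ m) ^ c := pow_le_pow_left₀ (by positivity) hlow.le _
            _ = (H : ℝ) ^ (m * c) := by rw [pow_mul]
            _ ≤ (H : ℝ) ^ (c * m + 1) := pow_le_pow_right₀ hHR (by nlinarith)
        have h4 : y ≤ 2 / (q : ℝ) ^ (32 * w) := by
          refine h.le.trans ?_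
          gcongr
        calc y * (q : ℝ) ^ (20 * w) ≤ 2 / (q : ℝ) ^ (32 * w) * (q : ℝ) ^ (20 * w) := by gcongr
          _ = 2 / (q : ℝ) ^ (12 * w) := by
              rw [show 32 * w = 20 * w + 12 * w by ring, pow_add]
              field_simp
          _ ≤ 1 := by
              rw [div_le_one (by positivity)]
              calc (2 : ℝ) ≤ q := by linarith
                _ = (q : ℝ) ^ 1 := by ring
                _ ≤ (q : ℝ) ^ (12 * w) := pow_le_pow_right₀ (by linarith) (by omega)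
      · have h3 : (q : ℝ) ^ (64 * w) * r ^ 3 ≤ 1 := by
          refine le_trans ?_ h2
          gcongr
          calc (q : ℝ) ^ (64 * w) ≤ (q : ℝ) ^ (w * (2 * c)) :=
                pow_le_pow_right₀ (by linarith) (by nlinarith)
            _ = ((q : ℝ) ^ w) ^ (2 * c) := by rw [pow_mul]
            _ ≤ ((H : ℝ) ^ m) ^ (2 * c) := pow_le_pow_left₀ (by positivity) hlow.le _
            _ = (H : ℝ) ^ (m * (2 * c)) := (pow_mul _ _ _).symm
            _ ≤ (H : ℝ) ^ (2 * (c * m + 1)) := pow_le_pow_right₀ hHR (by nlinarith)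
        have h4 : y * (q : ℝ) ^ (20 * w) ≤ 3 * r * (q : ℝ) ^ (20 * w) := by gcongr
        refine h4.trans ?_
        have h5 : (3 * r * (q : ℝ) ^ (20 * w)) ^ 3 ≤ 1 ^ 3 := by
          have e : (3 * r * (q : ℝ) ^ (20 * w)) ^ 3 * (q : ℝ) ^ (4 * w) =
              27 * ((q : ℝ) ^ (64 * w) * r ^ 3) := by
            rw [show 64 * w = 20 * w * 3 + 4 * w by ring, pow_add, pow_mul _ (20 * w) 3]
            ring
          have h6 : (27 : ℝ) ≤ (q : ℝ) ^ (4 * w) := by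
            calc (27 : ℝ) ≤ 3 ^ 4 := by norm_num
              _ ≤ (q : ℝ) ^ 4 := pow_le_pow_left₀ (by norm_num) hqR _
              _ ≤ (q : ℝ) ^ (4 * w) := pow_le_pow_right₀ (by linarith) (by omega)
          have h7 : 0 ≤ (3 * r * (q : ℝ) ^ (20 * w)) ^ 3 := by positivity
          nlinarith
        exact (pow_le_pow_iff_left₀ (by positivity) (by norm_num) (by norm_num)).mp h5

/-- The height of a nonzero polynomial is at least one. -/
lemma one_le_height {Q : ℤ[X]} (hQ : Q ≠ 0) : 1 ≤ height Q := by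
  have h1 : Q.natDegree ∈ Q.support := natDegree_mem_support_of_nonzero hQ
  have h2 : (Q.coeff Q.natDegree).natAbs ≤ height Q :=
    Finset.le_sup (f := fun i => (Q.coeff i).natAbs) h1
  have h3 : Q.coeff Q.natDegree ≠ 0 := by
    rw [coeff_natDegree]; exact leadingCoeff_ne_zero.mpr hQ
  have h4 : 1 ≤ (Q.coeff Q.natDegree).natAbs := Int.natAbs_pos.mpr h3
  exact h4.trans h2

lemma coeff_le_height (Q : ℤ[X]) (i : ℕ) : |(Q.coeff i : ℝ)| ≤ (height Q : ℝ) := by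
  rcases eq_or_ne (Q.coeff i) 0 with h | h
  · rw [h]; simp
  · have h2 : (Q.coeff i).natAbs ≤ height Q :=
      Finset.le_sup (f := fun i => (Q.coeff i).natAbs) (mem_support_iff.mpr h)
    have h3 : |(Q.coeff i : ℝ)| = ((Q.coeff i).natAbs : ℝ) := by
      rw [Nat.cast_natAbs, Int.cast_abs]
    rw [h3]
    exact_mod_cast h2

/-- The candidates: the numbers `x` with `p x ^ N = s`. -/
lemma exists_root (N : ℕ) (hN : 1 ≤ N) (p l h : ℝ) (hp : 0 < p) (hl : 1 / 2 ≤ l) (hh : 0 ≤ h)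
    (s : ℝ) (hs1 : l ^ N * p ≤ s) (hs2 : s ≤ l ^ N * p + (1 / 2) ^ N * 2 * h * p) :
    ∃ x : ℝ, l ≤ x ∧ x ≤ l + h ∧ p * x ^ N = s := by
  have hsp : 0 ≤ s / p := div_nonneg (le_trans (by positivity) hs1) hp.le
  refine ⟨(s / p) ^ (1 / (N : ℝ)), ?_, ?_, ?_⟩
  · have h1 : l ^ N ≤ s / p := by rw [le_div_iff₀ hp]; exact hs1
    have h2 : l ^ N ≤ ((s / p) ^ (1 / (N : ℝ))) ^ N := by
      rw [one_div, Real.rpow_inv_natCast_pow hsp (by omega)]; exact h1
    exact (pow_le_pow_iff_left₀ (by linarith) (by positivity) (by omega)).mp h2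
  · have h1 : s / p ≤ l ^ N + (1 / 2) ^ N * 2 * h := by
      rw [div_le_iff₀ hp]; linarith
    have h3 : l ^ N + (1 / 2) ^ N * 2 * h ≤ (l + h) ^ N := by
      obtain ⟨K, rfl⟩ : ∃ K, N = K + 1 := ⟨N - 1, by omega⟩
      have h4 : l ^ K ≤ (l + h) ^ K := pow_le_pow_left₀ (by linarith) (by linarith) _
      have h5 : (1 / 2 : ℝ) ^ K ≤ (l + h) ^ K := pow_le_pow_left₀ (by norm_num) (by linarith) _
      have h6 : (l + h) ^ (K + 1) = l * (l + h) ^ K + h * (l + h) ^ K := by ring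
      have h7 : l ^ (K + 1) = l * l ^ K := by ring
      have h8 : (1 / 2 : ℝ) ^ (K + 1) * 2 * h = h * (1 / 2) ^ K := by ring
      rw [h6, h7, h8]
      have h9 : l * l ^ K ≤ l * (l + h) ^ K := mul_le_mul_of_nonneg_left h4 (by linarith)
      have h10 : h * (1 / 2 : ℝ) ^ K ≤ h * (l + h) ^ K := mul_le_mul_of_nonneg_left h5 hh
      linarith
    have h2 : ((s / p) ^ (1 / (N : ℝ))) ^ N ≤ (l + h) ^ N := by
      rw [one_div, Real.rpow_inv_natCast_pow hsp (by omega)]; exact h1.trans h3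
    exact (pow_le_pow_iff_left₀ (by positivity) (by linarith) (by omega)).mp h2
  · rw [one_div, Real.rpow_inv_natCast_pow hsp (by omega)]
    field_simp

end StageAux

open StageAux in
/-- Step D, given Step B. -/
theorem stage_of
    (hnt : ∀ (N m E w k a : ℕ), 1 ≤ N → 1 ≤ m → 1 ≤ E → 12 * w ≤ k * E → a + 1 = 10 * k →
      a * N + 2 * m + a * m ≤ w → ∀ δ : ℝ, 0 < δ →
      ∃ q₀ : ℕ, ∀ q : ℕ, q₀ ≤ q → ∀ K : Finset ℕ,
        (∀ s ∈ K, Killed N m ((q : ℝ) ^ E) ((q : ℝ) ^ (2 * w)) ((q : ℝ) ^ (20 * w)) s) →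
        (K.card : ℝ) < δ * (q : ℝ) ^ E)
    (c k : ℕ) (hc : 32 ≤ c) (hk : 2 ≤ k) (M n : ℕ) (hn : 1 ≤ n) :
    ∃ ρ : ℝ, 0 < ρ ∧ ∀ r₀ l : ℝ, 0 < r₀ → r₀ ≤ ρ → 1 / 2 ≤ l → l ≤ 3 / 4 →
      ∀ ε : ℝ, 0 < ε → ∃ (p B : ℕ) (x r : ℝ), 2 ≤ p ∧ B ≤ p ∧ l ≤ x ∧ x ≤ l + r₀ / 4 ∧ x ≤ 1 ∧
        0 < r ∧ r ≤ ε ∧ r ≤ r₀ / 4 ∧ r = 1 / (p : ℝ) ^ (c * k * n) ∧
        (p : ℝ) * x ^ (k * n) = B ∧
        Irreducible (C (p : ℤ) * X ^ (k * n) - C (B : ℤ)) ∧
        Irreducible (C (p : ℤ) * X ^ n - C (B : ℤ)) ∧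
        ∀ (Q : ℤ[X]) (β : ℝ), Irreducible Q → 1 ≤ Q.natDegree → Q.natDegree ≤ M →
          aeval β Q = 0 → β ≠ x →
          1 < (height Q : ℝ) ^ (2 * (c * Q.natDegree + 1)) * r₀ ^ 3 →
          (height Q : ℝ) ^ (2 * (c * Q.natDegree + 1)) * r ^ 3 ≤ 1 →
          2 / (height Q : ℝ) ^ (c * Q.natDegree + 1) ≤ |x - β| ∧ 3 * r ≤ |x - β| := by
  classical
  set N := k * n with hNdef
  have hN2 : 2 ≤ N := by nlinarith
  have hN1 : 1 ≤ N := by omega
  set E₁ := 40 * (N + M) + 2 * M with hE₁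
  have hE1 : 1 ≤ E₁ := by omega
  set J := 5 * N with hJdef
  have hJ : 5 * N ≤ 2 ^ J := (Nat.lt_two_pow_self (n := 5 * N)).le
  obtain ⟨D, hD1, hD⟩ := trivial_region N c M E₁ hN1 hc hE1
  set κ : ℝ := (1 / 2) ^ N / 50 with hκ
  have hκ0 : 0 < κ := by positivity
  have hκ1 : κ ≤ 1 := by
    have : (1 / 2 : ℝ) ^ N ≤ 1 := pow_le_one₀ (by norm_num) (by norm_num)
    rw [hκ]; linarith
  have hρ0 : 0 < κ / (8 * D) := by positivity
  have hρ1 : κ / (8 * D) ≤ 1 := by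
    rw [div_le_one (by positivity)]; linarith
  refine ⟨(κ / (8 * D)) ^ 4, by positivity, ?_⟩
  intro r₀ l hr₀ hr₀ρ hl1 hl2 ε hε
  have hr₀1 : r₀ ≤ 1 := hr₀ρ.trans (pow_le_one₀ hρ0.le hρ1)
  set δ : ℝ := κ * r₀ / (8 * ((M : ℝ) + 1) * ((J : ℝ) + 1)) with hδ
  have hδ0 : 0 < δ := by positivity
  -- thresholds
  have hq₀ : ∀ (m j : ℕ), ∃ q₀ : ℕ, 1 ≤ m → m ≤ M → ∀ q : ℕ, q₀ ≤ q → ∀ K : Finset ℕ,
      (∀ s ∈ K, Killed N m ((q : ℝ) ^ (3 * E₁)) ((q : ℝ) ^ (2 * (E₁ * 2 ^ j)))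
        ((q : ℝ) ^ (20 * (E₁ * 2 ^ j))) s) → (K.card : ℝ) < δ * (q : ℝ) ^ (3 * E₁) := by
    intro m j
    by_cases hm : 1 ≤ m ∧ m ≤ M
    · have hj1 : 1 ≤ 2 ^ j := Nat.one_le_two_pow
      obtain ⟨q₀, hq₀⟩ := hnt N m (3 * E₁) (E₁ * 2 ^ j) (4 * 2 ^ j) (40 * 2 ^ j - 1) hN1 hm.1
        (by omega) (by ring_nf; rfl) (by omega) (by
          calc (40 * 2 ^ j - 1) * N + 2 * m + (40 * 2 ^ j - 1) * m
              ≤ (40 * 2 ^ j) * N + 2 * m + (40 * 2 ^ j) * m := by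
                gcongr <;> omega
            _ ≤ (40 * 2 ^ j) * N + 2 * M * 2 ^ j + (40 * 2 ^ j) * M := by
                have h1 : 2 * m ≤ 2 * M * 2 ^ j := by nlinarith [hm.2]
                have h2 : (40 * 2 ^ j) * m ≤ (40 * 2 ^ j) * M := Nat.mul_le_mul_left _ hm.2
                omega
            _ = E₁ * 2 ^ j := by rw [hE₁]; ring) δ hδ0
      exact ⟨q₀, fun _ _ => hq₀⟩
    · exact ⟨0, fun h1 h2 => absurd ⟨h1, h2⟩ hm⟩
  choose q₀ hq₀ using hq₀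
  set Q₀ : ℕ := (∑ m ∈ Finset.range (M + 1), ∑ j ∈ Finset.range (J + 1), q₀ m j) +
    ⌈8 * D / (κ * r₀)⌉₊ + ⌈1 / ε⌉₊ + ⌈4 / r₀⌉₊ + ⌈2 / (κ * r₀)⌉₊ + 1 with hQ₀
  set q : ℕ := 3 ^ Q₀ with hq
  have hQq : Q₀ ≤ q := (Nat.lt_pow_self (by norm_num : 1 < 3)).le
  have hq3 : 3 ≤ q := by
    calc 3 = 3 ^ 1 := by norm_num
      _ ≤ 3 ^ Q₀ := Nat.pow_le_pow_right (by norm_num) (by omega)
  have hqR : (3 : ℝ) ≤ q := by exact_mod_cast hq3
  have hq0 : (0 : ℝ) < q := by linarith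
  have hth : ∀ (y : ℝ) (a : ℕ), a ≤ Q₀ → y ≤ (a : ℝ) → y ≤ q := by
    intro y a h1 h2
    exact h2.trans (by exact_mod_cast h1.trans hQq)
  have ht1 : 8 * D / (κ * r₀) ≤ q := hth _ ⌈8 * D / (κ * r₀)⌉₊ (by omega) (Nat.le_ceil _)
  have ht2 : 1 / ε ≤ q := hth _ ⌈1 / ε⌉₊ (by omega) (Nat.le_ceil _)
  have ht3 : 4 / r₀ ≤ q := hth _ ⌈4 / r₀⌉₊ (by omega) (Nat.le_ceil _)
  have ht4 : 2 / (κ * r₀) ≤ q := hth _ ⌈2 / (κ * r₀)⌉₊ (by omega) (Nat.le_ceil _)
  have ht5 : ∀ m j, m ≤ M → j ≤ J → q₀ m j ≤ q := by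
    intro m j hm hj
    have h1 : q₀ m j ≤ ∑ j ∈ Finset.range (J + 1), q₀ m j :=
      Finset.single_le_sum (f := fun j => q₀ m j) (fun _ _ => Nat.zero_le _)
        (Finset.mem_range.mpr (by omega))
    have h2 : ∑ j ∈ Finset.range (J + 1), q₀ m j ≤
        ∑ m ∈ Finset.range (M + 1), ∑ j ∈ Finset.range (J + 1), q₀ m j :=
      Finset.single_le_sum (f := fun m => ∑ j ∈ Finset.range (J + 1), q₀ m j)
        (fun _ _ => Nat.zero_le _) (Finset.mem_range.mpr (by omega))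
    omega
  -- the denominator
  set p : ℝ := (q : ℝ) ^ (3 * E₁) with hp
  have hp0 : 0 < p := by positivity
  have hqp : (q : ℝ) ≤ p := by
    calc (q : ℝ) = (q : ℝ) ^ 1 := by ring
      _ ≤ (q : ℝ) ^ (3 * E₁) := pow_le_pow_right₀ (by linarith) (by omega)
  have hκp : 2 ≤ κ * r₀ * p := by
    rw [div_le_iff₀ (by positivity)] at ht4
    calc 2 ≤ q * (κ * r₀) := ht4
      _ ≤ p * (κ * r₀) := by gcongr
      _ = κ * r₀ * p := by ring
  set r : ℝ := 1 / p ^ (c * N) with hr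
  have hr0 : 0 < r := by positivity
  have hrq : r ≤ 1 / q := by
    rw [hr]
    apply one_div_le_one_div_of_le hq0
    calc (q : ℝ) ≤ p := hqp
      _ = p ^ 1 := by ring
      _ ≤ p ^ (c * N) := pow_le_pow_right₀ (by linarith) (by nlinarith)
  -- candidates
  set t₀ : ℕ := ⌈l ^ N * p / 12⌉₊ with ht₀
  set T : ℕ := ⌊κ * r₀ * p⌋₊ with hT
  have ht₀1 : l ^ N * p / 12 ≤ t₀ := Nat.le_ceil _
  have ht₀2 : (t₀ : ℝ) < l ^ N * p / 12 + 1 := Nat.ceil_lt_add_one (by positivity)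
  have hT1 : (T : ℝ) ≤ κ * r₀ * p := Nat.floor_le (by positivity)
  have hT2 : κ * r₀ * p < T + 1 := Nat.lt_floor_add_one _
  let s : ℕ → ℕ := fun t => 12 * (t₀ + t) + 2
  have hsroot : ∀ t, t < T → ∃ x : ℝ, l ≤ x ∧ x ≤ l + r₀ / 4 ∧ p * x ^ N = (s t : ℕ) := by
    intro t ht
    have htR : (t : ℝ) + 1 ≤ T := by exact_mod_cast ht
    apply exists_root N hN1 p l (r₀ / 4) hp0 hl1 (by linarith)
    · simp only [s]; push_cast; nlinarith
    · simp only [s]; push_cast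
      have e : (1 / 2 : ℝ) ^ N * 2 * (r₀ / 4) * p = 25 * (κ * r₀ * p) := by rw [hκ]; ring
      rw [e]
      nlinarith
  choose! x hx1 hx2 hx3 using hsroot
  have hx1' : ∀ t, t < T → x t ≤ 1 := by
    intro t ht
    have := hx2 t ht
    linarith
  have hx12 : ∀ t, t < T → 1 / 2 ≤ x t := fun t ht => hl1.trans (hx1 t ht)
  -- there is a good candidate
  have hgood : ∃ t, t < T ∧ ∀ (Q : ℤ[X]) (β : ℝ), Irreducible Q → 1 ≤ Q.natDegree →
      Q.natDegree ≤ M → aeval β Q = 0 → β ≠ x t →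
      1 < (height Q : ℝ) ^ (2 * (c * Q.natDegree + 1)) * r₀ ^ 3 →
      (height Q : ℝ) ^ (2 * (c * Q.natDegree + 1)) * r ^ 3 ≤ 1 →
      2 / (height Q : ℝ) ^ (c * Q.natDegree + 1) ≤ |x t - β| ∧ 3 * r ≤ |x t - β| := by
    by_contra! hcon
    set cand : Finset ℕ := (Finset.range T).image s with hcand
    have hcard : cand.card = T := by
      rw [hcand, Finset.card_image_of_injective, Finset.card_range]
      intro a b hab
      simp only [s] at hab
      omega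
    set St : Finset ℕ := cand.filter (fun v => ∃ (x β : ℝ) (Q : ℤ[X]), 1 / 2 ≤ x ∧ x ≤ 1 ∧
      (q : ℝ) ^ (3 * E₁) * x ^ N = v ∧
        Irreducible Q ∧ 1 ≤ Q.natDegree ∧ Q.natDegree ≤ M ∧
        (height Q : ℝ) ^ Q.natDegree ≤ (q : ℝ) ^ E₁ ∧
        1 < (height Q : ℝ) ^ (2 * (c * Q.natDegree + 1)) * r₀ ^ 3 ∧
        aeval β Q = 0 ∧ |x - β| ≤ 2 / (height Q : ℝ) ^ (c * Q.natDegree + 1)) with hSt
    let Km : ℕ → ℕ → Finset ℕ := fun m j => cand.filter (fun v =>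
      Killed N m ((q : ℝ) ^ (3 * E₁)) ((q : ℝ) ^ (2 * (E₁ * 2 ^ j)))
        ((q : ℝ) ^ (20 * (E₁ * 2 ^ j))) v)
    have hsub : cand ⊆ St ∪ (Finset.Icc 1 M).biUnion (fun m =>
        (Finset.range (J + 1)).biUnion (fun j => Km m j)) := by
      intro v hv
      obtain ⟨t, ht, rfl⟩ := Finset.mem_image.mp hv
      have ht' := Finset.mem_range.mp ht
      obtain ⟨Q, β, hQ, hd1, hd2, hβ, hβx, hH1, hH2, hfail⟩ := hcon t ht'
      have hQ0 : Q ≠ 0 := hQ.ne_zero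
      have hbad : |x t - β| < 2 / (height Q : ℝ) ^ (c * Q.natDegree + 1) ∨ |x t - β| < 3 * r := by
        by_contra! h
        exact absurd (hfail h.1) (not_lt.mpr h.2)
      rcases classify c N Q.natDegree E₁ J q (height Q) hc hN2 hd1 hE1 hJ hq3
        (one_le_height hQ0) |x t - β| r hr hH2 hbad with ⟨hA1, hA2⟩ | ⟨j, hj, hB1, hB2⟩
      · apply Finset.mem_union_left
        rw [hSt, Finset.mem_filter]
        exact ⟨hv, x t, β, Q, hx12 t ht', hx1' t ht', hx3 t ht', hQ, hd1, hd2, hA1, hH1, hβ, hA2⟩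
      · apply Finset.mem_union_right
        rw [Finset.mem_biUnion]
        refine ⟨Q.natDegree, Finset.mem_Icc.mpr ⟨hd1, hd2⟩, ?_⟩
        rw [Finset.mem_biUnion]
        refine ⟨j, Finset.mem_range.mpr (by omega), ?_⟩
        simp only [Km, Finset.mem_filter]
        refine ⟨hv, x t, β, height Q, Q, hx12 t ht', hx1' t ht', hx3 t ht', hQ, rfl, ?_, ?_, hB1,
          hβ, hβx, hB2⟩
        · exact_mod_cast one_le_height hQ0
        · exact coeff_le_height Q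
    have hStc : (St.card : ℝ) ≤ κ / 4 * r₀ * p := by
      have h1 := hD q r₀ (by omega) hr₀ hr₀1 St (fun v hv => (Finset.mem_filter.mp hv).2)
      have h2 : D * r₀ ^ (5 / 4 : ℝ) ≤ κ / 8 * r₀ := by
        have e1 : r₀ ^ (5 / 4 : ℝ) = r₀ * r₀ ^ (1 / 4 : ℝ) := by
          rw [show (5 / 4 : ℝ) = 1 + 1 / 4 by norm_num, Real.rpow_add hr₀, Real.rpow_one]
        have e2 : r₀ ^ (1 / 4 : ℝ) ≤ κ / (8 * D) := by
          calc r₀ ^ (1 / 4 : ℝ) ≤ ((κ / (8 * D)) ^ 4) ^ (1 / 4 : ℝ) :=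
                Real.rpow_le_rpow hr₀.le hr₀ρ (by norm_num)
            _ = κ / (8 * D) := by
                rw [← Real.rpow_natCast, ← Real.rpow_mul hρ0.le]
                norm_num
        rw [e1]
        calc D * (r₀ * r₀ ^ (1 / 4 : ℝ)) ≤ D * (r₀ * (κ / (8 * D))) := by gcongr
          _ = κ / 8 * r₀ := by field_simp
      have h3 : D * (q : ℝ) ^ (2 * E₁) ≤ κ / 8 * r₀ * p := by
        have e3 : p = (q : ℝ) ^ E₁ * (q : ℝ) ^ (2 * E₁) := by
          rw [hp, ← pow_add]; congr 1; ring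
        have e4 : D ≤ κ / 8 * r₀ * (q : ℝ) ^ E₁ := by
          rw [div_le_iff₀ (by positivity)] at ht1
          have e5 : (q : ℝ) ≤ (q : ℝ) ^ E₁ := by
            calc (q : ℝ) = (q : ℝ) ^ 1 := by ring
              _ ≤ (q : ℝ) ^ E₁ := pow_le_pow_right₀ (by linarith) hE1
          have e6 : q * (κ * r₀) ≤ (q : ℝ) ^ E₁ * (κ * r₀) := by gcongr
          linarith
        rw [e3]
        calc D * (q : ℝ) ^ (2 * E₁) ≤ (κ / 8 * r₀ * (q : ℝ) ^ E₁) * (q : ℝ) ^ (2 * E₁) := by gcongr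
          _ = κ / 8 * r₀ * ((q : ℝ) ^ E₁ * (q : ℝ) ^ (2 * E₁)) := by ring
      have h4 : D * r₀ ^ (5 / 4 : ℝ) * p ≤ κ / 8 * r₀ * p := by gcongr
      linarith
    have hKc : (((Finset.Icc 1 M).biUnion (fun m =>
        (Finset.range (J + 1)).biUnion (fun j => Km m j))).card : ℝ) ≤ κ / 8 * r₀ * p := by
      have h1 : (((Finset.Icc 1 M).biUnion (fun m =>
        (Finset.range (J + 1)).biUnion (fun j => Km m j))).card : ℝ) ≤
          ∑ m ∈ Finset.Icc 1 M, ∑ j ∈ Finset.range (J + 1), ((Km m j).card : ℝ) := by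
        have h2 : ((Finset.Icc 1 M).biUnion (fun m =>
          (Finset.range (J + 1)).biUnion (fun j => Km m j))).card ≤
          ∑ m ∈ Finset.Icc 1 M, ∑ j ∈ Finset.range (J + 1), (Km m j).card :=
          Finset.card_biUnion_le.trans (Finset.sum_le_sum fun m _ => Finset.card_biUnion_le)
        exact_mod_cast h2
      refine h1.trans ?_
      calc ∑ m ∈ Finset.Icc 1 M, ∑ j ∈ Finset.range (J + 1), ((Km m j).card : ℝ)
          ≤ ∑ m ∈ Finset.Icc 1 M, ∑ j ∈ Finset.range (J + 1), δ * p := by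
            apply Finset.sum_le_sum
            intro m hm
            apply Finset.sum_le_sum
            intro j hj
            rw [Finset.mem_Icc] at hm
            rw [Finset.mem_range] at hj
            exact (hq₀ m j hm.1 hm.2 q (ht5 m j hm.2 (by omega)) (Km m j)
              (fun v hv => (Finset.mem_filter.mp hv).2)).le
        _ = M * ((J + 1) * (δ * p)) := by
            simp [Finset.sum_const, Nat.card_Icc]
        _ ≤ (M + 1) * ((J + 1) * (δ * p)) := by gcongr; linarith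
        _ = κ / 8 * r₀ * p := by
            rw [hδ]; field_simp
    have htot : (T : ℝ) ≤ κ / 4 * r₀ * p + κ / 8 * r₀ * p := by
      have h1 : cand.card ≤ St.card + ((Finset.Icc 1 M).biUnion (fun m =>
        (Finset.range (J + 1)).biUnion (fun j => Km m j))).card :=
        (Finset.card_le_card hsub).trans (Finset.card_union_le _ _)
      rw [hcard] at h1
      have h2 : (T : ℝ) ≤ (St.card : ℝ) + (((Finset.Icc 1 M).biUnion (fun m =>
        (Finset.range (J + 1)).biUnion (fun j => Km m j))).card : ℝ) := by exact_mod_cast h1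
      linarith
    linarith
  obtain ⟨t, htT, hgt⟩ := hgood
  have hpcast : ((q ^ (3 * E₁) : ℕ) : ℝ) = p := by rw [hp]; push_cast; rfl
  have hpow : q ^ (3 * E₁) = 3 ^ (Q₀ * (3 * E₁)) := by rw [hq, ← pow_mul]
  refine ⟨q ^ (3 * E₁), s t, x t, r, ?_, ?_, hx1 t htT, hx2 t htT, hx1' t htT, hr0, ?_, ?_, ?_,
    ?_, ?_, ?_, hgt⟩
  · have : (2 : ℝ) ≤ ((q ^ (3 * E₁) : ℕ) : ℝ) := by rw [hpcast]; linarith
    exact_mod_cast this
  · have h1 : ((s t : ℕ) : ℝ) ≤ ((q ^ (3 * E₁) : ℕ) : ℝ) := by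
      rw [hpcast, ← hx3 t htT]
      have : (x t) ^ N ≤ 1 := pow_le_one₀ (by linarith [hx12 t htT]) (hx1' t htT)
      nlinarith
    exact_mod_cast h1
  · refine hrq.trans ?_
    rw [div_le_iff₀ hq0]
    rw [div_le_iff₀ hε] at ht2
    linarith
  · refine hrq.trans ?_
    rw [div_le_iff₀ hq0]
    rw [div_le_iff₀ hr₀] at ht3
    linarith
  · rw [hpcast, hr, hNdef, mul_assoc]
  · rw [hpcast]; exact hx3 t htT
  · rw [hpow]
    exact irr_binomial (k * n) (t₀ + t) _ (by omega)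
  · rw [hpow]
    exact irr_binomial n (t₀ + t) _ hn

end Pool.Agent.MP_ac14a7_nt
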