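import Mathlib
import Pool.Agent.MP_ac14a7_nt.GoodDef
import Pool.Agent.MP_ac14a7_nt.Liouville

/-!
Step F: evaluation of the exponents.
-/

open Polynomial

namespace Pool.Agent.MP_ac14a7_nt

section Height

theorem natAbs_coeff_le_height (P : ℤ[X]) (i : ℕ) : (P.coeff i).natAbs ≤ height P := by
  by_cases h : i ∈ P.support
  · exact Finset.le_sup (f := fun i => (P.coeff i).natAbs) h
  · rw [notMem_support_iff.mp h]
    simp

theorem abs_coeff_le_height (P : ℤ[X]) (i : ℕ) : |(P.coeff i : ℝ)| ≤ height P := by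
  have h := natAbs_coeff_le_height P i
  have h1 : |(P.coeff i : ℝ)| = ((P.coeff i).natAbs : ℝ) := by
    rw [← Int.cast_abs, Nat.cast_natAbs]
  rw [h1]
  exact_mod_cast h

theorem height_le_of_forall (P : ℤ[X]) (B : ℝ) (hB : 0 ≤ B) (h : ∀ i, |(P.coeff i : ℝ)| ≤ B) :
    (height P : ℝ) ≤ B := by
  refine (Nat.cast_le.mpr (?_ : height P ≤ ⌊B⌋₊)).trans (Nat.floor_le hB)
  refine Finset.sup_le fun i _ => ?_
  refine Nat.le_floor ?_
  have h1 : |(P.coeff i : ℝ)| = ((P.coeff i).natAbs : ℝ) := by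
    rw [← Int.cast_abs, Nat.cast_natAbs]
  rw [← h1]
  exact h i

theorem one_le_height {P : ℤ[X]} (hP : P ≠ 0) : 1 ≤ height P := by
  have h := natAbs_coeff_le_height P P.natDegree
  have h1 : P.coeff P.natDegree ≠ 0 := leadingCoeff_ne_zero.mpr hP
  omega

theorem mahler_le_height (P : ℤ[X]) (n : ℕ) (hn : P.natDegree ≤ n) :
    (P.map (Int.castRingHom ℂ)).mahlerMeasure ≤ (n + 1) * height P := by
  refine (mahlerMeasure_le_sum_norm_coeff _).trans ?_
  rw [Polynomial.sum_def]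
  have h1 : ∀ i ∈ (P.map (Int.castRingHom ℂ)).support,
      ‖(P.map (Int.castRingHom ℂ)).coeff i‖ ≤ (height P : ℝ) := by
    intro i _
    rw [coeff_map, eq_intCast, Complex.norm_intCast]
    exact abs_coeff_le_height P i
  refine (Finset.sum_le_card_nsmul _ _ _ h1).trans ?_
  rw [nsmul_eq_mul]
  gcongr
  have h2 := (P.map (Int.castRingHom ℂ)).card_supp_le_succ_natDegree
  have h3 : (P.map (Int.castRingHom ℂ)).natDegree ≤ P.natDegree := natDegree_map_le
  exact_mod_cast h2.trans (by omega)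

theorem height_le_mahler (P : ℤ[X]) (n : ℕ) (hn : P.natDegree ≤ n) :
    (height P : ℝ) ≤ 2 ^ n * (P.map (Int.castRingHom ℂ)).mahlerMeasure := by
  have h0 := mahlerMeasure_nonneg (P.map (Int.castRingHom ℂ))
  refine height_le_of_forall P _ (by positivity) fun i => ?_
  have h1 := norm_coeff_le_choose_mul_mahlerMeasure i (P.map (Int.castRingHom ℂ))
  rw [coeff_map, eq_intCast, Complex.norm_intCast] at h1
  refine h1.trans ?_
  gcongr
  have h3 : (P.map (Int.castRingHom ℂ)).natDegree ≤ P.natDegree := natDegree_map_le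
  have h2 : (P.map (Int.castRingHom ℂ)).natDegree.choose i ≤ 2 ^ n :=
    (Nat.choose_le_two_pow _ _).trans (Nat.pow_le_pow_right (by norm_num) (h3.trans hn))
  exact_mod_cast h2

theorem finite_height_le (n : ℕ) (B : ℕ) :
    {P : ℤ[X] | P.natDegree ≤ n ∧ height P ≤ B}.Finite := by
  refine (finite_mahlerMeasure_le n ((n + 1) * B : NNReal)).subset ?_
  rintro P ⟨h1, h2⟩
  refine ⟨h1, (mahler_le_height P n h1).trans ?_⟩
  have h3 : (height P : ℝ) ≤ B := by exact_mod_cast h2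
  push_cast
  gcongr

end Height

section Taylor

theorem pow_taylor (x y : ℝ) (hx : |x| ≤ 2) (hy : |y| ≤ 2) (i : ℕ) :
    |y ^ i - x ^ i - i * (y - x) * x ^ (i - 1)| ≤ 4 ^ i * (y - x) ^ 2 := by
  induction i with
  | zero => simp; positivity
  | succ i ih =>
    rcases i with _ | j
    · simp
      positivity
    · have h1 : y ^ (j + 1 + 1) - x ^ (j + 1 + 1) - ((j + 1 + 1 : ℕ) : ℝ) * (y - x) *
          x ^ (j + 1 + 1 - 1) =
          y * (y ^ (j + 1) - x ^ (j + 1) - ((j + 1 : ℕ) : ℝ) * (y - x) * x ^ (j + 1 - 1)) +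
            ((j + 1 : ℕ) : ℝ) * x ^ j * (y - x) ^ 2 := by
        rw [Nat.add_sub_cancel, Nat.add_sub_cancel]
        push_cast
        ring
      rw [h1]
      have h2 : |x| ^ j ≤ 2 ^ j := pow_le_pow_left₀ (abs_nonneg _) hx j
      have h3 : ((j + 1 : ℕ) : ℝ) ≤ 2 ^ (j + 1) := by
        exact_mod_cast (Nat.lt_two_pow_self (n := j + 1)).le
      have h4 : (0 : ℝ) ≤ (y - x) ^ 2 := sq_nonneg _
      calc |y * (y ^ (j + 1) - x ^ (j + 1) - ((j + 1 : ℕ) : ℝ) * (y - x) * x ^ (j + 1 - 1)) +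
            ((j + 1 : ℕ) : ℝ) * x ^ j * (y - x) ^ 2|
          ≤ |y * (y ^ (j + 1) - x ^ (j + 1) - ((j + 1 : ℕ) : ℝ) * (y - x) * x ^ (j + 1 - 1))| +
            |((j + 1 : ℕ) : ℝ) * x ^ j * (y - x) ^ 2| := abs_add_le _ _
        _ = |y| * |y ^ (j + 1) - x ^ (j + 1) - ((j + 1 : ℕ) : ℝ) * (y - x) * x ^ (j + 1 - 1)| +
            ((j + 1 : ℕ) : ℝ) * |x| ^ j * (y - x) ^ 2 := by
            rw [abs_mul, abs_mul, abs_mul, abs_pow, abs_of_nonneg h4, Nat.abs_cast]
        _ ≤ 2 * (4 ^ (j + 1) * (y - x) ^ 2) + 2 ^ (j + 1) * 2 ^ j * (y - x) ^ 2 := by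
            gcongr
        _ ≤ 4 ^ (j + 1 + 1) * (y - x) ^ 2 := by
            have h5 : (2 : ℝ) ^ (j + 1) * 2 ^ j ≤ 2 * 4 ^ (j + 1) := by
              have : (4 : ℝ) ^ (j + 1) = 2 ^ (j + 1) * 2 ^ j * 2 := by
                rw [show (4 : ℝ) = 2 * 2 by norm_num, mul_pow]
                ring
              have h6 : (0 : ℝ) < 2 ^ (j + 1) * 2 ^ j := by positivity
              nlinarith
            have h7 : (2 : ℝ) ^ (j + 1) * 2 ^ j * (y - x) ^ 2 ≤ 2 * 4 ^ (j + 1) * (y - x) ^ 2 := by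
              gcongr
            rw [pow_succ (4 : ℝ) (j + 1)]
            nlinarith

theorem aeval_eq_sum_coeff (Q : ℤ[X]) (m : ℕ) (hd : Q.natDegree ≤ m) (x : ℝ) :
    aeval x Q = ∑ i ∈ Finset.range (m + 1), (Q.coeff i : ℝ) * x ^ i := by
  rw [aeval_eq_sum_range' (n := m + 1) (by omega)]
  refine Finset.sum_congr rfl fun i _ => ?_
  rw [zsmul_eq_mul]

theorem aeval_derivative_eq_sum_coeff (Q : ℤ[X]) (m : ℕ) (hd : Q.natDegree ≤ m) (x : ℝ) :
    aeval x (derivative Q) =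
      ∑ i ∈ Finset.range (m + 1), (Q.coeff i : ℝ) * (i * x ^ (i - 1)) := by
  rw [aeval_def, eval₂_eq_eval_map, ← derivative_map, derivative_eval,
    Polynomial.sum_over_range' _ _ (m + 1)]
  · refine Finset.sum_congr rfl fun i _ => ?_
    rw [coeff_map]
    change ((Q.coeff i : ℤ) : ℝ) * i * x ^ (i - 1) = _
    ring
  · exact lt_of_le_of_lt natDegree_map_le (by omega)
  · intro i
    simp

theorem poly_taylor (Q : ℤ[X]) (m : ℕ) (H : ℝ) (hd : Q.natDegree ≤ m)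
    (hH : ∀ i, |(Q.coeff i : ℝ)| ≤ H) (x y : ℝ) (hx : |x| ≤ 2) (hy : |y| ≤ 2) :
    |aeval y Q - aeval x Q - (y - x) * aeval x (derivative Q)| ≤
      (m + 1) * 4 ^ m * H * (y - x) ^ 2 := by
  have hH0 : 0 ≤ H := (abs_nonneg _).trans (hH 0)
  rw [aeval_eq_sum_coeff Q m hd, aeval_eq_sum_coeff Q m hd, aeval_derivative_eq_sum_coeff Q m hd,
    Finset.mul_sum, ← Finset.sum_sub_distrib, ← Finset.sum_sub_distrib]
  have h1 : ∀ i ∈ Finset.range (m + 1), |(Q.coeff i : ℝ) * y ^ i - (Q.coeff i : ℝ) * x ^ i -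
      (y - x) * ((Q.coeff i : ℝ) * (i * x ^ (i - 1)))| ≤ 4 ^ m * H * (y - x) ^ 2 := by
    intro i hi
    have h2 : (Q.coeff i : ℝ) * y ^ i - (Q.coeff i : ℝ) * x ^ i -
        (y - x) * ((Q.coeff i : ℝ) * (i * x ^ (i - 1))) =
        (Q.coeff i : ℝ) * (y ^ i - x ^ i - i * (y - x) * x ^ (i - 1)) := by ring
    rw [h2, abs_mul]
    have h3 := pow_taylor x y hx hy i
    have h4 : (4 : ℝ) ^ i ≤ 4 ^ m :=
      pow_le_pow_right₀ (by norm_num) (by have := Finset.mem_range.mp hi; omega)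
    calc |(Q.coeff i : ℝ)| * |y ^ i - x ^ i - i * (y - x) * x ^ (i - 1)|
        ≤ H * (4 ^ m * (y - x) ^ 2) := by
          refine mul_le_mul (hH i) (h3.trans ?_) (abs_nonneg _) hH0
          gcongr
      _ = 4 ^ m * H * (y - x) ^ 2 := by ring
  refine (Finset.abs_sum_le_sum_abs _ _).trans ?_
  refine (Finset.sum_le_card_nsmul _ _ _ h1).trans ?_
  rw [Finset.card_range, nsmul_eq_mul]
  push_cast
  apply le_of_eq
  ring

theorem abs_aeval_derivative_le (Q : ℤ[X]) (m : ℕ) (H : ℝ) (hd : Q.natDegree ≤ m)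
    (hH : ∀ i, |(Q.coeff i : ℝ)| ≤ H) (x : ℝ) (hx : |x| ≤ 1) :
    |aeval x (derivative Q)| ≤ (m + 1) * 4 ^ m * H := by
  have hH0 : 0 ≤ H := (abs_nonneg _).trans (hH 0)
  rw [aeval_derivative_eq_sum_coeff Q m hd]
  have h1 : ∀ i ∈ Finset.range (m + 1), |(Q.coeff i : ℝ) * (i * x ^ (i - 1))| ≤ 4 ^ m * H := by
    intro i hi
    rw [abs_mul, abs_mul, abs_pow, Nat.abs_cast]
    have h2 : |x| ^ (i - 1) ≤ 1 := pow_le_one₀ (abs_nonneg _) hx
    have h3 : (i : ℝ) ≤ 4 ^ m := by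
      have h4 : i ≤ 4 ^ m := by
        have h5 : m < 4 ^ m := Nat.lt_pow_self (by norm_num)
        have := Finset.mem_range.mp hi
        omega
      exact_mod_cast h4
    calc |(Q.coeff i : ℝ)| * (i * |x| ^ (i - 1)) ≤ H * (4 ^ m * 1) := by
          refine mul_le_mul (hH i) ?_ (by positivity) hH0
          gcongr
      _ = 4 ^ m * H := by ring
  refine (Finset.abs_sum_le_sum_abs _ _).trans ?_
  refine (Finset.sum_le_card_nsmul _ _ _ h1).trans ?_
  rw [Finset.card_range, nsmul_eq_mul]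
  push_cast
  apply le_of_eq
  ring

/-- If `Q(ξ)` is small compared with `Q'(ξ)`, then `Q` has a real root close to `ξ`. -/
theorem exists_root_near (Q : ℤ[X]) (m : ℕ) (H : ℝ) (hd : Q.natDegree ≤ m)
    (hH : ∀ i, |(Q.coeff i : ℝ)| ≤ H) (hH1 : 1 ≤ H) (ξ : ℝ) (hξ : |ξ| ≤ 1) (hq : aeval ξ Q ≠ 0)
    (hD : aeval ξ (derivative Q) ≠ 0)
    (hsmall : |aeval ξ Q| * (4 * ((m + 1) * 4 ^ m * H)) < |aeval ξ (derivative Q)| ^ 2) :
    ∃ β : ℝ, aeval β Q = 0 ∧ |ξ - β| * |aeval ξ (derivative Q)| ≤ 2 * |aeval ξ Q| := by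
  set q := aeval ξ Q with hqdef
  set D := aeval ξ (derivative Q) with hDdef
  set L : ℝ := (m + 1) * 4 ^ m * H with hL
  have hL0 : 0 < L := by positivity
  have hDL : |D| ≤ L := abs_aeval_derivative_le Q m H hd hH ξ hξ
  have hq0 : 0 < |q| := abs_pos.mpr hq
  have hD0 : 0 < |D| := abs_pos.mpr hD
  set t : ℝ := -2 * q / D with ht
  have htabs : |t| = 2 * |q| / |D| := by
    rw [ht, abs_div, abs_mul, abs_neg, abs_two]
  have htD : |t| * |D| = 2 * |q| := by
    rw [htabs]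
    field_simp
  have ht1 : |t| ≤ 1 := by
    rw [htabs, div_le_one hD0]
    by_contra hcon
    push Not at hcon
    have h1 : |D| ^ 2 ≤ L * (2 * |q|) := by
      rw [sq]
      exact mul_le_mul hDL hcon.le hD0.le hL0.le
    nlinarith
  have hy : |ξ + t| ≤ 2 := (abs_add_le _ _).trans (by linarith)
  have htay := poly_taylor Q m H hd hH ξ (ξ + t) (by linarith) hy
  rw [add_sub_cancel_left, ← hqdef, ← hDdef, ← hL] at htay
  have h2 : t * D = -2 * q := by
    rw [ht]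
    field_simp
  rw [h2] at htay
  have h3 : aeval (ξ + t) Q - q - -2 * q = aeval (ξ + t) Q + q := by ring
  rw [h3] at htay
  have h4 : L * t ^ 2 < |q| := by
    have h5 : t ^ 2 = (2 * |q| / |D|) ^ 2 := by rw [← htabs, sq_abs]
    rw [h5, div_pow, ← mul_div_assoc, div_lt_iff₀ (by positivity)]
    nlinarith
  have h5 : |aeval (ξ + t) Q + q| < |q| := lt_of_le_of_lt htay h4
  have hcont : ContinuousOn (fun y : ℝ => aeval y Q) (Set.uIcc ξ (ξ + t)) :=
    (Polynomial.continuous_aeval Q).continuousOn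
  have h6 := intermediate_value_uIcc hcont
  have h7 : (0 : ℝ) ∈ Set.uIcc (aeval ξ Q) (aeval (ξ + t) Q) := by
    rw [← hqdef, Set.mem_uIcc]
    rw [abs_lt] at h5
    rcases lt_or_gt_of_ne hq with h | h
    · left
      rw [abs_of_neg h] at h5
      constructor
      · exact h.le
      · linarith [h5.1]
    · right
      rw [abs_of_pos h] at h5
      constructor
      · linarith [h5.2]
      · exact h.le
  obtain ⟨β, hβ, hβ0⟩ := h6 h7
  refine ⟨β, hβ0, ?_⟩
  have h8 : |ξ - β| ≤ |t| := by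
    rw [abs_sub_comm]
    have := Set.abs_sub_left_of_mem_uIcc hβ
    rwa [add_sub_cancel_left] at this
  calc |ξ - β| * |D| ≤ |t| * |D| := by gcongr
    _ = 2 * |q| := htD

end Taylor

section Lower

/-- Irreducible polynomials of degree `m` and large height do not have small values at `ξ`. -/
theorem irred_lower_large {c k : ℕ} {ξ : ℝ} (h : Good c k ξ) (hc : 32 ≤ c)
    (htr : Transcendental ℤ ξ) (m : ℕ) (hm : 1 ≤ m) : ∃ κ : ℝ, 0 < κ ∧ ∃ H₀ : ℕ,
    ∀ Q : ℤ[X], Irreducible Q → Q.natDegree = m → H₀ ≤ height Q →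
      κ ≤ |aeval ξ Q| * (height Q : ℝ) ^ ((c + 2) * m) := by
  obtain ⟨C, hC, hS⟩ := sylvester_bound m (m - 1) hm
  obtain ⟨H₀, hH₀⟩ := h.bad m hm
  set a : ℝ := C * (m : ℝ) ^ m with ha
  have hm1 : (1 : ℝ) ≤ m := by exact_mod_cast hm
  have ha1 : 1 ≤ a := one_le_mul_of_one_le_of_one_le hC (one_le_pow₀ hm1)
  refine ⟨1 / (16 * a ^ 2 * ((m + 1) * 4 ^ m)), by positivity, H₀, ?_⟩
  intro Q hQ hQd hQH
  set b : ℝ := (m + 1) * 4 ^ m with hb
  have hb1 : 1 ≤ b := by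
    rw [hb]
    exact one_le_mul_of_one_le_of_one_le (by linarith) (one_le_pow₀ (by norm_num))
  set H : ℝ := (height Q : ℝ) with hH
  have hH1 : 1 ≤ H := by
    rw [hH]
    exact_mod_cast one_le_height hQ.ne_zero
  have hξ1 : |ξ| ≤ 1 := by
    rw [abs_of_nonneg (by linarith [h.half_le])]
    exact h.le_one
  have hq : aeval ξ Q ≠ 0 := fun h0 => hQ.ne_zero ((transcendental_iff.mp htr) Q h0)
  set q := aeval ξ Q with hqdef
  set D := aeval ξ (derivative Q) with hDdef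
  have hq0 : 0 < |q| := abs_pos.mpr hq
  -- coprimality with the derivative
  have hprim : Q.IsPrimitive := hQ.isPrimitive (by omega)
  have hirr : Irreducible (Q.map (Int.castRingHom ℚ)) :=
    (IsPrimitive.Int.irreducible_iff_irreducible_map_cast hprim).mp hQ
  have hcop : IsCoprime (Q.map (Int.castRingHom ℚ)) ((derivative Q).map (Int.castRingHom ℚ)) := by
    rw [← derivative_map]
    exact hirr.separable
  have hT : ∀ i, |((derivative Q).coeff i : ℝ)| ≤ m * H := by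
    intro i
    rw [coeff_derivative]
    rcases Nat.lt_or_ge m (i + 1) with hi | hi
    · rw [coeff_eq_zero_of_natDegree_lt (by omega)]
      simp
      positivity
    · push_cast
      rw [abs_mul, mul_comm]
      have h1 : |(i : ℝ) + 1| ≤ m := by
        rw [abs_of_nonneg (by positivity)]
        exact_mod_cast hi
      exact mul_le_mul h1 (abs_coeff_le_height Q _) (abs_nonneg _) (by linarith)
  have hsyl := hS Q (derivative Q) H (m * H) hQd
    ((natDegree_derivative_le Q).trans (by omega)) hH1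
    (one_le_mul_of_one_le_of_one_le hm1 hH1) (abs_coeff_le_height Q) hT hcop ξ (by linarith)
  rw [← hqdef, ← hDdef] at hsyl
  have hsyl2 : 1 ≤ a * H ^ (2 * (m - 1)) * |D| + a * H ^ (2 * m - 1) * |q| := by
    refine hsyl.trans ?_
    have h1 : C * (H ^ (m - 1) * (m * H) ^ (m - 1) * |D|) ≤ a * H ^ (2 * (m - 1)) * |D| := by
      have h2 : (m : ℝ) ^ (m - 1) ≤ (m : ℝ) ^ m := pow_le_pow_right₀ hm1 (by omega)
      calc C * (H ^ (m - 1) * (m * H) ^ (m - 1) * |D|)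
          = C * (m : ℝ) ^ (m - 1) * (H ^ (m - 1) * H ^ (m - 1)) * |D| := by
            rw [mul_pow]
            ring
        _ ≤ C * (m : ℝ) ^ m * (H ^ (m - 1) * H ^ (m - 1)) * |D| := by gcongr
        _ = a * H ^ (2 * (m - 1)) * |D| := by
            rw [← pow_add, two_mul]
    have h3 : C * (H ^ (m - 1 - 1) * (m * H) ^ m * |q|) ≤ a * H ^ (2 * m - 1) * |q| := by
      calc C * (H ^ (m - 1 - 1) * (m * H) ^ m * |q|)
          = a * (H ^ (m - 1 - 1) * H ^ m) * |q| := by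
            rw [mul_pow, ha]
            ring
        _ ≤ a * H ^ (2 * m - 1) * |q| := by
            rw [← pow_add]
            gcongr
            omega
    rw [mul_add]
    exact add_le_add h1 h3
  have hpow : ∀ i j : ℕ, i ≤ j → H ^ i ≤ H ^ j := fun i j hij => pow_le_pow_right₀ hH1 hij
  have hcm : 2 * m - 1 ≤ (c + 2) * m := by
    have : (2 : ℕ) * m ≤ (c + 2) * m := Nat.mul_le_mul_right m (by omega)
    omega
  have hcm2 : 4 * (m - 1) + 1 ≤ (c + 2) * m := by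
    have : (4 : ℕ) * m ≤ (c + 2) * m := Nat.mul_le_mul_right m (by omega)
    omega
  have hcm3 : 2 * (m - 1) + (c * m + 1) ≤ (c + 2) * m := by
    have : (c + 2) * m = c * m + 2 * m := by ring
    omega
  have hκ1 : 1 / (16 * a ^ 2 * b) ≤ 1 / (2 * a) := by
    apply one_div_le_one_div_of_le (by positivity)
    nlinarith [one_le_mul_of_one_le_of_one_le ha1 hb1]
  have hκ2 : 1 / (16 * a ^ 2 * b) ≤ 1 / (4 * a) := by
    apply one_div_le_one_div_of_le (by positivity)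
    nlinarith [one_le_mul_of_one_le_of_one_le ha1 hb1]
  rcases le_or_gt (1 / 2) (a * H ^ (2 * m - 1) * |q|) with hcase | hcase
  · refine hκ1.trans ?_
    rw [div_le_iff₀ (by positivity)]
    have h1 : a * H ^ (2 * m - 1) * |q| ≤ a * H ^ ((c + 2) * m) * |q| := by
      gcongr
    nlinarith
  · have hD2 : 1 / 2 ≤ a * H ^ (2 * (m - 1)) * |D| := by linarith
    have hDne : D ≠ 0 := by
      intro h0
      rw [h0, abs_zero, mul_zero] at hD2
      norm_num at hD2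
    have hD0 : 0 < |D| := abs_pos.mpr hDne
    rcases lt_or_ge (|q| * (4 * ((m + 1) * 4 ^ m * H))) (|D| ^ 2) with hsm | hlg
    · obtain ⟨β, hβ, hβ2⟩ := exists_root_near Q m H hQd.le (abs_coeff_le_height Q) hH1 ξ hξ1 hq
        hDne hsm
      rw [← hqdef, ← hDdef] at hβ2
      have h1 := hH₀ Q β hQ hQd hβ hQH
      rw [← hH] at h1
      refine hκ2.trans ?_
      rw [div_le_iff₀ (by positivity)]
      rw [div_le_iff₀ (by positivity)] at h1
      have h2 : |D| ≤ 2 * |q| * H ^ (c * m + 1) := by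
        calc |D| = 1 * |D| := (one_mul _).symm
          _ ≤ (|ξ - β| * H ^ (c * m + 1)) * |D| := by gcongr
          _ = (|ξ - β| * |D|) * H ^ (c * m + 1) := by ring
          _ ≤ (2 * |q|) * H ^ (c * m + 1) := by gcongr
      have h3 : 1 / 2 ≤ a * (2 * |q| * H ^ ((c + 2) * m)) := by
        calc (1 : ℝ) / 2 ≤ a * H ^ (2 * (m - 1)) * |D| := hD2
          _ ≤ a * H ^ (2 * (m - 1)) * (2 * |q| * H ^ (c * m + 1)) := by gcongr
          _ = a * (2 * |q| * H ^ (2 * (m - 1) + (c * m + 1))) := by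
            rw [pow_add]
            ring
          _ ≤ a * (2 * |q| * H ^ ((c + 2) * m)) := by
            gcongr
      nlinarith
    · rw [div_le_iff₀ (by positivity)]
      have h1 : 1 / 4 ≤ a ^ 2 * H ^ (4 * (m - 1)) * |D| ^ 2 := by
        have h2 : (1 / 2 : ℝ) ^ 2 ≤ (a * H ^ (2 * (m - 1)) * |D|) ^ 2 :=
          pow_le_pow_left₀ (by norm_num) hD2 2
        have h3 : (a * H ^ (2 * (m - 1)) * |D|) ^ 2 = a ^ 2 * H ^ (4 * (m - 1)) * |D| ^ 2 := by
          rw [mul_pow, mul_pow, ← pow_mul]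
          congr 3
          ring
        rw [h3] at h2
        linarith
      have h4 : 1 / 4 ≤ a ^ 2 * (4 * b * |q| * H ^ ((c + 2) * m)) := by
        calc (1 : ℝ) / 4 ≤ a ^ 2 * H ^ (4 * (m - 1)) * |D| ^ 2 := h1
          _ ≤ a ^ 2 * H ^ (4 * (m - 1)) * (|q| * (4 * (b * H))) := by gcongr
          _ = a ^ 2 * (4 * b * |q| * H ^ (4 * (m - 1) + 1)) := by
            rw [pow_succ]
            ring
          _ ≤ a ^ 2 * (4 * b * |q| * H ^ ((c + 2) * m)) := by
            gcongr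
      nlinarith

/-- A positive function on a finite set has a positive lower bound. -/
theorem exists_pos_lower {α : Type*} (S : Set α) (hS : S.Finite) (f : α → ℝ)
    (hf : ∀ x ∈ S, 0 < f x) : ∃ ε : ℝ, 0 < ε ∧ ∀ x ∈ S, ε ≤ f x := by
  induction S, hS using Set.Finite.induction_on with
  | empty => exact ⟨1, one_pos, fun x hx => absurd hx (Set.notMem_empty x)⟩
  | @insert a S _ _ ih =>
    obtain ⟨ε, hε, h⟩ := ih fun x hx => hf x (Set.mem_insert_of_mem _ hx)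
    refine ⟨min ε (f a), lt_min hε (hf a (Set.mem_insert _ _)), ?_⟩
    rintro x (rfl | hx)
    · exact min_le_right _ _
    · exact (min_le_left _ _).trans (h x hx)

theorem irred_lower {c k : ℕ} {ξ : ℝ} (h : Good c k ξ) (hc : 32 ≤ c)
    (htr : Transcendental ℤ ξ) (m : ℕ) (hm : 1 ≤ m) : ∃ κ : ℝ, 0 < κ ∧ κ ≤ 1 ∧
    ∀ Q : ℤ[X], Irreducible Q → Q.natDegree = m →
      κ ≤ |aeval ξ Q| * (height Q : ℝ) ^ ((c + 2) * m) := by
  obtain ⟨κ₁, hκ₁, H₀, h1⟩ := irred_lower_large h hc htr m hm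
  obtain ⟨κ₂, hκ₂, h2⟩ := exists_pos_lower {P : ℤ[X] | (P.natDegree ≤ m ∧ height P ≤ H₀) ∧ P ≠ 0}
    ((finite_height_le m H₀).subset fun P hP => hP.1) (fun P => |aeval ξ P|)
    (fun P hP => abs_pos.mpr fun h0 => hP.2 ((transcendental_iff.mp htr) P h0))
  refine ⟨min 1 (min κ₁ κ₂), lt_min one_pos (lt_min hκ₁ hκ₂), min_le_left _ _, ?_⟩
  intro Q hQ hQd
  refine (min_le_right _ _).trans ?_
  rcases le_total H₀ (height Q) with hH | hH
  · exact (min_le_left _ _).trans (h1 Q hQ hQd hH)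
  · refine (min_le_right _ _).trans ((h2 Q ⟨⟨hQd.le, hH⟩, hQ.ne_zero⟩).trans ?_)
    have h3 : (1 : ℝ) ≤ (height Q : ℝ) ^ ((c + 2) * m) :=
      one_le_pow₀ (by exact_mod_cast one_le_height hQ.ne_zero)
    exact le_mul_of_one_le_right (abs_nonneg _) h3

theorem irred_lower_uniform {c k : ℕ} {ξ : ℝ} (h : Good c k ξ) (hc : 32 ≤ c)
    (htr : Transcendental ℤ ξ) (n : ℕ) : ∃ κ : ℝ, 0 < κ ∧ κ ≤ 1 ∧
    ∀ Q : ℤ[X], Irreducible Q → 1 ≤ Q.natDegree → Q.natDegree ≤ n →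
      κ ≤ |aeval ξ Q| * (height Q : ℝ) ^ ((c + 2) * n) := by
  have key : ∀ l : ℕ, ∃ κ : ℝ, 0 < κ ∧ κ ≤ 1 ∧
      ∀ Q : ℤ[X], Irreducible Q → 1 ≤ Q.natDegree → Q.natDegree ≤ l →
        κ ≤ |aeval ξ Q| * (height Q : ℝ) ^ ((c + 2) * Q.natDegree) := by
    intro l
    induction l with
    | zero => exact ⟨1, one_pos, le_rfl, fun Q _ h1 h2 => by omega⟩
    | succ l ih =>
      obtain ⟨κ, hκ, hκ1, h1⟩ := ih
      obtain ⟨κ', hκ', hκ1', h2⟩ := irred_lower h hc htr (l + 1) (by omega)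
      refine ⟨min κ κ', lt_min hκ hκ', (min_le_left _ _).trans hκ1, ?_⟩
      intro Q hQ hd1 hd2
      rcases Nat.lt_or_ge l Q.natDegree with hl | hl
      · have hd : Q.natDegree = l + 1 := by omega
        rw [hd]
        exact (min_le_right _ _).trans (h2 Q hQ hd)
      · exact (min_le_left _ _).trans (h1 Q hQ hd1 hl)
  obtain ⟨κ, hκ, hκ1, h1⟩ := key n
  refine ⟨κ, hκ, hκ1, ?_⟩
  intro Q hQ hd1 hd2
  refine (h1 Q hQ hd1 hd2).trans ?_
  have h3 : (1 : ℝ) ≤ (height Q : ℝ) := by exact_mod_cast one_le_height hQ.ne_zero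
  gcongr

/-- Lower bound for all polynomials of degree at most `n`. -/
theorem poly_lower {c k : ℕ} {ξ : ℝ} (h : Good c k ξ) (hc : 32 ≤ c)
    (htr : Transcendental ℤ ξ) (n : ℕ) : ∃ κ : ℝ, 0 < κ ∧
    ∀ P : ℤ[X], P ≠ 0 → P.natDegree ≤ n →
      κ ≤ |aeval ξ P| * (height P : ℝ) ^ ((c + 2) * n) := by
  obtain ⟨κ, hκ, hκ1, h1⟩ := irred_lower_uniform h hc htr n
  set W := (c + 2) * n with hW
  set κ' : ℝ := κ / (2 ^ n) ^ W with hκ'
  have hκ'0 : 0 < κ' := by positivity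
  have hκ'1 : κ' ≤ 1 := by
    rw [hκ', div_le_one (by positivity)]
    exact hκ1.trans (one_le_pow₀ (one_le_pow₀ (by norm_num)))
  have hM1 : ∀ P : ℤ[X], P ≠ 0 → 1 ≤ (P.map (Int.castRingHom ℂ)).mahlerMeasure :=
    fun P hP => one_le_mahlerMeasure_of_ne_zero hP
  have hconst : ∀ P : ℤ[X], P ≠ 0 → P.natDegree = 0 →
      κ' ^ P.natDegree ≤ |aeval ξ P| * (P.map (Int.castRingHom ℂ)).mahlerMeasure ^ W := by
    intro P hP hd
    rw [hd, pow_zero]
    have h2 : 1 ≤ |aeval ξ P| := by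
      rw [eq_C_of_natDegree_eq_zero hd, aeval_C]
      have h3 : P.coeff 0 ≠ 0 := by
        intro h0
        apply hP
        rw [eq_C_of_natDegree_eq_zero hd, h0, C_0]
      change 1 ≤ |((P.coeff 0 : ℤ) : ℝ)|
      exact_mod_cast Int.one_le_abs h3
    exact one_le_mul_of_one_le_of_one_le h2 (one_le_pow₀ (hM1 P hP))
  have key : ∀ P : ℤ[X], P ≠ 0 → P.natDegree ≤ n →
      κ' ^ P.natDegree ≤ |aeval ξ P| * (P.map (Int.castRingHom ℂ)).mahlerMeasure ^ W := by
    intro P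
    induction P using WfDvdMonoid.induction_on_irreducible with
    | zero => exact fun h0 => absurd rfl h0
    | unit u hu =>
      intro h0 _
      exact hconst u h0 (natDegree_eq_zero_of_isUnit hu)
    | mul a i ha hi ih =>
      intro h0 hd
      rw [natDegree_mul hi.ne_zero ha] at hd ⊢
      have h2 := ih ha (by omega)
      have h3 : κ' ^ i.natDegree ≤
          |aeval ξ i| * (i.map (Int.castRingHom ℂ)).mahlerMeasure ^ W := by
        rcases Nat.eq_zero_or_pos i.natDegree with hd0 | hd0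
        · exact hconst i hi.ne_zero hd0
        · have h4 := h1 i hi hd0 (by omega)
          have h5 := height_le_mahler i n (by omega)
          have h6 : κ' ^ i.natDegree ≤ κ' := by
            calc κ' ^ i.natDegree ≤ κ' ^ 1 := pow_le_pow_of_le_one hκ'0.le hκ'1 hd0
              _ = κ' := pow_one _
          refine h6.trans ?_
          rw [hκ', div_le_iff₀ (by positivity)]
          have h7 := mahlerMeasure_nonneg (i.map (Int.castRingHom ℂ))
          calc κ ≤ |aeval ξ i| * (height i : ℝ) ^ W := h4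
            _ ≤ |aeval ξ i| * (2 ^ n * (i.map (Int.castRingHom ℂ)).mahlerMeasure) ^ W := by
              gcongr
            _ = _ := by
              rw [mul_pow]
              ring
      rw [map_mul, abs_mul, Polynomial.map_mul, mahlerMeasure_mul, mul_pow, pow_add]
      calc κ' ^ i.natDegree * κ' ^ a.natDegree
          ≤ (|aeval ξ i| * (i.map (Int.castRingHom ℂ)).mahlerMeasure ^ W) *
            (|aeval ξ a| * (a.map (Int.castRingHom ℂ)).mahlerMeasure ^ W) :=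
              mul_le_mul h3 h2 (by positivity)
                (mul_nonneg (abs_nonneg _) (pow_nonneg (mahlerMeasure_nonneg _) _))
        _ = _ := by ring
  refine ⟨κ' ^ n / (n + 1) ^ W, by positivity, ?_⟩
  intro P hP hd
  rw [div_le_iff₀ (by positivity)]
  have h7 := mahlerMeasure_nonneg (P.map (Int.castRingHom ℂ))
  calc κ' ^ n ≤ κ' ^ P.natDegree := pow_le_pow_of_le_one hκ'0.le hκ'1 hd
    _ ≤ |aeval ξ P| * (P.map (Int.castRingHom ℂ)).mahlerMeasure ^ W := key P hP hd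
    _ ≤ |aeval ξ P| * ((n + 1) * (height P : ℝ)) ^ W := by
      have := mahler_le_height P n hd
      gcongr
    _ = _ := by
      rw [mul_pow]
      ring

end Lower

section Trans

/-- An algebraic number is a root of an irreducible integer polynomial. -/
theorem exists_irreducible_of_aeval_eq_zero (η : ℝ) (P : ℤ[X]) (hP : P ≠ 0)
    (h0 : aeval η P = 0) : ∃ Q : ℤ[X], Irreducible Q ∧ aeval η Q = 0 := by
  revert hP h0
  induction P using WfDvdMonoid.induction_on_irreducible with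
  | zero => exact fun h0 => absurd rfl h0
  | unit u hu =>
    intro _ h0
    have h1 := hu.map (aeval η : ℤ[X] →ₐ[ℤ] ℝ)
    rw [h0] at h1
    exact absurd h1 not_isUnit_zero
  | mul a i ha hi ih =>
    intro _ h0
    rw [map_mul, mul_eq_zero] at h0
    rcases h0 with h0 | h0
    · exact ⟨i, hi, h0⟩
    · exact ih ha h0

theorem one_le_natDegree_of_root {Q : ℤ[X]} (hQ : Irreducible Q) {η : ℝ} (h0 : aeval η Q = 0) :
    1 ≤ Q.natDegree := by
  by_contra hcon
  have hd : Q.natDegree = 0 := by omega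
  rw [eq_C_of_natDegree_eq_zero hd, aeval_C] at h0
  have h1 : Q.coeff 0 = 0 := by
    have : ((Q.coeff 0 : ℤ) : ℝ) = 0 := h0
    exact_mod_cast this
  apply hQ.ne_zero
  rw [eq_C_of_natDegree_eq_zero hd, h1, C_0]

theorem abs_pow_sub_pow_le_mul (a b : ℝ) (ha : 0 ≤ a) (ha1 : a ≤ 1) (hb : 0 ≤ b) (hb1 : b ≤ 1)
    (n : ℕ) : |a ^ n - b ^ n| ≤ n * |a - b| := by
  have h1 := abs_pow_sub_pow_le a b n
  have h2 : max |a| |b| ^ (n - 1) ≤ 1 := by
    apply pow_le_one₀ (le_max_of_le_left (abs_nonneg _))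
    rw [abs_of_nonneg ha, abs_of_nonneg hb]
    exact max_le ha1 hb1
  calc |a ^ n - b ^ n| ≤ |a - b| * n * max |a| |b| ^ (n - 1) := h1
    _ ≤ |a - b| * n * 1 := by gcongr
    _ = n * |a - b| := by ring

/-- the polynomial `p X ^ n - B` -/
noncomputable def binom (p B n : ℕ) : ℤ[X] := C (p : ℤ) * X ^ n - C (B : ℤ)

theorem aeval_binom (p B n : ℕ) (x : ℝ) : aeval x (binom p B n) = p * x ^ n - B := by
  simp [binom]

theorem coeff_binom (p B n : ℕ) (hn : 1 ≤ n) (i : ℕ) :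
    (binom p B n).coeff i = if i = n then (p : ℤ) else if i = 0 then -(B : ℤ) else 0 := by
  rw [binom, coeff_sub, coeff_C_mul, coeff_X_pow, coeff_C]
  split_ifs with h1 h2 h2
  · omega
  · simp
  · simp
  · simp

theorem natDegree_binom_le (p B n : ℕ) : (binom p B n).natDegree ≤ n := by
  rw [binom]
  refine (natDegree_sub_le _ _).trans ?_
  rw [natDegree_C, max_eq_left (Nat.zero_le _)]
  exact natDegree_C_mul_X_pow_le _ _

theorem height_binom (p B n : ℕ) (hn : 1 ≤ n) (hB : B ≤ p) :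
    height (binom p B n) = p := by
  apply le_antisymm
  · refine Finset.sup_le fun i _ => ?_
    rw [coeff_binom p B n hn]
    split_ifs
    · simp
    · simpa using hB
    · simp
  · have h1 := natAbs_coeff_le_height (binom p B n) n
    rwa [coeff_binom p B n hn, if_pos rfl, Int.natAbs_natCast] at h1

theorem abs_coeff_binom_le (p B n : ℕ) (hn : 1 ≤ n) (hB : B ≤ p) (i : ℕ) :
    |((binom p B n).coeff i : ℝ)| ≤ p := by
  have h1 := abs_coeff_le_height (binom p B n) i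
  rwa [height_binom p B n hn hB] at h1

/-- The approximations of `ξ ^ k`. -/
theorem approx_pow {c k : ℕ} {ξ : ℝ} (h : Good c k ξ) (hk : 2 ≤ k) (n : ℕ) (hn : 1 ≤ n)
    (K : ℕ) : ∃ (p B : ℕ) (x : ℝ), K ≤ p ∧ 2 ≤ p ∧ B ≤ p ∧ 0 ≤ x ∧ x ≤ 1 ∧
    Irreducible (binom p B n) ∧ aeval (x ^ k) (binom p B n) = 0 ∧
    0 < |ξ ^ k - x ^ k| ∧ |ξ ^ k - x ^ k| ≤ (k * n : ℕ) / (p : ℝ) ^ (c * k * n) ∧
    0 < |aeval (ξ ^ k) (binom p B n)| ∧
    |aeval (ξ ^ k) (binom p B n)| * (p : ℝ) ^ (c * k * n) ≤ p * (k * n : ℕ) := by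
  obtain ⟨p, B, x, hKp, hp2, hBp, hx, hx1, hxB, hirr, hpos, hle⟩ := h.approx n hn K
  have hp0 : (0 : ℝ) < p := by exact_mod_cast (by omega : 0 < p)
  have hξ0 : 0 < ξ := by linarith [h.half_le]
  have hx0 : 0 < x := by linarith
  have hkn : k * n ≠ 0 := Nat.mul_ne_zero (by omega) (by omega)
  have hne : ∀ N : ℕ, N ≠ 0 → 0 < |ξ ^ N - x ^ N| := by
    intro N hN
    rw [abs_pos, sub_ne_zero]
    intro h0
    have h1 := (pow_left_inj₀ hξ0.le hx0.le hN).mp h0
    rw [h1, sub_self, abs_zero] at hpos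
    exact lt_irrefl _ hpos
  have hple : ∀ N : ℕ, |ξ ^ N - x ^ N| ≤ N * (1 / (p : ℝ) ^ (c * k * n)) := by
    intro N
    refine (abs_pow_sub_pow_le_mul ξ x hξ0.le h.le_one hx0.le hx1 N).trans ?_
    gcongr
  have heq : aeval (ξ ^ k) (binom p B n) = p * (ξ ^ (k * n) - x ^ (k * n)) := by
    rw [aeval_binom, ← pow_mul, ← hxB]
    ring
  refine ⟨p, B, x, hKp, hp2, hBp, hx0.le, hx1, hirr, ?_, hne k (by omega), ?_, ?_, ?_⟩
  · rw [aeval_binom, ← pow_mul, hxB, sub_self]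
  · refine (hple k).trans ?_
    rw [mul_one_div]
    gcongr
    exact Nat.le_mul_of_pos_right k hn
  · rw [heq, abs_mul]
    exact mul_pos (abs_pos.mpr hp0.ne') (hne _ hkn)
  · rw [heq, abs_mul, abs_of_pos hp0, mul_assoc]
    gcongr
    have h2 := hple (k * n)
    rw [mul_one_div, le_div_iff₀ (by positivity)] at h2
    exact h2

theorem good_transcendental {c k : ℕ} {ξ : ℝ} (h : Good c k ξ) (hc : 32 ≤ c) (hk : 2 ≤ k) :
    Transcendental ℤ ξ := by
  intro halg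
  obtain ⟨P, hP0, hP⟩ := halg.pow k
  obtain ⟨Q, hQ, hQ0⟩ := exists_irreducible_of_aeval_eq_zero (ξ ^ k) P hP0 hP
  have hd := one_le_natDegree_of_root hQ hQ0
  set n := Q.natDegree with hn
  obtain ⟨C, hC, hL⟩ := liouville n n
  have hH1 : (1 : ℝ) ≤ (height Q : ℝ) := by exact_mod_cast one_le_height hQ.ne_zero
  obtain ⟨K, hK⟩ := exists_nat_gt (C * (height Q : ℝ) ^ n * (k * n : ℕ))
  obtain ⟨p, B, x, hKp, hp2, hBp, hx0, hx1, hirr, hroot, hpos, hle, hpos2, hle2⟩ :=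
    approx_pow h hk n hd K
  have hp1 : (1 : ℝ) ≤ p := by exact_mod_cast (by omega : 1 ≤ p)
  have hξk : |ξ ^ k| ≤ 2 := by
    have h0 : 0 ≤ ξ := by linarith [h.half_le]
    rw [abs_of_nonneg (by positivity)]
    linarith [pow_le_one₀ (n := k) h0 h.le_one]
  have h1 := hL Q (binom p B n) (height Q) p hQ hn.symm (natDegree_binom_le p B n) hH1 hp1
    (abs_coeff_le_height Q) (abs_coeff_binom_le p B n hd hBp) (ξ ^ k) hξk hQ0
    (abs_pos.mp hpos2)
  have hexp : n + 1 ≤ c * k * n := by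
    have h2 : 32 * 2 ≤ c * k := Nat.mul_le_mul hc hk
    have h3 : 32 * 2 * n ≤ c * k * n := Nat.mul_le_mul_right n h2
    omega
  have h4 : |aeval (ξ ^ k) (binom p B n)| * (p : ℝ) ^ (n + 1) ≤ p * (k * n : ℕ) := by
    refine le_trans ?_ hle2
    gcongr
  have h5 : (p : ℝ) * p ^ (n - 1) = p ^ n := by
    rw [← pow_succ', Nat.sub_add_cancel hd]
  have h6 : (p : ℝ) * p ≤ C * (height Q : ℝ) ^ n * (k * n : ℕ) * p := by
    have h7 : (p : ℝ) ^ n * p ≤ C * (height Q : ℝ) ^ n * (k * n : ℕ) * p ^ n := by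
      calc (p : ℝ) ^ n * p = p ^ n * p * 1 := by ring
        _ ≤ p ^ n * p * (C * (height Q : ℝ) ^ n * p ^ (n - 1) *
            |aeval (ξ ^ k) (binom p B n)|) := by gcongr
        _ = C * (height Q : ℝ) ^ n * p ^ (n - 1) *
            (|aeval (ξ ^ k) (binom p B n)| * p ^ (n + 1)) := by
          rw [pow_succ]
          ring
        _ ≤ C * (height Q : ℝ) ^ n * p ^ (n - 1) * (p * (k * n : ℕ)) := by gcongr
        _ = C * (height Q : ℝ) ^ n * (k * n : ℕ) * (p * p ^ (n - 1)) := by ring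
        _ = C * (height Q : ℝ) ^ n * (k * n : ℕ) * p ^ n := by rw [h5]
    have h8 : (0 : ℝ) < p ^ n := by positivity
    have h9 : (p : ℝ) ≤ C * (height Q : ℝ) ^ n * (k * n : ℕ) := by
      have h10 : (p : ℝ) ^ n * p ≤ p ^ n * (C * (height Q : ℝ) ^ n * (k * n : ℕ)) := by
        linarith
      exact le_of_mul_le_mul_left h10 h8
    gcongr
  have h11 : (p : ℝ) ≤ C * (height Q : ℝ) ^ n * (k * n : ℕ) :=
    le_of_mul_le_mul_right h6 (by linarith)
  have h12 : (K : ℝ) ≤ p := by exact_mod_cast hKp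
  linarith

end Trans

section Exponents

/-- Upper bound for `w_n(ξ)`. -/
theorem wExp_le {c k : ℕ} {ξ : ℝ} (h : Good c k ξ) (hc : 32 ≤ c)
    (htr : Transcendental ℤ ξ) (n : ℕ) : wExp n ξ ≤ ((((c + 2) * n : ℕ) : ℝ) : EReal) := by
  obtain ⟨κ, hκ, hlow⟩ := poly_lower h hc htr n
  refine sSup_le ?_
  rintro _ ⟨w, hw, rfl⟩
  change (w : EReal) ≤ _
  rw [EReal.coe_le_coe_iff]
  by_contra hcon
  push Not at hcon
  apply hw
  set W : ℕ := (c + 2) * n with hW
  have hγ : 0 < w - (W : ℝ) := by linarith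
  refine (finite_height_le n ⌊(1 / κ) ^ (1 / (w - (W : ℝ)))⌋₊).subset ?_
  rintro P ⟨hd, hpos, hle⟩
  refine ⟨hd, ?_⟩
  have hP : P ≠ 0 := by
    rintro rfl
    simp at hpos
  have hH1 : (1 : ℝ) ≤ (height P : ℝ) := by exact_mod_cast one_le_height hP
  have hH0 : (0 : ℝ) < (height P : ℝ) := by linarith
  have h1 := hlow P hP hd
  have h2 : κ ≤ (height P : ℝ) ^ (-(w - (W : ℝ))) := by
    calc κ ≤ |aeval ξ P| * (height P : ℝ) ^ W := h1
      _ ≤ (height P : ℝ) ^ (-w) * (height P : ℝ) ^ W := by gcongr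
      _ = (height P : ℝ) ^ (-(w - (W : ℝ))) := by
        rw [← Real.rpow_natCast, ← Real.rpow_add hH0]
        congr 1
        ring
  have h3 : (height P : ℝ) ^ (w - (W : ℝ)) ≤ 1 / κ := by
    rw [Real.rpow_neg hH0.le] at h2
    rw [le_div_iff₀ hκ]
    have h4 : 0 < (height P : ℝ) ^ (w - (W : ℝ)) := Real.rpow_pos_of_pos hH0 _
    calc (height P : ℝ) ^ (w - (W : ℝ)) * κ
        ≤ (height P : ℝ) ^ (w - (W : ℝ)) * ((height P : ℝ) ^ (w - (W : ℝ)))⁻¹ := by gcongr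
      _ = 1 := mul_inv_cancel₀ h4.ne'
  refine Nat.le_floor ?_
  calc (height P : ℝ) = ((height P : ℝ) ^ (w - (W : ℝ))) ^ (1 / (w - (W : ℝ))) := by
        rw [← Real.rpow_mul hH0.le, mul_one_div_cancel hγ.ne', Real.rpow_one]
    _ ≤ (1 / κ) ^ (1 / (w - (W : ℝ))) := by
        apply Real.rpow_le_rpow (by positivity) h3 (by positivity)

/-- Upper bound for `w_n^*(ξ)`. -/
theorem wStarExp_le {c k : ℕ} {ξ : ℝ} (h : Good c k ξ) (n : ℕ) :
    wStarExp n ξ ≤ (((c * n : ℕ) : ℝ) : EReal) := by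
  have hbad := h.bad
  choose! H₀ hH₀ using hbad
  refine sSup_le ?_
  rintro _ ⟨w, hw, rfl⟩
  change (w : EReal) ≤ _
  rw [EReal.coe_le_coe_iff]
  by_contra hcon
  push Not at hcon
  apply hw
  set B : ℕ := max 2 ((Finset.range (n + 1)).sup H₀) with hB
  have hfin : (⋃ P ∈ {P : ℤ[X] | (P.natDegree ≤ n ∧ height P ≤ B) ∧ P ≠ 0},
      {α : ℝ | aeval α P = 0}).Finite := by
    refine Set.Finite.biUnion ((finite_height_le n B).subset fun P hP => hP.1) ?_
    rintro P ⟨-, hP⟩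
    refine (Polynomial.rootSet_finite P ℝ).subset ?_
    intro α hα
    exact (mem_rootSet_of_ne hP).mpr hα
  refine hfin.subset ?_
  rintro α ⟨P, hP, hα, hd, hpos, hle⟩
  refine Set.mem_biUnion (x := P) ⟨⟨hd, ?_⟩, hP.ne_zero⟩ hα
  by_contra hlt
  push Not at hlt
  have hd1 := one_le_natDegree_of_root hP hα
  have h1 : H₀ P.natDegree ≤ height P := by
    have h2 : H₀ P.natDegree ≤ (Finset.range (n + 1)).sup H₀ :=
      Finset.le_sup (Finset.mem_range.mpr (by omega))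
    omega
  have h2 : (1 : ℝ) < (height P : ℝ) := by
    have : 1 < height P := by omega
    exact_mod_cast this
  have h3 := (hH₀ P.natDegree hd1 P α hP rfl hα h1).trans hle
  have h4 : (height P : ℝ) ^ (-w - 1) < 1 / (height P : ℝ) ^ (c * P.natDegree + 1) := by
    rw [one_div, ← Real.rpow_natCast, ← Real.rpow_neg (by linarith)]
    apply Real.rpow_lt_rpow_of_exponent_lt h2
    have h5 : ((c * P.natDegree : ℕ) : ℝ) ≤ ((c * n : ℕ) : ℝ) := by
      exact_mod_cast Nat.mul_le_mul_left c hd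
    push_cast at h5 hcon ⊢
    linarith
  linarith

/-- Real powers of large integers dominate constants. -/
theorem exists_nat_le_rpow (γ : ℝ) (hγ : 0 < γ) (A : ℝ) :
    ∃ K : ℕ, ∀ p : ℕ, K ≤ p → A ≤ (p : ℝ) ^ γ := by
  have h1 := (tendsto_rpow_atTop hγ).comp (tendsto_natCast_atTop_atTop (R := ℝ))
  obtain ⟨K, hK⟩ := (h1.eventually_ge_atTop A).exists_forall_of_atTop
  exact ⟨K, hK⟩

/-- Lower bound for `w_n(ξ ^ k)`. -/
theorem le_wExp_pow {c k : ℕ} {ξ : ℝ} (h : Good c k ξ) (hk : 2 ≤ k) (n : ℕ) (hn : 1 ≤ n) :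
    ((((c * k * n : ℕ) : ℝ) - 1 : ℝ) : EReal) ≤ wExp n (ξ ^ k) := by
  refine EReal.ge_of_forall_gt_iff_ge.mp fun w hw => ?_
  rw [EReal.coe_lt_coe_iff] at hw
  refine le_sSup ⟨w, ?_, rfl⟩
  have hγ : 0 < ((c * k * n : ℕ) : ℝ) - 1 - w := by linarith
  obtain ⟨K₁, hK₁⟩ := exists_nat_le_rpow _ hγ ((k * n : ℕ) : ℝ)
  intro hfin
  obtain ⟨M, hM⟩ := (hfin.image height).bddAbove
  obtain ⟨p, B, x, hKp, hp2, hBp, hx0, hx1, hirr, hroot, hpos, hle, hpos2, hle2⟩ :=
    approx_pow h hk n hn (max K₁ (M + 1))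
  have hp0 : (0 : ℝ) < p := by exact_mod_cast (by omega : 0 < p)
  have hmem : binom p B n ∈ {P : ℤ[X] | P.natDegree ≤ n ∧ 0 < |aeval (ξ ^ k) P| ∧
      |aeval (ξ ^ k) P| ≤ (height P : ℝ) ^ (-w)} := by
    refine ⟨natDegree_binom_le p B n, hpos2, ?_⟩
    rw [height_binom p B n hn hBp]
    have h1 := hK₁ p ((le_max_left _ _).trans hKp)
    have h2 : |aeval (ξ ^ k) (binom p B n)| * (p : ℝ) ^ (c * k * n) ≤
        (p : ℝ) ^ (-w) * (p : ℝ) ^ (c * k * n) := by
      calc |aeval (ξ ^ k) (binom p B n)| * (p : ℝ) ^ (c * k * n) ≤ p * (k * n : ℕ) := hle2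
        _ ≤ p * (p : ℝ) ^ (((c * k * n : ℕ) : ℝ) - 1 - w) := by gcongr
        _ = (p : ℝ) ^ (-w) * (p : ℝ) ^ (c * k * n) := by
          nth_rewrite 1 [← Real.rpow_one (p : ℝ)]
          rw [← Real.rpow_add hp0, ← Real.rpow_natCast, ← Real.rpow_add hp0]
          congr 1
          ring
    exact le_of_mul_le_mul_right h2 (by positivity)
  have h3 := hM ⟨_, hmem, rfl⟩
  rw [height_binom p B n hn hBp] at h3
  have h4 := (le_max_right K₁ (M + 1)).trans hKp
  omega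

/-- Lower bound for `w_n^*(ξ ^ k)`. -/
theorem le_wStarExp_pow {c k : ℕ} {ξ : ℝ} (h : Good c k ξ) (hc : 32 ≤ c) (hk : 2 ≤ k) (n : ℕ)
    (hn : 1 ≤ n) :
    ((((c * k * n : ℕ) : ℝ) - 1 : ℝ) : EReal) ≤ wStarExp n (ξ ^ k) := by
  refine EReal.ge_of_forall_gt_iff_ge.mp fun w hw => ?_
  rw [EReal.coe_lt_coe_iff] at hw
  refine le_sSup ⟨w, ?_, rfl⟩
  have hγ : 0 < ((c * k * n : ℕ) : ℝ) - 1 - w := by linarith
  obtain ⟨K₁, hK₁⟩ := exists_nat_le_rpow _ hγ ((k * n : ℕ) : ℝ)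
  intro hfin
  obtain ⟨ε, hε, hM⟩ := exists_pos_lower _ hfin (fun α => |ξ ^ k - α|) (fun α hα => by
    obtain ⟨P, _, _, _, hpos, _⟩ := hα
    exact hpos)
  obtain ⟨K₂, hK₂⟩ := exists_nat_gt (((k * n : ℕ) : ℝ) / ε)
  obtain ⟨p, B, x, hKp, hp2, hBp, hx0, hx1, hirr, hroot, hpos, hle, hpos2, hle2⟩ :=
    approx_pow h hk n hn (max K₁ K₂)
  have hp0 : (0 : ℝ) < p := by exact_mod_cast (by omega : 0 < p)
  have hp1 : (1 : ℝ) ≤ p := by exact_mod_cast (by omega : 1 ≤ p)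
  have hmem : x ^ k ∈ {α : ℝ | ∃ P : ℤ[X], Irreducible P ∧ aeval α P = 0 ∧ P.natDegree ≤ n ∧
      0 < |ξ ^ k - α| ∧ |ξ ^ k - α| ≤ (height P : ℝ) ^ (-w - 1)} := by
    refine ⟨binom p B n, hirr, hroot, natDegree_binom_le p B n, hpos, hle.trans ?_⟩
    rw [height_binom p B n hn hBp]
    have h1 := hK₁ p ((le_max_left _ _).trans hKp)
    rw [div_le_iff₀ (by positivity)]
    calc ((k * n : ℕ) : ℝ) ≤ (p : ℝ) ^ (((c * k * n : ℕ) : ℝ) - 1 - w) := h1
      _ = (p : ℝ) ^ (-w - 1) * (p : ℝ) ^ (c * k * n) := by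
        rw [← Real.rpow_natCast, ← Real.rpow_add hp0]
        congr 1
        ring
  have h3 := hM _ hmem
  have h4 : |ξ ^ k - x ^ k| < ε := by
    refine lt_of_le_of_lt hle ?_
    rw [div_lt_iff₀ (by positivity)]
    rw [div_lt_iff₀ hε] at hK₂
    have h5 : (K₂ : ℝ) ≤ p := by exact_mod_cast (le_max_right K₁ K₂).trans hKp
    have hc0 : c * k * n ≠ 0 := Nat.mul_ne_zero (Nat.mul_ne_zero (by omega) (by omega)) (by omega)
    have h6 : (p : ℝ) ≤ (p : ℝ) ^ (c * k * n) := le_self_pow₀ hp1 hc0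
    calc ((k * n : ℕ) : ℝ) < K₂ * ε := hK₂
      _ ≤ (p : ℝ) ^ (c * k * n) * ε := by gcongr; linarith
      _ = ε * (p : ℝ) ^ (c * k * n) := mul_comm _ _
  linarith

end Exponents

section Final

theorem coe_natCast_ne_top (n : ℕ) : ((n : ℝ) : EReal) ≠ ⊤ := EReal.coe_ne_top _

theorem limsup_add_one_div_le (f : ℕ → EReal) (a : ℕ) (ha : 1 ≤ a)
    (hf : ∀ n : ℕ, f n ≤ (((a * n : ℕ) : ℝ) : EReal)) :
    Filter.limsup (fun n : ℕ => (f n + 1) / (((n : ℝ) + 1 : ℝ) : EReal)) Filter.atTop ≤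
      ((a : ℝ) : EReal) := by
  refine Filter.limsup_le_of_le (h := Filter.Eventually.of_forall fun n => ?_)
  have hn : (0 : ℝ) < (n : ℝ) + 1 := by positivity
  rw [EReal.div_le_iff_le_mul (by exact_mod_cast hn) (EReal.coe_ne_top _)]
  calc f n + 1 ≤ (((a * n : ℕ) : ℝ) : EReal) + 1 := by gcongr; exact hf n
    _ = (((a * n : ℕ) : ℝ) + 1 : ℝ) := by
      rw [EReal.coe_add, EReal.coe_one]
    _ ≤ ((((n : ℝ) + 1) * a : ℝ) : EReal) := by
      rw [EReal.coe_le_coe_iff]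
      have h1 : (1 : ℝ) ≤ a := by exact_mod_cast ha
      push_cast
      nlinarith
    _ = _ := EReal.coe_mul _ _

theorem le_limsup_add_one_div (f : ℕ → EReal) (a : ℕ)
    (hf : ∀ n : ℕ, 1 ≤ n → ((((a * n : ℕ) : ℝ) - 1 : ℝ) : EReal) ≤ f n) :
    ((a : ℝ) : EReal) ≤
      Filter.limsup (fun n : ℕ => (f n + 1) / (((n : ℝ) + 1 : ℝ) : EReal)) Filter.atTop := by
  have h1 : Filter.Tendsto (fun n : ℕ => (((a : ℝ) * ((n : ℝ) / ((n : ℝ) + 1)) : ℝ) : EReal))
      Filter.atTop (nhds ((a : ℝ) : EReal)) := by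
    refine (EReal.tendsto_coe).mpr ?_
    have := (tendsto_natCast_div_add_atTop (1 : ℝ)).const_mul (a : ℝ)
    rwa [mul_one] at this
  rw [← h1.limsup_eq]
  refine Filter.limsup_le_limsup ?_
  filter_upwards [Filter.eventually_ge_atTop 1] with n hn
  have hn0 : (0 : ℝ) < (n : ℝ) + 1 := by positivity
  rw [EReal.le_div_iff_mul_le (by exact_mod_cast hn0) (EReal.coe_ne_top _), ← EReal.coe_mul]
  have h2 : (a : ℝ) * ((n : ℝ) / ((n : ℝ) + 1)) * ((n : ℝ) + 1) = ((a * n : ℕ) : ℝ) := by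
    push_cast
    field_simp
  rw [h2]
  calc (((a * n : ℕ) : ℝ) : EReal) = ((((a * n : ℕ) : ℝ) - 1 : ℝ) : EReal) + 1 := by
        rw [← EReal.coe_one, ← EReal.coe_add, sub_add_cancel]
    _ ≤ f n + 1 := by gcongr; exact hf n hn

/-- Step F (evaluation of the exponents). -/
theorem good_types (c k : ℕ) (hc : 32 ≤ c) (hk : 2 ≤ k) (ξ : ℝ) (h : Good c k ξ) :
    IsSNumber ξ ∧ typeTStar ξ ≤ ((c : ℝ) : EReal) ∧ typeT ξ ≤ (((c : ℝ) + 2 : ℝ) : EReal) ∧
      (((k : ℝ) * c : ℝ) : EReal) ≤ typeTStar (ξ ^ k) ∧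
      (((k : ℝ) * c : ℝ) : EReal) ≤ typeT (ξ ^ k) := by
  have htr := good_transcendental h hc hk
  refine ⟨⟨htr, ?_⟩, ?_, ?_, ?_, ?_⟩
  · refine lt_of_le_of_lt (b := (((c + 2 : ℕ) : ℝ) : EReal)) ?_ (EReal.coe_lt_top _)
    refine Filter.limsup_le_of_le (h := ?_)
    filter_upwards [Filter.eventually_ge_atTop 1] with n hn
    have hn0 : (0 : ℝ) < (n : ℝ) := by exact_mod_cast hn
    rw [EReal.div_le_iff_le_mul (by exact_mod_cast hn0) (EReal.coe_ne_top _), ← EReal.coe_mul]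
    refine (wExp_le h hc htr n).trans (le_of_eq ?_)
    congr 1
    push_cast
    ring
  · exact limsup_add_one_div_le _ c (by omega) fun n => wStarExp_le h n
  · have h1 := limsup_add_one_div_le _ (c + 2) (by omega) fun n => wExp_le h hc htr n
    rw [Nat.cast_add, Nat.cast_ofNat] at h1
    exact h1
  · have h1 := le_limsup_add_one_div (fun n => wStarExp n (ξ ^ k)) (c * k)
      fun n hn => le_wStarExp_pow h hc hk n hn
    rw [Nat.cast_mul, mul_comm] at h1
    exact h1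
  · have h1 := le_limsup_add_one_div (fun n => wExp n (ξ ^ k)) (c * k)
      fun n hn => le_wExp_pow h hk n hn
    rw [Nat.cast_mul, mul_comm] at h1
    exact h1

end Final

end Pool.Agent.MP_ac14a7_nt
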