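import Mathlib
import Pool.Agent.MP_ac14a7_nt.Core
import Pool.Agent.MP_ac14a7_nt.Stage
import Pool.Agent.MP_ac14a7_nt.Nested
import Pool.Agent.MP_ac14a7_nt.Types

/-!
Existence of the number.
-/

open Polynomial

namespace Pool.Agent.MP_ac14a7_nt

theorem exists_good (c k : ℕ) (hc : 32 ≤ c) (hk : 2 ≤ k) : ∃ ξ : ℝ, Good c k ξ :=
  exists_good_of_stage c k hc hk fun M n hn => stage_of nontrivial_region c k hc hk M n hn

theorem exists_types (c k : ℕ) (hc : 32 ≤ c) (hk : 2 ≤ k) : ∃ ξ : ℝ, IsSNumber ξ ∧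
    typeTStar ξ ≤ ((c : ℝ) : EReal) ∧ typeT ξ ≤ (((c : ℝ) + 2 : ℝ) : EReal) ∧
      (((k : ℝ) * c : ℝ) : EReal) ≤ typeTStar (ξ ^ k) ∧
      (((k : ℝ) * c : ℝ) : EReal) ≤ typeT (ξ ^ k) := by
  obtain ⟨ξ, hξ⟩ := exists_good c k hc hk
  exact ⟨ξ, good_types c k hc hk ξ hξ⟩

end Pool.Agent.MP_ac14a7_nt
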